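import Pool.Agent.KXS.CornerF

/-!
# Affine changes of coordinates and the third line
-/

set_option autoImplicit false

open MvPolynomial

namespace Pool.Agent.KXS

/-- determinant of two vectors -/
def det2 (u w : Fin 2 → ℂ) : ℂ := u 0 * w 1 - u 1 * w 0

/-- substitution of `o + x u + y w` -/
noncomputable def aff (o u w : Fin 2 → ℂ) : R2 →ₐ[ℂ] R2 :=
  aeval ![C (o 0) + C (u 0) * X 0 + C (w 0) * X 1, C (o 1) + C (u 1) * X 0 + C (w 1) * X 1]

theorem eval_aff (o u w v : Fin 2 → ℂ) (f : R2) :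
    eval v (aff o u w f) = eval (fun i => o i + v 0 * u i + v 1 * w i) f := by
  unfold aff
  induction f using MvPolynomial.induction_on with
  | C a => simp
  | add p q hp hq => simp only [map_add, hp, hq]
  | mul_X p i hp =>
    rw [map_mul, map_mul, hp, map_mul, aeval_X, eval_X]
    congr 1
    fin_cases i
    · show eval v (C (o 0) + C (u 0) * X 0 + C (w 0) * X 1) = o 0 + v 0 * u 0 + v 1 * w 0
      simp only [map_add, map_mul, eval_C, eval_X]
      ring
    · show eval v (C (o 1) + C (u 1) * X 0 + C (w 1) * X 1) = o 1 + v 0 * u 1 + v 1 * w 1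
      simp only [map_add, map_mul, eval_C, eval_X]
      ring

theorem br_aff (o u w : Fin 2 → ℂ) (f g : R2) :
    br (aff o u w f) (aff o u w g) = aff o u w (br f g) * C (det2 u w) := by
  unfold aff
  rw [br_comp]
  congr 1
  unfold br det2
  simp only [map_add, pderiv_C_mul, pderiv_C, pderiv_X_self,
    pderiv_X_of_ne (show (1 : Fin 2) ≠ 0 by decide), pderiv_X_of_ne (show (0 : Fin 2) ≠ 1 by decide),
    C_sub, C_mul]
  ring

theorem aff_inj {o u w : Fin 2 → ℂ} (h : det2 u w ≠ 0) {f g : R2}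
    (hfg : aff o u w f = aff o u w g) : f = g := by
  apply MvPolynomial.funext
  intro z
  set a : ℂ := ((z 0 - o 0) * w 1 - (z 1 - o 1) * w 0) / det2 u w with ha
  set b : ℂ := ((z 1 - o 1) * u 0 - (z 0 - o 0) * u 1) / det2 u w with hb
  have h1 := congrArg (eval ![a, b]) hfg
  rw [eval_aff, eval_aff] at h1
  have h2 : (fun i => o i + (![a, b] : Fin 2 → ℂ) 0 * u i + (![a, b] : Fin 2 → ℂ) 1 * w i) = z := by
    have e0 : a * det2 u w = (z 0 - o 0) * w 1 - (z 1 - o 1) * w 0 := by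
      rw [ha]; field_simp
    have e1 : b * det2 u w = (z 1 - o 1) * u 0 - (z 0 - o 0) * u 1 := by
      rw [hb]; field_simp
    funext i
    fin_cases i
    · show o 0 + a * u 0 + b * w 0 = z 0
      have : (o 0 + a * u 0 + b * w 0 - z 0) * det2 u w = 0 := by
        have e2 : (o 0 + a * u 0 + b * w 0 - z 0) * det2 u w =
            (o 0 - z 0) * det2 u w + u 0 * (a * det2 u w) + w 0 * (b * det2 u w) := by ring
        rw [e2, e0, e1]
        unfold det2
        ring
      exact sub_eq_zero.1 ((mul_eq_zero.1 this).resolve_right h)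
    · show o 1 + a * u 1 + b * w 1 = z 1
      have : (o 1 + a * u 1 + b * w 1 - z 1) * det2 u w = 0 := by
        have e2 : (o 1 + a * u 1 + b * w 1 - z 1) * det2 u w =
            (o 1 - z 1) * det2 u w + u 1 * (a * det2 u w) + w 1 * (b * det2 u w) := by ring
        rw [e2, e0, e1]
        unfold det2
        ring
      exact sub_eq_zero.1 ((mul_eq_zero.1 this).resolve_right h)
  rwa [h2] at h1

/-- the Keller map in the new coordinates -/
noncomputable def kel (o u w : Fin 2 → ℂ) (P : R2) : R2 := C (1 / det2 u w) * aff o u w P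

theorem kel_br {o u w : Fin 2 → ℂ} (h : det2 u w ≠ 0) {P Q : R2} (hJ : br P Q = 1) :
    br (kel o u w P) (aff o u w Q) = 1 := by
  have h1 := br_aff o u w P Q
  rw [hJ, map_one, one_mul] at h1
  have h2 : br (kel o u w P) (aff o u w Q) =
      C (1 / det2 u w) * br (aff o u w P) (aff o u w Q) := by
    unfold br kel
    rw [pderiv_C_mul, pderiv_C_mul]
    ring
  rw [h2, h1, ← C_mul, one_div_mul_cancel h, C_1]

theorem kel_inj {o u w : Fin 2 → ℂ} (h : det2 u w ≠ 0) {f g : R2}
    (hfg : kel o u w f = kel o u w g) : f = g := by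
  unfold kel at hfg
  have hne : (C (1 / det2 u w) : R2) ≠ 0 := by
    rw [Ne, C_eq_zero]
    exact one_div_ne_zero h
  exact aff_inj h (mul_left_cancel₀ hne hfg)

theorem coeff_kel {o u w : Fin 2 → ℂ} (h : det2 u w ≠ 0) (f : R2) (s : Fin 2 →₀ ℕ) :
    coeff s (kel o u w f) ≠ 0 ↔ coeff s (aff o u w f) ≠ 0 := by
  unfold kel
  rw [coeff_C_mul]
  constructor
  · exact right_ne_zero_of_mul
  · exact mul_ne_zero (one_div_ne_zero h)

/-- agreement on two lines gives agreement on the cross -/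
theorem cross_of_lines {f g : R2} {o u w : Fin 2 → ℂ}
    (h1 : ∀ t : ℂ, eval (fun i => o i + t * u i) f = eval (fun i => o i + t * u i) g)
    (h2 : ∀ t : ℂ, eval (fun i => o i + t * w i) f = eval (fun i => o i + t * w i) g) :
    (X 0 * X 1 : R2) ∣ aff o u w f - aff o u w g := by
  rw [cross_dvd_iff]
  intro s hs
  rw [coeff_sub, sub_eq_zero]
  refine Pool.Agent.KellerCross.coeff_eq_of_cross _ _ (fun v hv => ?_) s hs
  rw [eval_aff, eval_aff]
  rcases mul_eq_zero.1 hv with h | h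
  · rw [h]
    simp only [zero_mul, add_zero]
    exact h2 (v 1)
  · rw [h]
    simp only [zero_mul, add_zero]
    exact h1 (v 0)

theorem kel_dvd {f g : R2} {o u w : Fin 2 → ℂ} (h : (X 0 * X 1 : R2) ∣ aff o u w f - aff o u w g) :
    (X 0 * X 1 : R2) ∣ kel o u w f - kel o u w g := by
  unfold kel
  rw [← mul_sub]
  exact Dvd.dvd.mul_left h _

/-- total degree -/
theorem deg_aff {o u w : Fin 2 → ℂ} {f : R2} {D : ℕ}
    (hf : ∀ s : Fin 2 →₀ ℕ, coeff s f ≠ 0 → s 0 + s 1 ≤ D) :
    ∀ s : Fin 2 →₀ ℕ, coeff s (aff o u w f) ≠ 0 → (s 0 : ℝ) ≤ (D : ℕ) + (-1 : ℝ) * s 1 := by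
  intro s hs
  have hlin : ∀ (a b c : ℂ) (N : ℕ), TW (-1) N 1 (C a + C b * X 0 + C c * X 1 : R2) := by
    intro a b c N
    have hX0 : TW (-1) N 1 (X 0 : R2) := by
      intro t _ ht
      rw [coeff_X] at ht
      have : Finsupp.single 0 1 = t := by
        by_contra h
        exact ht (if_neg h)
      rw [← this]; simp
    have hX1 : TW (-1) N 1 (X 1 : R2) := by
      intro t _ ht
      rw [coeff_X] at ht
      have : Finsupp.single 1 1 = t := by
        by_contra h
        exact ht (if_neg h)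
      rw [← this]; simp
    have e1 := (TW.C (-1) N b).mul hX0
    have e2 := (TW.C (-1) N c).mul hX1
    rw [zero_add] at e1 e2
    exact ((TW.le (TW.C (-1) N a) (by norm_num)).add e1).add e2
  have h1 : TW (-1) (s 1 + 1) (D : ℕ) (aff o u w f) := by
    unfold aff
    refine TW.comp (hlin _ _ _ _) ?_ ?_
    · have := hlin (o 1) (u 1) (w 1) (s 1 + 1)
      rw [neg_neg]
      exact this
    · intro t ht
      have h2 := hf t ht
      have h3 : (t 0 : ℝ) + t 1 ≤ D := by exact_mod_cast h2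
      linarith
  exact h1 s (by omega) hs

/-- the coefficient of `x ^ D` after the substitution -/
theorem coeff_aff {o u w : Fin 2 → ℂ} {f : R2} {D : ℕ}
    (hf : ∀ s : Fin 2 →₀ ℕ, coeff s f ≠ 0 → s 0 + s 1 ≤ D) {s : Fin 2 →₀ ℕ}
    (hs : s 0 + s 1 = D) (hu : ∀ t, coeff t f ≠ 0 → t 0 + t 1 = D → t = s) :
    coeff (Finsupp.single 0 D) (aff o u w f) = coeff s f * (u 0 ^ s 0 * u 1 ^ s 1) := by
  classical
  have hlin : ∀ (a b : ℂ), (Polynomial.C a + Polynomial.C b * Polynomial.X).natDegree ≤ 1 := by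
    intro a b
    refine (Polynomial.natDegree_add_le _ _).trans (max_le (by simp) ?_)
    exact (Polynomial.natDegree_C_mul_le _ _).trans (by simp)
  have hpow : ∀ (a b : ℂ) (k : ℕ),
      ((Polynomial.C a + Polynomial.C b * Polynomial.X) ^ k).natDegree ≤ k ∧
      ((Polynomial.C a + Polynomial.C b * Polynomial.X) ^ k).coeff k = b ^ k := by
    intro a b k
    constructor
    · have := Polynomial.natDegree_pow_le_of_le k (hlin a b)
      rwa [mul_one] at this
    · have := Polynomial.coeff_pow_of_natDegree_le (m := k) (hlin a b)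
      rw [mul_one] at this
      rw [this]
      congr 1
      simp
  have hterm : ∀ t : Fin 2 →₀ ℕ, t 0 + t 1 ≤ D →
      ((Polynomial.C (o 0) + Polynomial.C (u 0) * Polynomial.X) ^ t 0 *
        (Polynomial.C (o 1) + Polynomial.C (u 1) * Polynomial.X) ^ t 1).coeff D =
      if t 0 + t 1 = D then u 0 ^ t 0 * u 1 ^ t 1 else 0 := by
    intro t ht
    split_ifs with h
    · rw [← h, Polynomial.coeff_mul_add_eq_of_natDegree_le (hpow _ _ _).1 (hpow _ _ _).1,
        (hpow _ _ _).2, (hpow _ _ _).2]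
    · apply Polynomial.coeff_eq_zero_of_natDegree_lt
      have := Polynomial.natDegree_mul_le (p := (Polynomial.C (o 0) +
        Polynomial.C (u 0) * Polynomial.X) ^ t 0) (q := (Polynomial.C (o 1) +
        Polynomial.C (u 1) * Polynomial.X) ^ t 1)
      have h1 := (hpow (o 0) (u 0) (t 0)).1
      have h2 := (hpow (o 1) (u 1) (t 1)).1
      omega
  rw [← r0_coeff]
  have h1 : r0 (aff o u w f) = aeval ![Polynomial.C (o 0) + Polynomial.C (u 0) * Polynomial.X,
      Polynomial.C (o 1) + Polynomial.C (u 1) * Polynomial.X] f := by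
    unfold aff
    rw [r0_aeval]
    have hC : ∀ a : ℂ, r0 (C a) = Polynomial.C a := by
      intro a
      unfold r0
      rw [aeval_C]
      rfl
    congr 2
    rw [map_add, map_add, map_mul, map_mul, map_add, map_add, map_mul, map_mul, r0_X0, r0_X1,
      mul_zero, mul_zero, add_zero, add_zero, hC, hC, hC, hC]
  rw [h1, aeval_def, eval₂_eq', Polynomial.finsetSum_coeff, Finset.sum_eq_single s]
  · rw [Fin.prod_univ_two]
    simp only [Matrix.cons_val_zero, Matrix.cons_val_one]
    have h : algebraMap ℂ (Polynomial ℂ) (coeff s f) = Polynomial.C (coeff s f) := rfl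
    rw [h, Polynomial.coeff_C_mul, hterm s (by omega), if_pos hs]
  · intro t ht hne
    rw [Fin.prod_univ_two]
    simp only [Matrix.cons_val_zero, Matrix.cons_val_one]
    have h : algebraMap ℂ (Polynomial ℂ) (coeff t f) = Polynomial.C (coeff t f) := rfl
    rw [h, Polynomial.coeff_C_mul, hterm t (hf t (mem_support_iff.1 ht)), if_neg, mul_zero]
    intro h2
    exact hne (hu t (mem_support_iff.1 ht) h2)
  · intro h
    rw [notMem_support_iff.1 h]
    simp

/-- third line, normalised, with the degree of the first map not smaller -/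
theorem third_line_le {P Q P' Q' : R2} (hJ : br P Q = 1) (hJ' : br P' Q' = 1)
    (hP : (X 0 * X 1 : R2) ∣ P - P') (hQ : (X 0 * X 1 : R2) ∣ Q - Q') {p u : Fin 2 → ℂ}
    (hu0 : u 0 ≠ 0) (hu1 : u 1 ≠ 0)
    (h1 : ∀ t : ℂ, eval (fun i => p i + t * u i) P = eval (fun i => p i + t * u i) P')
    (h2 : ∀ t : ℂ, eval (fun i => p i + t * u i) Q = eval (fun i => p i + t * u i) Q')
    {D : ℕ} (w : ∀ s : Fin 2 →₀ ℕ, coeff s P ≠ 0 → s 0 + s 1 ≤ D)
    (w' : ∀ s : Fin 2 →₀ ℕ, coeff s P' ≠ 0 → s 0 + s 1 ≤ D)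
    (hD : ∃ s : Fin 2 →₀ ℕ, coeff s P ≠ 0 ∧ s 0 + s 1 = D) : P = P' ∧ Q = Q' := by
  by_contra hne
  obtain ⟨s, hs0, hs1, -, hs, hsD, huniq⟩ := corner_thm (ρ := 1) (σ := 1) (D := D) hJ hJ' hP hQ
    le_rfl le_rfl (by intro s hs; have := w s hs; omega) (by intro s hs; have := w' s hs; omega)
    (by obtain ⟨s, hs, h⟩ := hD; exact ⟨s, hs, by omega⟩) hne
  rw [one_mul, one_mul] at hsD
  -- the point of the third line on the `x`-axis
  set o : Fin 2 → ℂ := ![p 0 - p 1 / u 1 * u 0, 0] with ho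
  set e : Fin 2 → ℂ := ![1, 0] with he
  have hdet : det2 u e ≠ 0 := by
    unfold det2
    simp [he, hu1]
  have hpt : ∀ t : ℂ, (fun i => o i + t * u i) = fun i => p i + (t - p 1 / u 1) * u i := by
    intro t
    funext i
    fin_cases i
    · show p 0 - p 1 / u 1 * u 0 + t * u 0 = p 0 + (t - p 1 / u 1) * u 0
      ring
    · show 0 + t * u 1 = p 1 + (t - p 1 / u 1) * u 1
      field_simp
      ring
  have hax : ∀ f g : R2, (X 0 * X 1 : R2) ∣ f - g → ∀ t : ℂ,
      eval (fun i => o i + t * e i) f = eval (fun i => o i + t * e i) g := by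
    intro f g hd t
    obtain ⟨q, hq⟩ := hd
    have h3 := congrArg (eval (fun i => o i + t * e i)) hq
    rw [map_sub, map_mul, map_mul, eval_X, eval_X] at h3
    have h4 : o 1 + t * e 1 = 0 := by simp [ho, he]
    rw [h4, mul_zero, zero_mul, sub_eq_zero] at h3
    exact h3
  have c1' : (X 0 * X 1 : R2) ∣ aff o u e P - aff o u e P' :=
    cross_of_lines (fun t => by rw [hpt]; exact h1 _) (hax P P' hP)
  have c2' : (X 0 * X 1 : R2) ∣ aff o u e Q - aff o u e Q' :=
    cross_of_lines (fun t => by rw [hpt]; exact h2 _) (hax Q Q' hQ)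
  have hx1 : ∀ A B : R2, aeval ![A, B] (X 0 : R2) = A := by
    intro A B
    rw [aeval_X]
    rfl
  have key := eq_of_nonpos (S := X 0) (K := -1) (m := D) (kel_br (o := o) hdet hJ)
    (kel_br (o := o) hdet hJ') (kel_dvd c1') c2' (by norm_num) (by omega)
    (by
      rw [hx1]
      intro t ht
      rw [coeff_kel hdet] at ht
      exact deg_aff w t ht)
    (by
      rw [hx1]
      intro t ht
      rw [coeff_kel hdet] at ht
      exact deg_aff w' t ht)
    (by
      rw [hx1, coeff_kel hdet, coeff_aff w hsD (fun t ht htD => huniq t ht (by omega))]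
      exact mul_ne_zero hs (mul_ne_zero (pow_ne_zero _ hu0) (pow_ne_zero _ hu1)))
  exact hne ⟨kel_inj hdet key.1, aff_inj hdet key.2⟩

theorem exists_deg {P : R2} (hP : P ≠ 0) : ∃ D : ℕ,
    (∀ s : Fin 2 →₀ ℕ, coeff s P ≠ 0 → s 0 + s 1 ≤ D) ∧
    ∃ s : Fin 2 →₀ ℕ, coeff s P ≠ 0 ∧ s 0 + s 1 = D := by
  obtain ⟨s, hs⟩ := (MvPolynomial.ne_zero_iff).1 hP
  obtain ⟨k, hk, hmax⟩ := P.support.exists_max_image (fun s => s 0 + s 1)
    ⟨s, mem_support_iff.2 hs⟩
  exact ⟨k 0 + k 1, fun t ht => hmax t (mem_support_iff.2 ht), k, mem_support_iff.1 hk, rfl⟩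

theorem ne_zero_of_br {P Q : R2} (hJ : br P Q = 1) : P ≠ 0 := by
  rintro rfl
  unfold br at hJ
  simp at hJ

/-- cross and a third line -/
theorem third_line {P Q P' Q' : R2} (hJ : br P Q = 1) (hJ' : br P' Q' = 1)
    (hP : (X 0 * X 1 : R2) ∣ P - P') (hQ : (X 0 * X 1 : R2) ∣ Q - Q') {p u : Fin 2 → ℂ}
    (hu0 : u 0 ≠ 0) (hu1 : u 1 ≠ 0)
    (h1 : ∀ t : ℂ, eval (fun i => p i + t * u i) P = eval (fun i => p i + t * u i) P')
    (h2 : ∀ t : ℂ, eval (fun i => p i + t * u i) Q = eval (fun i => p i + t * u i) Q') :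
    P = P' ∧ Q = Q' := by
  obtain ⟨D, w, hD⟩ := exists_deg (ne_zero_of_br hJ)
  obtain ⟨D', w', hD'⟩ := exists_deg (ne_zero_of_br hJ')
  rcases le_total D' D with h | h
  · exact third_line_le hJ hJ' hP hQ hu0 hu1 h1 h2 w (fun s hs => (w' s hs).trans h) hD
  · have hP' : (X 0 * X 1 : R2) ∣ P' - P := by rw [← dvd_neg, neg_sub]; exact hP
    have hQ' : (X 0 * X 1 : R2) ∣ Q' - Q := by rw [← dvd_neg, neg_sub]; exact hQ
    have := third_line_le hJ' hJ hP' hQ' hu0 hu1 (fun t => (h1 t).symm) (fun t => (h2 t).symm)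
      w' (fun s hs => (w s hs).trans h) hD'
    exact ⟨this.1.symm, this.2.symm⟩

end Pool.Agent.KXS
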