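import Pool.Agent.KXS.Partner

/-!
# Slopes of pairs of Keller maps along the axes
-/

set_option autoImplicit false

open MvPolynomial

namespace Pool.Agent.KXS

theorem SlopeX.same {f f' : R2} {K : ℝ} {m n : ℕ} (hd : (X 0 * X 1 : R2) ∣ f - f')
    (h : SlopeX m K f) (h' : SlopeX n K f') : SlopeX m K f' := by
  obtain ⟨h1, h2, h3⟩ := h
  obtain ⟨k1, k2, k3⟩ := h'
  refine ⟨h1, by rw [← coeff_cross_eq hd]; exact h2, fun s hs => ?_⟩
  have h4 := h3 (Finsupp.single 0 n) (by rw [coeff_cross_eq hd]; exact k2)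
  rw [Finsupp.single_eq_same, Finsupp.single_eq_of_ne (by decide)] at h4
  simp only [Nat.cast_zero, mul_zero, add_zero] at h4
  have h5 := k3 s hs
  linarith

theorem SlopeX.other {f f' g' : R2} {κ : ℂ} {K : ℝ} {m n : ℕ} (hJ' : br g' f' = C κ)
    (hK : 0 ≤ K) (hd : (X 0 * X 1 : R2) ∣ f - f') (h : SlopeX m K f) (h' : SlopeX n K g') :
    SlopeX m K f' := by
  obtain ⟨h1, h2, h3⟩ := h
  refine ⟨h1, by rw [← coeff_cross_eq hd]; exact h2, ?_⟩
  refine Pool.Agent.KXS.partner hJ' hK h' h1 fun i hi => ?_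
  by_contra h4
  have h5 := h3 (Finsupp.single 0 i) (by rw [coeff_cross_eq hd]; exact h4)
  rw [Finsupp.single_eq_same, Finsupp.single_eq_of_ne (by decide)] at h5
  simp only [Nat.cast_zero, mul_zero, add_zero] at h5
  have h6 : i ≤ m := by exact_mod_cast h5
  omega

theorem SlopeX.mono {f : R2} {K K' : ℝ} {m : ℕ} (h : SlopeX m K f) (hK : K ≤ K') :
    SlopeX m K' f := by
  refine ⟨h.1, h.2.1, fun s hs => (h.2.2 s hs).trans ?_⟩
  have : K * (s 1 : ℝ) ≤ K' * s 1 := mul_le_mul_of_nonneg_right hK (by positivity)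
  linarith

/-- separate bounds for components of `F` and `G` give a common bound -/
theorem common {F G : Fin 2 → R2} {κ : ℂ} (hG : br (G 0) (G 1) = C κ)
    (hd : ∀ i, (X 0 * X 1 : R2) ∣ F i - G i) {K : ℝ} (hK : 0 ≤ K) {k l : Fin 2} {m n : ℕ}
    (h : SlopeX m K (F k)) (h' : SlopeX n K (G l)) : SlopeX m K (G k) := by
  have hG' : br (G 1) (G 0) = C (-κ) := by
    have : br (G 1) (G 0) = - br (G 0) (G 1) := by unfold br; ring
    rw [this, hG, C_neg]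
  by_cases hkl : k = l
  · subst hkl
    exact h.same (hd k) h'
  · fin_cases k
    · fin_cases l
      · exact absurd rfl hkl
      · exact h.other hG' hK (hd 0) h'
    · fin_cases l
      · exact h.other hG hK (hd 1) h'
      · exact absurd rfl hkl

theorem slopeX_sw {f : R2} {m : ℕ} {K : ℝ} : SlopeX m K (sw f) ↔
    1 ≤ m ∧ coeff (Finsupp.single 1 m) f ≠ 0 ∧ ∀ s : Fin 2 →₀ ℕ, coeff s f ≠ 0 →
      (s 1 : ℝ) ≤ m + K * s 0 := by
  have hs1 : swf (Finsupp.single 0 m) = Finsupp.single 1 m := by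
    unfold swf
    rw [Finsupp.mapDomain_single, Equiv.swap_apply_left]
  unfold SlopeX
  rw [coeff_sw, hs1]
  constructor
  · rintro ⟨h1, h2, h3⟩
    refine ⟨h1, h2, fun s hs => ?_⟩
    have := h3 (swf s) (by rw [coeff_sw, swf_swf]; exact hs)
    rwa [swf_zero, swf_one] at this
  · rintro ⟨h1, h2, h3⟩
    refine ⟨h1, h2, fun s hs => ?_⟩
    rw [coeff_sw] at hs
    have := h3 (swf s) hs
    rwa [swf_zero, swf_one] at this

theorem aeval_fin (F : Fin 2 → R2) (S : R2) : aeval ![F 0, F 1] S = aeval F S := by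
  have : (![F 0, F 1] : Fin 2 → R2) = F := by
    funext i
    fin_cases i <;> rfl
  rw [this]

/-- slope at most `K` at the vertex `m` of the axis of the variable `s` -/
def SlopeAt (s t : Fin 2) (m : ℕ) (K : ℝ) (f : MvPolynomial (Fin 2) ℂ) : Prop :=
  1 ≤ m ∧ coeff (Finsupp.single s m) f ≠ 0 ∧ ∀ e ∈ f.support, (e s : ℝ) ≤ m + K * e t

/-- slope at most `K` for the pair of maps `F`, `G` along the axis of the variable `s` -/
def AxisSlope (s t : Fin 2) (K : ℝ) (F G : Fin 2 → MvPolynomial (Fin 2) ℂ) : Prop :=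
  (∃ (S : MvPolynomial (Fin 2) ℂ) (m : ℕ), SlopeAt s t m K (aeval F S) ∧
    SlopeAt s t m K (aeval G S)) ∨
  (∃ (k l : Fin 2) (m n : ℕ), SlopeAt s t m K (F k) ∧ SlopeAt s t n K (G l))

theorem slopeAt_x {m : ℕ} {K : ℝ} {f : R2} : SlopeAt 0 1 m K f ↔ SlopeX m K f := by
  unfold SlopeAt SlopeX
  simp only [mem_support_iff]

theorem slopeAt_y {m : ℕ} {K : ℝ} {f : R2} : SlopeAt 1 0 m K f ↔ SlopeX m K (sw f) := by
  rw [slopeX_sw]
  unfold SlopeAt
  simp only [mem_support_iff]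

theorem common_x {F G : Fin 2 → R2} (hG : br (G 0) (G 1) = 1)
    (hd : ∀ i, (X 0 * X 1 : R2) ∣ F i - G i) {K : ℝ} (hK : 0 ≤ K) (h : AxisSlope 0 1 K F G) :
    ∃ (S : R2) (m : ℕ), SlopeX m K (aeval F S) ∧ SlopeX m K (aeval G S) := by
  rcases h with ⟨S, m, h1, h2⟩ | ⟨k, l, m, n, h1, h2⟩
  · exact ⟨S, m, slopeAt_x.1 h1, slopeAt_x.1 h2⟩
  · rw [slopeAt_x] at h1 h2
    refine ⟨X k, m, by rw [aeval_X]; exact h1, ?_⟩
    rw [aeval_X]
    exact common (κ := 1) (by rw [hG, C_1]) hd hK h1 h2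

theorem common_y {F G : Fin 2 → R2} (hG : br (G 0) (G 1) = 1)
    (hd : ∀ i, (X 0 * X 1 : R2) ∣ F i - G i) {K : ℝ} (hK : 0 ≤ K) (h : AxisSlope 1 0 K F G) :
    ∃ (S : R2) (m : ℕ), SlopeX m K (sw (aeval F S)) ∧ SlopeX m K (sw (aeval G S)) := by
  rcases h with ⟨S, m, h1, h2⟩ | ⟨k, l, m, n, h1, h2⟩
  · exact ⟨S, m, slopeAt_y.1 h1, slopeAt_y.1 h2⟩
  · rw [slopeAt_y] at h1 h2
    refine ⟨X k, m, by rw [aeval_X]; exact h1, ?_⟩
    rw [aeval_X]
    have hG' : br (sw (G 0)) (sw (G 1)) = C (-1) := by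
      have h3 := br_sw (G 0) (G 1)
      have h4 : br (sw (G 0)) (sw (G 1)) = - br (sw (G 1)) (sw (G 0)) := by unfold br; ring
      rw [h4, h3, hG, map_one, C_neg, C_1]
    refine common (F := fun i => sw (F i)) (G := fun i => sw (G i)) hG' (fun i => ?_) hK h1 h2
    have := sw_dvd (hd i)
    rwa [sw_cross, map_sub] at this

theorem AxisSlope.mono {s t : Fin 2} {K K' : ℝ} {F G : Fin 2 → R2} (h : AxisSlope s t K F G)
    (hK : K ≤ K') : AxisSlope s t K' F G := by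
  have key : ∀ (m : ℕ) (f : R2), SlopeAt s t m K f → SlopeAt s t m K' f := by
    intro m f h
    refine ⟨h.1, h.2.1, fun e he => (h.2.2 e he).trans ?_⟩
    have : K * (e t : ℝ) ≤ K' * e t := mul_le_mul_of_nonneg_right hK (by positivity)
    linarith
  rcases h with ⟨S, m, h1, h2⟩ | ⟨k, l, m, n, h1, h2⟩
  · exact Or.inl ⟨S, m, key _ _ h1, key _ _ h2⟩
  · exact Or.inr ⟨k, l, m, n, key _ _ h1, key _ _ h2⟩

/-- the slope theorem -/
theorem slope_thm {F G : Fin 2 → R2} {K : ℝ} (hF : br (F 0) (F 1) = 1) (hG : br (G 0) (G 1) = 1)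
    (hd : ∀ i, (X 0 * X 1 : R2) ∣ F i - G i) (hx : AxisSlope 0 1 K F G)
    (hy : K ≤ 0 ∨ ∃ L : ℝ, 0 ≤ L ∧ (K * L < 1 ∨ (K = 1 ∧ L = 1)) ∧ AxisSlope 1 0 L F G) :
    F = G := by
  have hfin : F 0 = G 0 ∧ F 1 = G 1 := by
    by_cases hK : K ≤ 0
    · obtain ⟨S, m, h1, h2⟩ := common_x hG hd le_rfl (hx.mono hK)
      rw [← aeval_fin] at h1 h2
      exact eq_of_nonpos hF hG (hd 0) (hd 1) le_rfl h1.1 h1.2.2 h2.2.2 h1.2.1
    · have hK' : 0 ≤ K := le_of_lt (not_le.1 hK)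
      rcases hy with hy | ⟨L, hL, hKL, hy⟩
      · exact absurd hy hK
      · obtain ⟨S, m, h1, h2⟩ := common_x hG hd hK' hx
        obtain ⟨T, n, h3, h4⟩ := common_y hG hd hL hy
        rw [← aeval_fin] at h1 h2 h3 h4
        rw [slopeX_sw] at h3 h4
        rcases hKL with hKL | ⟨rfl, rfl⟩
        · exact eq_of_slopes hF hG (hd 0) (hd 1) hK' hL hKL h1.1 h3.1 h1.2.2 h2.2.2 h1.2.1
            h3.2.2 h4.2.2 h3.2.1
        · exact eq_of_one hF hG (hd 0) (hd 1) h1.1 h3.1 h1.2.2 h2.2.2 h1.2.1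
            h3.2.2 h4.2.2 h3.2.1
  funext i
  fin_cases i
  · exact hfin.1
  · exact hfin.2

end Pool.Agent.KXS
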