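import Pool.Agent.KXS.Weight

/-!
# The slope lemma on one axis

Let `U, V` be polynomials with `U = x`, `V = 0` on `y = 0`, with Jacobian determinant `1` modulo
`y ^ M` and with `f (U, V) = f'` modulo `y ^ M`.  If `f (x, 0)` has degree `m ≥ 1` and all
monomials `x^i y^j` of `f` and of `f'` satisfy `i ≤ m + K j`, then the monomials of `U`, `V` with
`j < M` satisfy `i ≤ 1 + K j` and `i ≤ - K + K j`.
-/

set_option autoImplicit false

open MvPolynomial

namespace Pool.Agent.KXS

/-- restriction to the `x`-axis -/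
noncomputable def r0 : R2 →ₐ[ℂ] Polynomial ℂ := aeval ![Polynomial.X, 0]

theorem r0_coeff (p : R2) (i : ℕ) : (r0 p).coeff i = coeff (Finsupp.single 0 i) p := by
  classical
  induction p using MvPolynomial.induction_on' with
  | add p q hp hq => rw [map_add, Polynomial.coeff_add, hp, hq, coeff_add]
  | monomial s a =>
    unfold r0
    rw [aeval_monomial, Finsupp.prod_fintype _ _ (fun i => pow_zero _), Fin.prod_univ_two,
      coeff_monomial]
    simp only [Matrix.cons_val_zero, Matrix.cons_val_one]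
    rw [Polynomial.algebraMap_apply, Algebra.algebraMap_self_apply]
    by_cases h1 : s 1 = 0
    · rw [h1, pow_zero, mul_one, Polynomial.coeff_C_mul, Polynomial.coeff_X_pow]
      by_cases h0 : i = s 0
      · rw [if_pos h0, mul_one, if_pos]
        ext j
        fin_cases j
        · simp [h0]
        · simpa using h1
      · rw [if_neg h0, mul_zero, if_neg]
        intro h
        apply h0
        rw [h]; simp
    · rw [zero_pow h1, mul_zero, mul_zero, Polynomial.coeff_zero, if_neg]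
      intro h
      apply h1
      rw [h]; simp

theorem dvd_row {f : R2} (h : (X 1 : R2) ∣ f) (s : Fin 2 →₀ ℕ) (hs : s 1 = 0) :
    coeff s f = 0 :=
  coeff_of_dvd (M := 1) (by rw [pow_one]; exact h) s (by omega)

theorem r0_X1 : r0 (X 1 : R2) = 0 := by
  unfold r0
  rw [aeval_X]
  rfl

theorem r0_X0 : r0 (X 0 : R2) = Polynomial.X := by
  unfold r0
  rw [aeval_X]
  rfl

theorem r0_of_dvd {f : R2} (h : (X 1 : R2) ∣ f) : r0 f = 0 := by
  obtain ⟨g, rfl⟩ := h
  rw [map_mul, r0_X1, zero_mul]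

theorem r0_aeval (U V p : R2) : r0 (aeval ![U, V] p) = aeval ![r0 U, r0 V] p := by
  induction p using MvPolynomial.induction_on with
  | C c => simp
  | add p q hp hq => simp only [map_add, hp, hq]
  | mul_X p i hp =>
    simp only [map_mul, hp, aeval_X]
    congr 1
    fin_cases i <;> rfl

/-- step for `V` -/
theorem axis_V {K : ℝ} {N M : ℕ} {U V : R2} (hU : (X 1 : R2) ∣ U - X 0) (hV : (X 1 : R2) ∣ V)
    (hJ : (X 1 : R2) ^ M ∣ br U V - 1) (hN : N + 2 ≤ M)
    (tU : TW K (N + 1) 1 U) (tV : TW K (N + 1) (-K) V) : TW K (N + 2) (-K) V := by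
  have rV : ∀ s : Fin 2 →₀ ℕ, s 1 = 0 → coeff s V = 0 := dvd_row hV
  refine TW.of_pderiv1 ?_ rV
  have hB : TW K N (-K + K) (pderiv 1 V) := tV.pderiv1
  have hA : TW K (N + 1) 0 (pderiv 0 U - 1) := by
    have h1 := tU.pderiv0
    rw [sub_self] at h1
    have h2 : TW K (N + 1) 0 (1 : R2) := by simpa using TW.C K (N + 1) 1
    exact h1.sub h2
  have hA0 : ∀ s : Fin 2 →₀ ℕ, s 1 = 0 → coeff s (pderiv 0 U - 1) = 0 := by
    intro s hs
    have : pderiv 0 U - 1 = pderiv 0 (U - X 0) := by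
      rw [map_sub, pderiv_X_self]
    rw [this, coeff_pderiv, dvd_row hU, zero_mul]
    simpa using hs
  have hC : TW K (N + 1) (-K - 1) (pderiv 0 V) := tV.pderiv0
  have hC0 : ∀ s : Fin 2 →₀ ℕ, s 1 = 0 → coeff s (pderiv 0 V) = 0 := by
    intro s hs
    rw [coeff_pderiv, rV, zero_mul]
    simpa using hs
  have hD : TW K N (1 + K) (pderiv 1 U) := tU.pderiv1
  have h1 := hA.mul_row hB hA0
  have h2 := hC.mul_row hD hC0
  rw [show (0 : ℝ) + (-K + K) = -K + K by ring] at h1
  rw [show -K - 1 + (1 + K) = -K + K by ring] at h2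
  have h3 : TW K (N + 1) (-K + K) (1 : R2) := by
    have := TW.C K (N + 1) 1
    rw [show -K + K = (0 : ℝ) by ring]
    simpa using this
  refine TW.congr (M := M) ((h3.sub h1).add h2) ?_ (by omega)
  rw [← dvd_neg]
  refine hJ.trans (dvd_of_eq ?_)
  unfold br
  ring

/-- step for `U` -/
theorem axis_U {K : ℝ} {N m M : ℕ} {U V f f' : R2} (hm : 1 ≤ m)
    (hU : (X 1 : R2) ∣ U - X 0) (hV : (X 1 : R2) ∣ V)
    (hf : (X 1 : R2) ^ M ∣ aeval ![U, V] f - f') (hN : N + 2 ≤ M)
    (wf : ∀ s : Fin 2 →₀ ℕ, coeff s f ≠ 0 → (s 0 : ℝ) ≤ m + K * s 1)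
    (wf' : ∀ s : Fin 2 →₀ ℕ, coeff s f' ≠ 0 → (s 0 : ℝ) ≤ m + K * s 1)
    (hc : coeff (Finsupp.single 0 m) f ≠ 0)
    (tU : TW K (N + 1) 1 U) (tV : TW K (N + 2) (-K) V) : TW K (N + 2) 1 U := by
  set e : Fin 2 →₀ ℕ := Finsupp.single 1 (N + 1) with he
  set U₁ : R2 := modMonomial U e with hU₁
  set U₂ : R2 := divMonomial U e with hU₂
  set q : R2 := X 1 ^ (N + 1) with hq
  have hqm : q = monomial e 1 := by rw [hq, X_pow_eq_monomial]
  have hdec : U = U₁ + q * U₂ := by
    have := modMonomial_add_divMonomial U e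
    rw [hqm]
    exact this.symm
  have hle : ∀ s : Fin 2 →₀ ℕ, e ≤ s ↔ N + 1 ≤ s 1 := by
    intro s
    rw [he, Finsupp.single_le_iff]
  have tU₁ : TW K (N + 2) 1 U₁ := by
    intro s hs h0
    by_cases h : e ≤ s
    · rw [hU₁] at h0; exact absurd (coeff_modMonomial_of_le U h) h0
    · rw [hU₁, coeff_modMonomial_of_not_le U h] at h0
      exact tU s (by rw [hle] at h; omega) h0
  have hqq : (X 1 : R2) ^ (N + 2) ∣ q ^ 2 := by
    rw [hq, ← pow_mul]
    exact pow_dvd_pow _ (by omega)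
  have htay := hqq.trans (taylor q U₁ V (q * U₂) 0 (dvd_mul_right q U₂) (dvd_zero q) f)
  rw [← hdec, add_zero, zero_mul, add_zero] at htay
  set G : R2 := aeval ![U₁, V] (pderiv 0 f) with hG
  have hW : TW K (N + 2) m (q * (U₂ * G)) := by
    have h1 : TW K (N + 2) m (aeval ![U₁, V] f) := TW.comp tU₁ tV wf
    have h2 : TW K (N + 2) m f' := fun s _ h0 => wf' s h0
    refine TW.congr (M := N + 2) (h2.sub h1) ?_ le_rfl
    have h3 := ((pow_dvd_pow (X 1 : R2) hN).trans hf)
    have h4 := dvd_sub htay h3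
    refine h4.trans (dvd_of_eq ?_)
    ring
  have hr : ∀ i : ℕ, (r0 (U₂ * G)).coeff i ≠ 0 → (i : ℝ) ≤ m + K * ((N + 1 : ℕ) : ℝ) := by
    intro i hi
    rw [r0_coeff] at hi
    have h1 := hW (e + Finsupp.single 0 i) (by
      rw [Finsupp.add_apply, he, Finsupp.single_eq_same,
        Finsupp.single_eq_of_ne (by decide)]; omega) (by
      rw [hqm, coeff_monomial_mul, one_mul]; exact hi)
    rw [Finsupp.add_apply, Finsupp.add_apply, he, Finsupp.single_eq_same, Finsupp.single_eq_same,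
      Finsupp.single_eq_of_ne (by decide), Finsupp.single_eq_of_ne (by decide), zero_add,
      add_zero] at h1
    exact h1
  have hrU₁ : r0 U₁ = Polynomial.X := by
    have h1 : r0 (U - X 0) = 0 := r0_of_dvd hU
    rw [map_sub, sub_eq_zero, r0_X0] at h1
    rw [← h1, hdec, map_add, map_mul, hq, map_pow, r0_X1, zero_pow (Nat.succ_ne_zero N),
      zero_mul, add_zero]
  have hrG : r0 G = r0 (pderiv 0 f) := by
    rw [hG, r0_aeval, hrU₁, r0_of_dvd hV]
    rfl
  have hGdeg : (r0 G).natDegree ≤ m - 1 := by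
    rw [Polynomial.natDegree_le_iff_coeff_eq_zero]
    intro i hi
    by_contra h0
    rw [hrG, r0_coeff, coeff_pderiv] at h0
    have h1 := wf _ (left_ne_zero_of_mul h0)
    simp only [Finsupp.add_apply, Finsupp.single_eq_same] at h1
    rw [Finsupp.single_eq_of_ne (by decide), Finsupp.single_eq_of_ne (by decide)] at h1
    have h2 : ((i + 1 : ℕ) : ℝ) ≤ m := by
      refine h1.trans ?_
      simp
    have h3 : i + 1 ≤ m := by exact_mod_cast h2
    omega
  have hGlc : (r0 G).coeff (m - 1) ≠ 0 := by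
    rw [hrG, r0_coeff, coeff_pderiv, ← Finsupp.single_add, Nat.sub_add_cancel hm]
    exact mul_ne_zero hc (Nat.cast_add_one_ne_zero _)
  have hU₂deg : ∀ i : ℕ, (r0 U₂).coeff i ≠ 0 → (i : ℝ) ≤ 1 + K * ((N + 1 : ℕ) : ℝ) := by
    intro i hi
    have hne : r0 U₂ ≠ 0 := fun h => hi (by rw [h, Polynomial.coeff_zero])
    have h1 := hr ((r0 U₂).natDegree + (m - 1)) (by
      rw [map_mul, Polynomial.coeff_mul_add_eq_of_natDegree_le le_rfl hGdeg]
      refine mul_ne_zero ?_ hGlc
      rw [Polynomial.coeff_natDegree, Polynomial.leadingCoeff_ne_zero]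
      exact hne)
    have h2 : i ≤ (r0 U₂).natDegree := Polynomial.le_natDegree_of_ne_zero hi
    have h3 : (i : ℝ) ≤ (r0 U₂).natDegree := by exact_mod_cast h2
    rw [Nat.cast_add, Nat.cast_sub hm] at h1
    push_cast at h1 ⊢
    linarith
  intro s hs h0
  by_cases h : s 1 < N + 1
  · exact tU s h h0
  · have hs1 : s 1 = N + 1 := by omega
    have hes : e + Finsupp.single 0 (s 0) = s := by
      ext j
      fin_cases j
      · simp [he]
      · simp [he, hs1]
    have h1 : coeff s U = coeff (Finsupp.single 0 (s 0)) U₂ := by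
      rw [hU₂, coeff_divMonomial, hes]
    rw [h1, ← r0_coeff] at h0
    have h2 := hU₂deg _ h0
    rw [hs1]
    exact h2

theorem axis {K : ℝ} {m M : ℕ} {U V f f' : R2} (hm : 1 ≤ m)
    (hU : (X 1 : R2) ∣ U - X 0) (hV : (X 1 : R2) ∣ V)
    (hJ : (X 1 : R2) ^ M ∣ br U V - 1)
    (hf : (X 1 : R2) ^ M ∣ aeval ![U, V] f - f')
    (wf : ∀ s : Fin 2 →₀ ℕ, coeff s f ≠ 0 → (s 0 : ℝ) ≤ m + K * s 1)
    (wf' : ∀ s : Fin 2 →₀ ℕ, coeff s f' ≠ 0 → (s 0 : ℝ) ≤ m + K * s 1)
    (hc : coeff (Finsupp.single 0 m) f ≠ 0) (N : ℕ) (hN : N + 1 ≤ M) :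
    TW K (N + 1) 1 U ∧ TW K (N + 1) (-K) V := by
  induction N with
  | zero =>
    constructor
    · intro s hs h0
      have hs0 : s 1 = 0 := by omega
      have h1 := dvd_row hU s hs0
      rw [coeff_sub, sub_eq_zero] at h1
      rw [h1, coeff_X] at h0
      have h2 : Finsupp.single 0 1 = s := by
        by_contra h
        exact h0 (if_neg h)
      rw [← h2]
      simp
    · intro s hs h0
      exact absurd (dvd_row hV s (by omega)) h0
  | succ N ih =>
    obtain ⟨h1, h2⟩ := ih (by omega)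
    have h3 := axis_V hU hV hJ (by omega) h1 h2
    exact ⟨axis_U hm hU hV hf (by omega) wf wf' hc h1 h3, h3⟩

end Pool.Agent.KXS
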