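import Mathlib

/-!
# Plane polynomial maps: Taylor formula, chain rule and the Newton iteration

For Keller maps `F = (P, Q)`, `G = (P', Q')` of the plane which agree on a curve `e = 0` and for
every `M` there are polynomials `X, Y` congruent to the coordinates modulo `e` with
`G = F (X, Y)` modulo `e ^ (M + 1)`.
-/

set_option autoImplicit false

open MvPolynomial

namespace Pool.Agent.KXS

/-- polynomials in two variables -/
abbrev R2 := MvPolynomial (Fin 2) ℂ

/-- Jacobian determinant (Poisson bracket) -/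
noncomputable def br (P Q : R2) : R2 := pderiv 0 P * pderiv 1 Q - pderiv 1 P * pderiv 0 Q

/-- Taylor formula to second order -/
theorem taylor (d X Y h k : R2) (hh : d ∣ h) (hk : d ∣ k) (P : R2) :
    d ^ 2 ∣ aeval ![X + h, Y + k] P
      - (aeval ![X, Y] P + h * aeval ![X, Y] (pderiv 0 P) + k * aeval ![X, Y] (pderiv 1 P)) := by
  induction P using MvPolynomial.induction_on with
  | C a => simp
  | add p q hp hq =>
    have h1 := dvd_add hp hq
    refine h1.trans (dvd_of_eq ?_)
    simp only [map_add]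
    ring
  | mul_X p i hp =>
    obtain ⟨a, rfl⟩ := hh
    obtain ⟨b, rfl⟩ := hk
    obtain ⟨r, hr⟩ := hp
    have hr' : aeval ![X + d * a, Y + d * b] p = aeval ![X, Y] p
        + (d * a) * aeval ![X, Y] (pderiv 0 p) + (d * b) * aeval ![X, Y] (pderiv 1 p)
        + d ^ 2 * r := by
      rw [← hr]; ring
    fin_cases i
    · refine ⟨r * (X + d * a) + a * (a * aeval ![X, Y] (pderiv 0 p)
        + b * aeval ![X, Y] (pderiv 1 p)), ?_⟩
      simp only [pderiv_mul, map_mul, map_add, hr', aeval_X, pderiv_X, Fin.mk_zero,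
        Matrix.cons_val_zero, Pi.single_eq_same, map_one]
      rw [show (Pi.single (1 : Fin 2) (1 : R2) : Fin 2 → R2) 0 = 0 from by simp]
      simp only [map_zero]
      ring
    · refine ⟨r * (Y + d * b) + b * (a * aeval ![X, Y] (pderiv 0 p)
        + b * aeval ![X, Y] (pderiv 1 p)), ?_⟩
      simp only [pderiv_mul, map_mul, map_add, hr', aeval_X, pderiv_X, Fin.mk_one,
        Matrix.cons_val_one, Matrix.cons_val_zero, Pi.single_eq_same, map_one]
      rw [show (Pi.single (0 : Fin 2) (1 : R2) : Fin 2 → R2) 1 = 0 from by simp]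
      simp only [map_zero]
      ring

/-- Chain rule -/
theorem chain (X Y P : R2) (i : Fin 2) :
    pderiv i (aeval ![X, Y] P) = aeval ![X, Y] (pderiv 0 P) * pderiv i X
      + aeval ![X, Y] (pderiv 1 P) * pderiv i Y := by
  induction P using MvPolynomial.induction_on with
  | C a => simp
  | add p q hp hq =>
    simp only [map_add, hp, hq]
    ring
  | mul_X p j hp =>
    fin_cases j
    · simp only [pderiv_mul, map_mul, map_add, hp, aeval_X, pderiv_X, Fin.mk_zero,
        Matrix.cons_val_zero, Pi.single_eq_same, map_one]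
      rw [show (Pi.single (1 : Fin 2) (1 : R2) : Fin 2 → R2) 0 = 0 from by simp]
      simp only [map_zero]
      ring
    · simp only [pderiv_mul, map_mul, map_add, hp, aeval_X, pderiv_X, Fin.mk_one,
        Matrix.cons_val_one, Matrix.cons_val_zero, Pi.single_eq_same, map_one]
      rw [show (Pi.single (0 : Fin 2) (1 : R2) : Fin 2 → R2) 1 = 0 from by simp]
      simp only [map_zero]
      ring

theorem br_comp (X Y P Q : R2) :
    br (aeval ![X, Y] P) (aeval ![X, Y] Q) = aeval ![X, Y] (br P Q) * br X Y := by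
  unfold br
  simp only [chain, map_sub, map_mul]
  ring

/-- a divisor `e ^ (M + 1)` of a polynomial gives a divisor `e ^ M` of the derivatives -/
theorem dvd_pderiv {e f : R2} {M : ℕ} (h : e ^ (M + 1) ∣ f) (i : Fin 2) :
    e ^ M ∣ pderiv i f := by
  obtain ⟨r, rfl⟩ := h
  rw [pderiv_mul, pderiv_pow]
  refine dvd_add ?_ ?_
  · refine Dvd.dvd.mul_right ?_ _
    refine Dvd.dvd.mul_right ?_ _
    refine Dvd.dvd.mul_left ?_ _
    simp
  · exact Dvd.dvd.mul_right (pow_dvd_pow e (Nat.le_succ M)) _

theorem br_congr {e f f' g g' : R2} {M : ℕ} (hf : e ^ (M + 1) ∣ f - f')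
    (hg : e ^ (M + 1) ∣ g - g') : e ^ M ∣ br f g - br f' g' := by
  have h1 := fun i => dvd_pderiv hf i
  have h2 := fun i => dvd_pderiv hg i
  have h3 : br f g - br f' g' = pderiv 0 (f - f') * pderiv 1 g + pderiv 0 f' * pderiv 1 (g - g')
      - (pderiv 1 (f - f') * pderiv 0 g + pderiv 1 f' * pderiv 0 (g - g')) := by
    unfold br
    simp only [map_sub]
    ring
  rw [h3]
  refine dvd_sub (dvd_add ?_ ?_) (dvd_add ?_ ?_)
  · exact Dvd.dvd.mul_right (h1 0) _
  · exact Dvd.dvd.mul_left (h2 1) _
  · exact Dvd.dvd.mul_right (h1 1) _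
  · exact Dvd.dvd.mul_left (h2 0) _

/-- congruences and substitution in a polynomial -/
theorem aeval_congr {e a a' b b' : R2} (ha : e ∣ a - a') (hb : e ∣ b - b') (S : R2) :
    e ∣ aeval ![a, b] S - aeval ![a', b'] S := by
  induction S using MvPolynomial.induction_on with
  | C c => simp
  | add p q hp hq =>
    have h1 := dvd_add hp hq
    refine h1.trans (dvd_of_eq ?_)
    simp only [map_add]
    ring
  | mul_X p i hp =>
    have h0 : e ∣ (![a, b] : Fin 2 → R2) i - (![a', b'] : Fin 2 → R2) i := by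
      fin_cases i
      · exact ha
      · exact hb
    have h1 : aeval ![a, b] (p * X i) - aeval ![a', b'] (p * X i)
        = (aeval ![a, b] p - aeval ![a', b'] p) * (![a, b] : Fin 2 → R2) i
          + aeval ![a', b'] p * ((![a, b] : Fin 2 → R2) i - (![a', b'] : Fin 2 → R2) i) := by
      simp only [map_mul, aeval_X]
      ring
    rw [h1]
    exact dvd_add (Dvd.dvd.mul_right hp _) (Dvd.dvd.mul_left h0 _)

theorem aeval_self (P : R2) : aeval ![(X 0 : R2), X 1] P = P := by
  have h : (![(X 0 : R2), X 1] : Fin 2 → R2) = X := by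
    funext i
    fin_cases i <;> rfl
  rw [h, aeval_X_left_apply]

/-- Newton iteration -/
theorem newton (e P Q P' Q' : R2) (hJ : br P Q = 1) (hP : e ∣ P - P') (hQ : e ∣ Q - Q') (M : ℕ) :
    ∃ U V : R2, e ∣ U - X 0 ∧ e ∣ V - X 1 ∧
      e ^ (M + 1) ∣ aeval ![U, V] P - P' ∧ e ^ (M + 1) ∣ aeval ![U, V] Q - Q' := by
  induction M with
  | zero =>
    refine ⟨X 0, X 1, by simp, by simp, ?_, ?_⟩
    · rw [aeval_self]; simpa using hP
    · rw [aeval_self]; simpa using hQ
  | succ M ih =>
    obtain ⟨U, V, hU, hV, h1, h2⟩ := ih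
    have hJ' : aeval ![U, V] (br P Q) = 1 := by rw [hJ, map_one]
    unfold br at hJ'
    simp only [map_sub, map_mul] at hJ'
    set e1 := aeval ![U, V] P - P' with he1
    set e2 := aeval ![U, V] Q - Q' with he2
    set Px := aeval ![U, V] (pderiv 0 P) with hPx
    set Py := aeval ![U, V] (pderiv 1 P) with hPy
    set Qx := aeval ![U, V] (pderiv 0 Q) with hQx
    set Qy := aeval ![U, V] (pderiv 1 Q) with hQy
    set h : R2 := -(Qy * e1 - Py * e2) with hh
    set k : R2 := -(Px * e2 - Qx * e1) with hk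
    have dh : e ^ (M + 1) ∣ h := by
      rw [hh, dvd_neg]
      exact dvd_sub (Dvd.dvd.mul_left h1 _) (Dvd.dvd.mul_left h2 _)
    have dk : e ^ (M + 1) ∣ k := by
      rw [hk, dvd_neg]
      exact dvd_sub (Dvd.dvd.mul_left h2 _) (Dvd.dvd.mul_left h1 _)
    have he : e ∣ e ^ (M + 1) := dvd_pow_self e (Nat.succ_ne_zero M)
    have hpow : e ^ (M + 1 + 1) ∣ (e ^ (M + 1)) ^ 2 := by
      rw [← pow_mul]
      exact pow_dvd_pow e (by omega)
    refine ⟨U + h, V + k, ?_, ?_, ?_, ?_⟩
    · have : U + h - X 0 = (U - X 0) + h := by ring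
      rw [this]
      exact dvd_add hU (he.trans dh)
    · have : V + k - X 1 = (V - X 1) + k := by ring
      rw [this]
      exact dvd_add hV (he.trans dk)
    · have ht := hpow.trans (taylor (e ^ (M + 1)) U V h k dh dk P)
      refine ht.trans (dvd_of_eq ?_)
      have : aeval ![U, V] P = e1 + P' := by rw [he1]; ring
      rw [← hPx, ← hPy, this, hh, hk]
      linear_combination e1 * hJ'
    · have ht := hpow.trans (taylor (e ^ (M + 1)) U V h k dh dk Q)
      refine ht.trans (dvd_of_eq ?_)
      have : aeval ![U, V] Q = e2 + Q' := by rw [he2]; ring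
      rw [← hQx, ← hQy, this, hh, hk]
      linear_combination e2 * hJ'

/-- the bracket of the change of coordinates -/
theorem newton_br (e P Q P' Q' U V : R2) (hJ : br P Q = 1) (hJ' : br P' Q' = 1) (M : ℕ)
    (h1 : e ^ (M + 1) ∣ aeval ![U, V] P - P') (h2 : e ^ (M + 1) ∣ aeval ![U, V] Q - Q') :
    e ^ M ∣ br U V - 1 := by
  have h := br_congr h1 h2
  rw [br_comp, hJ, hJ', map_one, one_mul] at h
  exact h

theorem aeval_aeval (U V P Q S : R2) :
    aeval ![U, V] (aeval ![P, Q] S) = aeval ![aeval ![U, V] P, aeval ![U, V] Q] S := by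
  induction S using MvPolynomial.induction_on with
  | C c => simp
  | add p q hp hq => simp only [map_add, hp, hq]
  | mul_X p i hp =>
    simp only [map_mul, hp, aeval_X]
    congr 1
    fin_cases i <;> rfl

/-- target side functions -/
theorem newton_fun (e P Q P' Q' U V : R2) (M : ℕ)
    (h1 : e ^ (M + 1) ∣ aeval ![U, V] P - P') (h2 : e ^ (M + 1) ∣ aeval ![U, V] Q - Q') (S : R2) :
    e ^ (M + 1) ∣ aeval ![U, V] (aeval ![P, Q] S) - aeval ![P', Q'] S := by
  rw [aeval_aeval]
  exact aeval_congr h1 h2 S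

end Pool.Agent.KXS
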