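import Pool.Agent.KXS.Axis
import Pool.Agent.KellerCross.Final

/-!
# Slopes on both axes
-/

set_option autoImplicit false

open MvPolynomial

namespace Pool.Agent.KXS

/-- exchange of the two coordinates -/
noncomputable def sw : R2 →ₐ[ℂ] R2 := rename (Equiv.swap (0 : Fin 2) 1)

theorem swap_inj : Function.Injective (Equiv.swap (0 : Fin 2) 1) := (Equiv.swap _ _).injective

/-- exchange of the two exponents -/
noncomputable def swf (s : Fin 2 →₀ ℕ) : Fin 2 →₀ ℕ := s.mapDomain (Equiv.swap (0 : Fin 2) 1)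

theorem swf_zero (s : Fin 2 →₀ ℕ) : swf s 0 = s 1 := by
  have h := Finsupp.mapDomain_apply swap_inj s 1
  rw [Equiv.swap_apply_right] at h
  exact h

theorem swf_one (s : Fin 2 →₀ ℕ) : swf s 1 = s 0 := by
  have h := Finsupp.mapDomain_apply swap_inj s 0
  rw [Equiv.swap_apply_left] at h
  exact h

theorem swf_swf (s : Fin 2 →₀ ℕ) : swf (swf s) = s := by
  ext j
  fin_cases j
  · show swf (swf s) 0 = s 0
    rw [swf_zero, swf_one]
  · show swf (swf s) 1 = s 1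
    rw [swf_one, swf_zero]

theorem coeff_sw (s : Fin 2 →₀ ℕ) (p : R2) : coeff s (sw p) = coeff (swf s) p := by
  have h := coeff_rename_mapDomain (Equiv.swap (0 : Fin 2) 1) swap_inj p (swf s)
  have h2 : Finsupp.mapDomain (Equiv.swap (0 : Fin 2) 1) (swf s) = s := swf_swf s
  rw [h2] at h
  exact h

theorem sw_X0 : sw (X 0) = X 1 := by
  unfold sw
  rw [rename_X, Equiv.swap_apply_left]

theorem sw_X1 : sw (X 1) = X 0 := by
  unfold sw
  rw [rename_X, Equiv.swap_apply_right]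

theorem pderiv0_sw (p : R2) : pderiv 0 (sw p) = sw (pderiv 1 p) := by
  have h := pderiv_rename swap_inj (1 : Fin 2) p
  rw [Equiv.swap_apply_right] at h
  exact h

theorem pderiv1_sw (p : R2) : pderiv 1 (sw p) = sw (pderiv 0 p) := by
  have h := pderiv_rename swap_inj (0 : Fin 2) p
  rw [Equiv.swap_apply_left] at h
  exact h

theorem br_sw (U V : R2) : br (sw V) (sw U) = sw (br U V) := by
  unfold br
  rw [pderiv0_sw, pderiv0_sw, pderiv1_sw, pderiv1_sw, map_sub, map_mul, map_mul]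
  ring

theorem sw_aeval (U V p : R2) : sw (aeval ![U, V] p) = aeval ![sw V, sw U] (sw p) := by
  induction p using MvPolynomial.induction_on with
  | C c => simp
  | add p q hp hq => simp only [map_add, hp, hq]
  | mul_X p i hp =>
    simp only [map_mul, hp, aeval_X]
    congr 1
    fin_cases i
    · show sw U = aeval ![sw V, sw U] (sw (X 0))
      rw [sw_X0, aeval_X]
      rfl
    · show sw V = aeval ![sw V, sw U] (sw (X 1))
      rw [sw_X1, aeval_X]
      rfl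

theorem cross_dvd_iff (f : R2) : (X 0 * X 1 : R2) ∣ f ↔
    ∀ s : Fin 2 →₀ ℕ, s 0 = 0 ∨ s 1 = 0 → coeff s f = 0 := by
  have hm : (X 0 * X 1 : R2) = monomial (Finsupp.single 0 1 + Finsupp.single 1 1) 1 := by
    rw [X, X, monomial_mul, one_mul]
  rw [hm, monomial_one_dvd_iff_modMonomial_eq_zero]
  have hle : ∀ s : Fin 2 →₀ ℕ, (Finsupp.single 0 1 + Finsupp.single 1 1 : Fin 2 →₀ ℕ) ≤ s ↔
      (s 0 ≠ 0 ∧ s 1 ≠ 0) := by
    intro s
    constructor
    · intro h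
      have h0 := h 0
      have h1 := h 1
      simp only [Finsupp.add_apply, Finsupp.single_eq_same] at h0 h1
      omega
    · rintro ⟨h0, h1⟩ j
      fin_cases j
      · simp only [Fin.zero_eta, Finsupp.add_apply, Finsupp.single_eq_same]
        rw [Finsupp.single_eq_of_ne (by decide)]
        omega
      · simp only [Fin.mk_one, Finsupp.add_apply, Finsupp.single_eq_same]
        rw [Finsupp.single_eq_of_ne (by decide)]
        omega
  constructor
  · intro h s hs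
    have h1 : coeff s (modMonomial f (Finsupp.single 0 1 + Finsupp.single 1 1)) = 0 := by
      rw [h, coeff_zero]
    rwa [coeff_modMonomial_of_not_le] at h1
    rw [hle]
    rintro ⟨h2, h3⟩
    rcases hs with h | h
    · exact h2 h
    · exact h3 h
  · intro h
    ext s
    rw [coeff_zero]
    by_cases h1 : (Finsupp.single 0 1 + Finsupp.single 1 1 : Fin 2 →₀ ℕ) ≤ s
    · exact coeff_modMonomial_of_le f h1
    · rw [coeff_modMonomial_of_not_le f h1]
      apply h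
      rw [hle] at h1
      by_contra h2
      push Not at h2
      exact h1 ⟨h2.1, h2.2⟩

/-- all monomials `x^i y^j` with `i, j < M` are absent -/
def TT (M : ℕ) (f : R2) : Prop := ∀ s : Fin 2 →₀ ℕ, s 0 < M → s 1 < M → coeff s f = 0

theorem TT.mul {M : ℕ} {f : R2} (hf : TT M f) (g : R2) : TT M (f * g) := by
  intro s h0 h1
  by_contra hne
  obtain ⟨a, b, rfl, ha, hb⟩ := exists_coeff_mul hne
  apply ha
  rw [Finsupp.add_apply] at h0 h1
  exact hf a (by omega) (by omega)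

theorem TT.add {M : ℕ} {f g : R2} (hf : TT M f) (hg : TT M g) : TT M (f + g) := by
  intro s h0 h1
  rw [coeff_add, hf s h0 h1, hg s h0 h1, add_zero]

theorem TT.comp {M : ℕ} {U V : R2} (hU : TT M (U - X 0)) (hV : TT M (V - X 1)) (p : R2) :
    TT M (aeval ![U, V] p - p) := by
  induction p using MvPolynomial.induction_on with
  | C c =>
    intro s _ _
    simp
  | add p q hp hq =>
    have h := hp.add hq
    have e : aeval ![U, V] (p + q) - (p + q)
        = (aeval ![U, V] p - p) + (aeval ![U, V] q - q) := by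
      rw [map_add]; ring
    rw [e]
    exact h
  | mul_X p i hp =>
    have h0 : TT M ((![U, V] : Fin 2 → R2) i - X i) := by
      fin_cases i
      · exact hU
      · exact hV
    have e : aeval ![U, V] (p * X i) - p * X i
        = (aeval ![U, V] p - p) * (![U, V] : Fin 2 → R2) i
          + ((![U, V] : Fin 2 → R2) i - X i) * p := by
      rw [map_mul, aeval_X]; ring
    rw [e]
    exact (hp.mul _).add (h0.mul _)

theorem TT.of_dvd {M : ℕ} {f : R2} (h : (X 0 * X 1 : R2) ^ (M + 1) ∣ f) : TT (M + 1) f := by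
  intro s _ h1
  apply coeff_of_dvd (M := M + 1) _ s h1
  refine dvd_trans ?_ h
  rw [mul_pow]
  exact dvd_mul_left _ _

theorem eq_of_TT {f : R2} (h : ∀ M : ℕ, TT (M + 1) f) : f = 0 := by
  ext s
  rw [coeff_zero]
  exact h (s 0 + s 1) s (by omega) (by omega)

/-- reduction to the vanishing of the boxes -/
theorem eq_of_box {P Q P' Q' : R2} (hJ : br P Q = 1)
    (hP : (X 0 * X 1 : R2) ∣ P - P') (hQ : (X 0 * X 1 : R2) ∣ Q - Q')
    (h : ∀ (M : ℕ) (U V : R2), (X 0 * X 1 : R2) ∣ U - X 0 → (X 0 * X 1 : R2) ∣ V - X 1 →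
      (X 0 * X 1 : R2) ^ (M + 2) ∣ aeval ![U, V] P - P' →
      (X 0 * X 1 : R2) ^ (M + 2) ∣ aeval ![U, V] Q - Q' →
      TT (M + 1) (U - X 0) ∧ TT (M + 1) (V - X 1)) : P = P' ∧ Q = Q' := by
  have key : ∀ M : ℕ, TT (M + 1) (P - P') ∧ TT (M + 1) (Q - Q') := by
    intro M
    obtain ⟨U, V, hU, hV, h1, h2⟩ := newton (X 0 * X 1) P Q P' Q' hJ hP hQ (M + 1)
    obtain ⟨tU, tV⟩ := h M U V hU hV h1 h2
    have aux : ∀ p p' : R2, (X 0 * X 1 : R2) ^ (M + 2) ∣ aeval ![U, V] p - p' →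
        TT (M + 1) (p - p') := by
      intro p p' hp
      have e1 := TT.comp tU tV p
      have e2 : TT (M + 1) (aeval ![U, V] p - p') :=
        TT.of_dvd ((pow_dvd_pow _ (by omega)).trans hp)
      intro s h0 h1
      have e3 := e1 s h0 h1
      have e4 := e2 s h0 h1
      rw [coeff_sub] at e3 e4 ⊢
      linear_combination e4 - e3
    exact ⟨aux P P' h1, aux Q Q' h2⟩
  constructor
  · exact sub_eq_zero.1 (eq_of_TT fun M => (key M).1)
  · exact sub_eq_zero.1 (eq_of_TT fun M => (key M).2)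

/-- slopes of the change of coordinates along the `x`-axis -/
theorem slopes_x {P Q P' Q' U V S : R2} {K : ℝ} {m M : ℕ} (hJ : br P Q = 1) (hJ' : br P' Q' = 1)
    (hU : (X 0 * X 1 : R2) ∣ U - X 0) (hV : (X 0 * X 1 : R2) ∣ V - X 1)
    (h1 : (X 0 * X 1 : R2) ^ (M + 2) ∣ aeval ![U, V] P - P')
    (h2 : (X 0 * X 1 : R2) ^ (M + 2) ∣ aeval ![U, V] Q - Q')
    (hm : 1 ≤ m)
    (wf : ∀ s : Fin 2 →₀ ℕ, coeff s (aeval ![P, Q] S) ≠ 0 → (s 0 : ℝ) ≤ m + K * s 1)
    (wf' : ∀ s : Fin 2 →₀ ℕ, coeff s (aeval ![P', Q'] S) ≠ 0 → (s 0 : ℝ) ≤ m + K * s 1)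
    (hc : coeff (Finsupp.single 0 m) (aeval ![P, Q] S) ≠ 0) :
    TW K (M + 1) 1 U ∧ TW K (M + 1) (-K) V := by
  have hd : (X 1 : R2) ∣ X 0 * X 1 := dvd_mul_left _ _
  have hdp : ∀ k : ℕ, (X 1 : R2) ^ k ∣ (X 0 * X 1) ^ k := fun k => pow_dvd_pow_of_dvd hd k
  have hV' : (X 1 : R2) ∣ V := by
    have := dvd_add (hd.trans hV) (dvd_refl (X 1 : R2))
    rwa [sub_add_cancel] at this
  refine axis (M := M + 1) hm (hd.trans hU) hV' ?_ ?_ wf wf' hc M le_rfl
  · exact (hdp _).trans (newton_br _ P Q P' Q' U V hJ hJ' (M + 1) h1 h2)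
  · have := (hdp _).trans (newton_fun _ P Q P' Q' U V (M + 1) h1 h2 S)
    exact (pow_dvd_pow _ (by omega)).trans this

theorem sw_dvd {a b : R2} (h : a ∣ b) : sw a ∣ sw b := map_dvd sw h

theorem sw_cross : sw (X 0 * X 1) = X 0 * X 1 := by
  rw [map_mul, sw_X0, sw_X1, mul_comm]

/-- slopes of the change of coordinates along the `y`-axis -/
theorem slopes_y {P Q P' Q' U V T : R2} {L : ℝ} {n M : ℕ} (hJ : br P Q = 1) (hJ' : br P' Q' = 1)
    (hU : (X 0 * X 1 : R2) ∣ U - X 0) (hV : (X 0 * X 1 : R2) ∣ V - X 1)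
    (h1 : (X 0 * X 1 : R2) ^ (M + 2) ∣ aeval ![U, V] P - P')
    (h2 : (X 0 * X 1 : R2) ^ (M + 2) ∣ aeval ![U, V] Q - Q')
    (hn : 1 ≤ n)
    (wg : ∀ s : Fin 2 →₀ ℕ, coeff s (aeval ![P, Q] T) ≠ 0 → (s 1 : ℝ) ≤ n + L * s 0)
    (wg' : ∀ s : Fin 2 →₀ ℕ, coeff s (aeval ![P', Q'] T) ≠ 0 → (s 1 : ℝ) ≤ n + L * s 0)
    (hc : coeff (Finsupp.single 1 n) (aeval ![P, Q] T) ≠ 0) :
    (∀ s : Fin 2 →₀ ℕ, s 0 < M + 1 → coeff s U ≠ 0 → (s 1 : ℝ) ≤ -L + L * s 0) ∧
    (∀ s : Fin 2 →₀ ℕ, s 0 < M + 1 → coeff s V ≠ 0 → (s 1 : ℝ) ≤ 1 + L * s 0) := by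
  have e : ∀ p : R2, aeval ![sw V, sw U] (sw p) = sw (aeval ![U, V] p) := fun p =>
    (sw_aeval U V p).symm
  have hX : (X 0 * X 1 : R2) ∣ sw V - X 0 := by
    have := sw_dvd hV
    rwa [sw_cross, map_sub, sw_X1] at this
  have hY : (X 0 * X 1 : R2) ∣ sw U - X 1 := by
    have := sw_dvd hU
    rwa [sw_cross, map_sub, sw_X0] at this
  have e1 : (X 0 * X 1 : R2) ^ (M + 2) ∣ aeval ![sw V, sw U] (sw P) - sw P' := by
    have := sw_dvd h1
    rwa [map_pow, sw_cross, map_sub, ← e] at this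
  have e2 : (X 0 * X 1 : R2) ^ (M + 2) ∣ aeval ![sw V, sw U] (sw Q) - sw Q' := by
    have := sw_dvd h2
    rwa [map_pow, sw_cross, map_sub, ← e] at this
  have eT : ∀ A B : R2, aeval ![sw B, sw A] (sw T) = sw (aeval ![A, B] T) := fun A B =>
    (sw_aeval A B T).symm
  have hb : br (sw Q) (sw P) = 1 := by rw [br_sw, hJ, map_one]
  have hb' : br (sw Q') (sw P') = 1 := by rw [br_sw, hJ', map_one]
  have hs1 : swf (Finsupp.single 0 n) = Finsupp.single 1 n := by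
    unfold swf
    rw [Finsupp.mapDomain_single, Equiv.swap_apply_left]
  have key := slopes_x (P := sw Q) (Q := sw P) (P' := sw Q') (Q' := sw P') (U := sw V)
    (V := sw U) (S := sw T) (K := L) (m := n) (M := M) hb hb' hX hY e2 e1 hn
    (by
      intro s h0
      rw [eT, coeff_sw] at h0
      have := wg _ h0
      rwa [swf_zero, swf_one] at this)
    (by
      intro s h0
      rw [eT, coeff_sw] at h0
      have := wg' _ h0
      rwa [swf_zero, swf_one] at this)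
    (by rw [eT, coeff_sw, hs1]; exact hc)
  constructor
  · intro s hs h0
    have := key.2 (swf s) (by rw [swf_one]; exact hs) (by rw [coeff_sw, swf_swf]; exact h0)
    rwa [swf_zero, swf_one] at this
  · intro s hs h0
    have := key.1 (swf s) (by rw [swf_one]; exact hs) (by rw [coeff_sw, swf_swf]; exact h0)
    rwa [swf_zero, swf_one] at this

theorem coeff_U_ne {U : R2} (hU : (X 0 * X 1 : R2) ∣ U - X 0) {s : Fin 2 →₀ ℕ}
    (h : coeff s (U - X 0) ≠ 0) : 1 ≤ s 0 ∧ 1 ≤ s 1 ∧ coeff s U ≠ 0 := by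
  rw [cross_dvd_iff] at hU
  have h0 : s 0 ≠ 0 := fun h' => h (hU s (Or.inl h'))
  have h1 : s 1 ≠ 0 := fun h' => h (hU s (Or.inr h'))
  refine ⟨by omega, by omega, ?_⟩
  rw [coeff_sub, coeff_X, if_neg, sub_zero] at h
  · exact h
  · intro h'
    apply h1
    rw [← h']
    simp

theorem coeff_V_ne {V : R2} (hV : (X 0 * X 1 : R2) ∣ V - X 1) {s : Fin 2 →₀ ℕ}
    (h : coeff s (V - X 1) ≠ 0) : 1 ≤ s 0 ∧ 1 ≤ s 1 ∧ coeff s V ≠ 0 := by
  rw [cross_dvd_iff] at hV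
  have h0 : s 0 ≠ 0 := fun h' => h (hV s (Or.inl h'))
  have h1 : s 1 ≠ 0 := fun h' => h (hV s (Or.inr h'))
  refine ⟨by omega, by omega, ?_⟩
  rw [coeff_sub, coeff_X, if_neg, sub_zero] at h
  · exact h
  · intro h'
    apply h0
    rw [← h']
    simp

/-- uniqueness when the product of the slopes is less than `1` -/
theorem eq_of_slopes {P Q P' Q' S T : R2} {K L : ℝ} {m n : ℕ} (hJ : br P Q = 1)
    (hJ' : br P' Q' = 1) (hP : (X 0 * X 1 : R2) ∣ P - P') (hQ : (X 0 * X 1 : R2) ∣ Q - Q')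
    (hK : 0 ≤ K) (hL : 0 ≤ L) (hKL : K * L < 1) (hm : 1 ≤ m) (hn : 1 ≤ n)
    (wf : ∀ s : Fin 2 →₀ ℕ, coeff s (aeval ![P, Q] S) ≠ 0 → (s 0 : ℝ) ≤ m + K * s 1)
    (wf' : ∀ s : Fin 2 →₀ ℕ, coeff s (aeval ![P', Q'] S) ≠ 0 → (s 0 : ℝ) ≤ m + K * s 1)
    (hc : coeff (Finsupp.single 0 m) (aeval ![P, Q] S) ≠ 0)
    (wg : ∀ s : Fin 2 →₀ ℕ, coeff s (aeval ![P, Q] T) ≠ 0 → (s 1 : ℝ) ≤ n + L * s 0)
    (wg' : ∀ s : Fin 2 →₀ ℕ, coeff s (aeval ![P', Q'] T) ≠ 0 → (s 1 : ℝ) ≤ n + L * s 0)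
    (hd : coeff (Finsupp.single 1 n) (aeval ![P, Q] T) ≠ 0) : P = P' ∧ Q = Q' := by
  refine eq_of_box hJ hP hQ fun M U V hU hV h1 h2 => ?_
  obtain ⟨a1, a2⟩ := slopes_x hJ hJ' hU hV h1 h2 hm wf wf' hc
  obtain ⟨b1, b2⟩ := slopes_y hJ hJ' hU hV h1 h2 hn wg wg' hd
  constructor
  · intro s hs0 hs1
    by_contra h0
    obtain ⟨c0, c1, c2⟩ := coeff_U_ne hU h0
    have e1 := a1 s hs1 c2
    have e2 := b1 s hs0 c2
    have c0' : (1 : ℝ) ≤ s 0 := by exact_mod_cast c0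
    have c1' : (1 : ℝ) ≤ s 1 := by exact_mod_cast c1
    have e3 : K * (s 1 : ℝ) ≤ K * (-L + L * s 0) := mul_le_mul_of_nonneg_left e2 hK
    have e4 : ((s 0 : ℝ) - 1) * (1 - K * L) ≤ 0 := by nlinarith
    have e5 : (s 0 : ℝ) - 1 ≤ 0 := by
      by_contra h
      push Not at h
      have : 0 < ((s 0 : ℝ) - 1) * (1 - K * L) := mul_pos h (by linarith)
      linarith
    have e6 : (s 0 : ℝ) = 1 := by linarith
    rw [e6] at e2
    linarith
  · intro s hs0 hs1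
    by_contra h0
    obtain ⟨c0, c1, c2⟩ := coeff_V_ne hV h0
    have e1 := a2 s hs1 c2
    have e2 := b2 s hs0 c2
    have c0' : (1 : ℝ) ≤ s 0 := by exact_mod_cast c0
    have c1' : (1 : ℝ) ≤ s 1 := by exact_mod_cast c1
    have e3 : L * (s 0 : ℝ) ≤ L * (-K + K * s 1) := mul_le_mul_of_nonneg_left e1 hL
    have e4 : ((s 1 : ℝ) - 1) * (1 - K * L) ≤ 0 := by nlinarith
    have e5 : (s 1 : ℝ) - 1 ≤ 0 := by
      by_contra h
      push Not at h
      have : 0 < ((s 1 : ℝ) - 1) * (1 - K * L) := mul_pos h (by linarith)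
      linarith
    have e6 : (s 1 : ℝ) = 1 := by linarith
    rw [e6] at e1
    linarith

/-- uniqueness when the slope on one axis is negative -/
theorem eq_of_neg {P Q P' Q' S : R2} {K : ℝ} {m : ℕ} (hJ : br P Q = 1)
    (hJ' : br P' Q' = 1) (hP : (X 0 * X 1 : R2) ∣ P - P') (hQ : (X 0 * X 1 : R2) ∣ Q - Q')
    (hK : K < 0) (hm : 1 ≤ m)
    (wf : ∀ s : Fin 2 →₀ ℕ, coeff s (aeval ![P, Q] S) ≠ 0 → (s 0 : ℝ) ≤ m + K * s 1)
    (wf' : ∀ s : Fin 2 →₀ ℕ, coeff s (aeval ![P', Q'] S) ≠ 0 → (s 0 : ℝ) ≤ m + K * s 1)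
    (hc : coeff (Finsupp.single 0 m) (aeval ![P, Q] S) ≠ 0) : P = P' ∧ Q = Q' := by
  refine eq_of_box hJ hP hQ fun M U V hU hV h1 h2 => ?_
  obtain ⟨a1, a2⟩ := slopes_x hJ hJ' hU hV h1 h2 hm wf wf' hc
  constructor
  · intro s hs0 hs1
    by_contra h0
    obtain ⟨c0, c1, c2⟩ := coeff_U_ne hU h0
    have e1 := a1 s hs1 c2
    have c0' : (1 : ℝ) ≤ s 0 := by exact_mod_cast c0
    have c1' : (1 : ℝ) ≤ s 1 := by exact_mod_cast c1
    nlinarith
  · intro s hs0 hs1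
    by_contra h0
    obtain ⟨c0, c1, c2⟩ := coeff_V_ne hV h0
    have e1 := a2 s hs1 c2
    have c0' : (1 : ℝ) ≤ s 0 := by exact_mod_cast c0
    have c1' : (1 : ℝ) ≤ s 1 := by exact_mod_cast c1
    nlinarith

end Pool.Agent.KXS
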