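import Mathlib

/-!
# The roots of a leading form in one variable
-/

set_option autoImplicit false

open Polynomial

namespace Pool.Agent.KXS

theorem mult_pow {p : ℂ[X]} (t : ℂ) (k : ℕ) :
    rootMultiplicity t (p ^ k) = k * rootMultiplicity t p := by
  classical
  rw [← count_roots, roots_pow, Multiset.count_nsmul, count_roots]

theorem root_mult {a b u : ℂ[X]} {D n e r σ : ℕ} {c : ℂ} (hr : 1 ≤ r) (hσ : 1 ≤ σ)
    (her : e + r = D + n) (ha : a ≠ 0) (hb : b ≠ 0) (hu : u ≠ 0)
    (hode : C (n : ℂ) * derivative a * b - C (D : ℂ) * a * derivative b = C (σ : ℂ) * u)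
    (hpow : u ^ D = C c * a ^ e) (hc : c ≠ 0) (t : ℂ) (ht : 1 ≤ rootMultiplicity t a) :
    D * rootMultiplicity t b + r * rootMultiplicity t a = D + n * rootMultiplicity t a := by
  obtain ⟨a₁, ha₁, ha1⟩ := exists_eq_pow_rootMultiplicity_mul_and_not_dvd a ha t
  obtain ⟨b₁, hb₁, hb1⟩ := exists_eq_pow_rootMultiplicity_mul_and_not_dvd b hb t
  set μ := rootMultiplicity t a with hμ
  set ν := rootMultiplicity t b with hν
  have hx : (X - C t : ℂ[X]) ≠ 0 := X_sub_C_ne_zero t
  have hder : ∀ (k : ℕ) (p : ℂ[X]), (X - C t) * derivative ((X - C t) ^ k * p) =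
      (X - C t) ^ k * (C (k : ℂ) * p + (X - C t) * derivative p) := by
    intro k p
    rw [derivative_mul, derivative_X_sub_C_pow]
    rcases Nat.eq_zero_or_pos k with hk | hk
    · subst hk; simp
    · obtain ⟨k', rfl⟩ : ∃ k', k = k' + 1 := ⟨k - 1, by omega⟩
      rw [Nat.add_sub_cancel, pow_succ]
      ring
  have hma : rootMultiplicity t (u ^ D) = D * rootMultiplicity t u := by
    rw [mult_pow]
  have hmu : D * rootMultiplicity t u = e * μ := by
    have h1 : rootMultiplicity t (C c * a ^ e) = e * μ := by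
      rw [rootMultiplicity_mul (mul_ne_zero (C_ne_zero.2 hc) (pow_ne_zero _ ha)),
        rootMultiplicity_C, zero_add, mult_pow]
    rw [← hma, hpow, h1]
  have hmul : (X - C t) * (C (σ : ℂ) * u) = (X - C t) ^ (μ + ν) *
      (C ((n : ℂ) * μ - D * ν) * a₁ * b₁ + (X - C t) *
        (C (n : ℂ) * derivative a₁ * b₁ - C (D : ℂ) * a₁ * derivative b₁)) := by
    have h1 := hder μ a₁
    have h2 := hder ν b₁
    rw [← ha₁] at h1
    rw [← hb₁] at h2
    rw [← hode, C_sub, C_mul, C_mul, pow_add]
    have h3 : (X - C t) * (C (n : ℂ) * derivative a * b - C (D : ℂ) * a * derivative b) =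
        C (n : ℂ) * ((X - C t) * derivative a) * b - C (D : ℂ) * a * ((X - C t) * derivative b) := by
      ring
    rw [h3, h1, h2]
    have h4 : C (n : ℂ) * ((X - C t) ^ μ * (C (μ : ℂ) * a₁ + (X - C t) * derivative a₁)) * b -
        C (D : ℂ) * a * ((X - C t) ^ ν * (C (ν : ℂ) * b₁ + (X - C t) * derivative b₁)) =
        C (n : ℂ) * ((X - C t) ^ μ * (C (μ : ℂ) * a₁ + (X - C t) * derivative a₁)) *
          ((X - C t) ^ ν * b₁) -
        C (D : ℂ) * ((X - C t) ^ μ * a₁) *
          ((X - C t) ^ ν * (C (ν : ℂ) * b₁ + (X - C t) * derivative b₁)) := by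
      rw [← ha₁, ← hb₁]
    rw [h4]
    ring
  have hσu : C (σ : ℂ) * u ≠ 0 := mul_ne_zero (C_ne_zero.2 (by
    exact_mod_cast (show σ ≠ 0 by omega))) hu
  have hmL : rootMultiplicity t ((X - C t) * (C (σ : ℂ) * u)) = 1 + rootMultiplicity t u := by
    rw [rootMultiplicity_mul (mul_ne_zero hx hσu), rootMultiplicity_X_sub_C_self,
      rootMultiplicity_mul hσu, rootMultiplicity_C, zero_add]
  by_cases hne : n * μ = D * ν
  · exfalso
    have h0 : ((n : ℂ) * μ - D * ν) = 0 := by
      rw [sub_eq_zero]; exact_mod_cast hne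
    rw [h0, C_0, zero_mul, zero_mul, zero_add] at hmul
    have h1 : (X - C t) ^ (μ + ν + 1) ∣ (X - C t) * (C (σ : ℂ) * u) := by
      refine ⟨C (n : ℂ) * derivative a₁ * b₁ - C (D : ℂ) * a₁ * derivative b₁, ?_⟩
      rw [hmul]
      ring
    have h2 := (le_rootMultiplicity_iff (mul_ne_zero hx hσu)).2 h1
    rw [hmL] at h2
    have h3 : D * (μ + ν) ≤ D * rootMultiplicity t u := Nat.mul_le_mul_left D (by omega)
    rw [hmu, mul_add, ← hne, ← add_mul, ← her, add_mul] at h3
    have h4 : 1 ≤ r * μ := Nat.mul_pos hr ht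
    omega
  · have h0 : ((n : ℂ) * μ - D * ν) ≠ 0 := by
      rw [sub_ne_zero]; exact_mod_cast hne
    have hg : (C ((n : ℂ) * μ - D * ν) * a₁ * b₁ + (X - C t) *
        (C (n : ℂ) * derivative a₁ * b₁ - C (D : ℂ) * a₁ * derivative b₁)).eval t ≠ 0 := by
      simp only [eval_add, eval_mul, eval_C, eval_sub, eval_X, sub_self, zero_mul, add_zero]
      rw [dvd_iff_isRoot] at ha1 hb1
      exact mul_ne_zero (mul_ne_zero h0 ha1) hb1
    have hg0 : (C ((n : ℂ) * μ - D * ν) * a₁ * b₁ + (X - C t) *
        (C (n : ℂ) * derivative a₁ * b₁ - C (D : ℂ) * a₁ * derivative b₁)) ≠ 0 := by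
      intro h
      apply hg
      rw [h, eval_zero]
    have hmR : rootMultiplicity t ((X - C t) ^ (μ + ν) *
      (C ((n : ℂ) * μ - D * ν) * a₁ * b₁ + (X - C t) *
        (C (n : ℂ) * derivative a₁ * b₁ - C (D : ℂ) * a₁ * derivative b₁))) = μ + ν := by
      rw [rootMultiplicity_mul (mul_ne_zero (pow_ne_zero _ hx) hg0),
        rootMultiplicity_X_sub_C_pow, rootMultiplicity_eq_zero (by exact hg), add_zero]
    rw [hmul, hmR] at hmL
    have h5 : D * (μ + ν) = D + e * μ := by
      rw [hmL, mul_add, mul_one, hmu]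
    have h6 : e * μ + r * μ = D * μ + n * μ := by rw [← add_mul, her, add_mul]
    rw [mul_add] at h5
    omega

theorem roots_le_one {a b u : ℂ[X]} {D n e r σ : ℕ} {c : ℂ} (hr : 1 ≤ r) (hσ : 1 ≤ σ)
    (hD : 1 ≤ D) (her : e + r = D + n) (ha : a ≠ 0) (hb : b ≠ 0) (hu : u ≠ 0)
    (hode : C (n : ℂ) * derivative a * b - C (D : ℂ) * a * derivative b = C (σ : ℂ) * u)
    (hpow : u ^ D = C c * a ^ e) (hc : c ≠ 0) (hdeg : r * a.natDegree < 2 * D) :
    a.roots.toFinset.card ≤ 1 := by
  classical
  set k := a.roots.toFinset.card with hk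
  -- the sum over the roots
  have hsa : ∑ t ∈ a.roots.toFinset, rootMultiplicity t a = a.natDegree := by
    have h1 := Multiset.toFinset_sum_count_eq a.roots
    simp only [count_roots] at h1
    rw [h1]
    exact (splits_iff_card_roots.1 (IsAlgClosed.splits a))
  have hsb : ∑ t ∈ a.roots.toFinset, rootMultiplicity t b ≤ b.natDegree := by
    calc ∑ t ∈ a.roots.toFinset, rootMultiplicity t b
        = ∑ t ∈ a.roots.toFinset, b.roots.count t := by simp only [count_roots]
      _ ≤ ∑ t ∈ a.roots.toFinset ∪ b.roots.toFinset, b.roots.count t :=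
          Finset.sum_le_sum_of_subset Finset.subset_union_left
      _ = ∑ t ∈ b.roots.toFinset, b.roots.count t := by
          symm
          apply Finset.sum_subset Finset.subset_union_right
          intro t _ ht
          rw [Multiset.mem_toFinset] at ht
          exact Multiset.count_eq_zero.2 ht
      _ = b.roots.card := Multiset.toFinset_sum_count_eq b.roots
      _ ≤ b.natDegree := card_roots' b
  have hsum : D * ∑ t ∈ a.roots.toFinset, rootMultiplicity t b + r * a.natDegree =
      D * k + n * a.natDegree := by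
    rw [← hsa, Finset.mul_sum, Finset.mul_sum, Finset.mul_sum, ← Finset.sum_add_distrib, hk,
      mul_comm D (a.roots.toFinset.card), ← smul_eq_mul (a.roots.toFinset.card) D,
      ← Finset.sum_const, ← Finset.sum_add_distrib]
    refine Finset.sum_congr rfl fun t ht => ?_
    rw [Multiset.mem_toFinset, mem_roots ha] at ht
    exact root_mult hr hσ her ha hb hu hode hpow hc t ((rootMultiplicity_pos ha).2 ht)
  have hmain : D * k + n * a.natDegree ≤ D * b.natDegree + r * a.natDegree := by
    rw [← hsum]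
    have := Nat.mul_le_mul_left D hsb
    omega
  -- the degree of `u`
  have hdu : D * u.natDegree = e * a.natDegree := by
    have h1 := congrArg natDegree hpow
    rw [natDegree_pow, natDegree_C_mul hc, natDegree_pow] at h1
    exact h1
  have hXd : ∀ p : ℂ[X], ∀ i : ℕ, (X * derivative p).coeff i = (i : ℂ) * p.coeff i := by
    intro p i
    cases i with
    | zero => simp
    | succ i => rw [coeff_X_mul, coeff_derivative]; push_cast; ring
  have hXdeg : ∀ p : ℂ[X], (X * derivative p).natDegree ≤ p.natDegree := by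
    intro p
    rw [natDegree_le_iff_coeff_eq_zero]
    intro i hi
    rw [hXd, coeff_eq_zero_of_natDegree_lt hi, mul_zero]
  have hode' : C (n : ℂ) * ((X * derivative a) * b) - C (D : ℂ) * (a * (X * derivative b)) =
      C (σ : ℂ) * (X * u) := by
    linear_combination X * hode
  have hσ0 : (σ : ℂ) ≠ 0 := by exact_mod_cast (show σ ≠ 0 by omega)
  have hco : ((n : ℂ) * a.natDegree - D * b.natDegree) * (a.leadingCoeff * b.leadingCoeff) =
      (σ : ℂ) * (X * u).coeff (a.natDegree + b.natDegree) := by
    have h1 := congrArg (fun p => coeff p (a.natDegree + b.natDegree)) hode'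
    rw [coeff_sub, coeff_C_mul, coeff_C_mul, coeff_C_mul,
      coeff_mul_add_eq_of_natDegree_le (hXdeg a) le_rfl,
      coeff_mul_add_eq_of_natDegree_le le_rfl (hXdeg b), hXd, hXd] at h1
    rw [← h1]
    unfold leadingCoeff
    ring
  have hdXu : (X * u).natDegree = u.natDegree + 1 := natDegree_X_mul hu
  have hle : (X * u).natDegree ≤ a.natDegree + b.natDegree := by
    have h1 : (C (σ : ℂ) * (X * u)).natDegree ≤ a.natDegree + b.natDegree := by
      rw [← hode']
      refine (natDegree_sub_le _ _).trans (max_le ?_ ?_)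
      · refine (natDegree_C_mul_le _ _).trans ?_
        exact natDegree_mul_le.trans (add_le_add (hXdeg a) le_rfl)
      · refine (natDegree_C_mul_le _ _).trans ?_
        exact natDegree_mul_le.trans (add_le_add le_rfl (hXdeg b))
    rwa [natDegree_C_mul hσ0] at h1
  by_contra hk1
  push Not at hk1
  by_cases hres : n * a.natDegree = D * b.natDegree
  · -- resonance at infinity
    have h0 : ((n : ℂ) * a.natDegree - D * b.natDegree) = 0 := by
      rw [sub_eq_zero]; exact_mod_cast hres
    rw [h0, zero_mul] at hco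
    have h1 : (X * u).coeff (a.natDegree + b.natDegree) = 0 := by
      rcases mul_eq_zero.1 hco.symm with h | h
      · exact absurd h hσ0
      · exact h
    have h2 : (X * u).natDegree ≠ a.natDegree + b.natDegree := by
      intro h
      rw [← h, coeff_natDegree, leadingCoeff_eq_zero] at h1
      exact (mul_ne_zero X_ne_zero hu) h1
    have h3 : u.natDegree + 2 ≤ a.natDegree + b.natDegree := by omega
    have h4 : D * (u.natDegree + 2) ≤ D * (a.natDegree + b.natDegree) :=
      Nat.mul_le_mul_left D h3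
    rw [mul_add, mul_add, hdu, ← hres, ← add_mul, ← her, add_mul] at h4
    omega
  · have h0 : ((n : ℂ) * a.natDegree - D * b.natDegree) ≠ 0 := by
      rw [sub_ne_zero]; exact_mod_cast hres
    have h1 : (X * u).coeff (a.natDegree + b.natDegree) ≠ 0 := by
      intro h
      rw [h, mul_zero] at hco
      exact (mul_ne_zero h0 (mul_ne_zero (leadingCoeff_ne_zero.2 ha)
        (leadingCoeff_ne_zero.2 hb))) hco
    have h2 := le_natDegree_of_ne_zero h1
    have h3 : u.natDegree + 1 = a.natDegree + b.natDegree := by omega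
    have h4 : D * (u.natDegree + 1) = D * a.natDegree + D * b.natDegree := by
      rw [h3, mul_add]
    rw [mul_add, mul_one, hdu] at h4
    have h5 : e * a.natDegree + r * a.natDegree = D * a.natDegree + n * a.natDegree := by
      rw [← add_mul, her, add_mul]
    have h6 : D * 2 ≤ D * k := Nat.mul_le_mul_left D hk1
    omega

end Pool.Agent.KXS
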