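import Pool.Agent.KXS.Dep
import Pool.Agent.KXS.Root
import Pool.Agent.KXS.Cross

/-!
# The leading form of a component of a Keller map: charts
-/

set_option autoImplicit false

open MvPolynomial

namespace Pool.Agent.KXS

/-- the chart `y = 1` -/
noncomputable def c1 : R2 →ₐ[ℂ] Polynomial ℂ := aeval ![Polynomial.X, 1]

theorem c1_X0 : c1 (X 0) = Polynomial.X := by
  unfold c1
  rw [aeval_X]
  rfl

theorem c1_X1 : c1 (X 1) = 1 := by
  unfold c1
  rw [aeval_X]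
  rfl

theorem c1_C (a : ℂ) : c1 (C a) = Polynomial.C a := by
  unfold c1
  rw [aeval_C]
  rfl

theorem c1_deriv (p : R2) : Polynomial.derivative (c1 p) = c1 (pderiv 0 p) := by
  induction p using MvPolynomial.induction_on with
  | C c => rw [c1_C, pderiv_C, map_zero, Polynomial.derivative_C]
  | add p q hp hq => rw [map_add, map_add, map_add, map_add, hp, hq]
  | mul_X p i hp =>
    rw [map_mul, Polynomial.derivative_mul, pderiv_mul, map_add, map_mul, map_mul, hp]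
    fin_cases i
    · show c1 (pderiv 0 p) * c1 (X 0) + c1 p * Polynomial.derivative (c1 (X 0)) = _
      rw [c1_X0, Polynomial.derivative_X]
      show _ = c1 (pderiv 0 p) * c1 (X 0) + c1 p * c1 (pderiv 0 (X 0))
      rw [pderiv_X_self, c1_X0, map_one]
    · show c1 (pderiv 0 p) * c1 (X 1) + c1 p * Polynomial.derivative (c1 (X 1)) = _
      rw [c1_X1, Polynomial.derivative_one]
      show _ = c1 (pderiv 0 p) * c1 (X 1) + c1 p * c1 (pderiv 0 (X 1))
      rw [pderiv_X_of_ne (by decide), c1_X1, map_zero]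

open Classical in
theorem c1_coeff (p : R2) (i : ℕ) :
    (c1 p).coeff i = ∑ s ∈ p.support, if s 0 = i then coeff s p else 0 := by
  unfold c1
  rw [aeval_def, eval₂_eq', Polynomial.finset_sum_coeff]
  refine Finset.sum_congr rfl fun s _ => ?_
  rw [Fin.prod_univ_two]
  simp only [Matrix.cons_val_zero, Matrix.cons_val_one, one_pow, mul_one]
  have h : algebraMap ℂ (Polynomial ℂ) (coeff s p) = Polynomial.C (coeff s p) := rfl
  rw [h, Polynomial.coeff_C_mul, Polynomial.coeff_X_pow]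
  by_cases h1 : s 0 = i
  · rw [if_pos h1, if_pos h1.symm, mul_one]
  · rw [if_neg h1, if_neg (Ne.symm h1), mul_zero]

theorem WH_eq {ρ σ k : ℕ} (hσ : 1 ≤ σ) {A : R2} (h : WH ρ σ k A) {s t : Fin 2 →₀ ℕ}
    (hs : coeff s A ≠ 0) (ht : coeff t A ≠ 0) (h0 : s 0 = t 0) : s = t := by
  have h1 := h s hs
  have h2 := h t ht
  rw [h0] at h1
  have h3 : σ * s 1 = σ * t 1 := by omega
  have h4 := Nat.eq_of_mul_eq_mul_left (by omega) h3
  ext j
  fin_cases j
  · exact h0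
  · exact h4

theorem c1_coeff_of {ρ σ k : ℕ} (hσ : 1 ≤ σ) {A : R2} (h : WH ρ σ k A) {s : Fin 2 →₀ ℕ}
    (hs : coeff s A ≠ 0) : (c1 A).coeff (s 0) = coeff s A := by
  classical
  rw [c1_coeff, Finset.sum_eq_single s]
  · rw [if_pos rfl]
  · intro t ht hne
    rw [if_neg]
    intro h0
    exact hne (WH_eq hσ h (mem_support_iff.1 ht) hs h0)
  · intro h0
    exact absurd (mem_support_iff.2 hs) h0

theorem c1_exists {A : R2} {i : ℕ} (hi : (c1 A).coeff i ≠ 0) :
    ∃ s : Fin 2 →₀ ℕ, s 0 = i ∧ coeff s A ≠ 0 := by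
  classical
  rw [c1_coeff] at hi
  obtain ⟨s, hs, h1⟩ := Finset.exists_ne_zero_of_sum_ne_zero hi
  refine ⟨s, ?_, mem_support_iff.1 hs⟩
  by_contra h
  exact h1 (if_neg h)

theorem c1_ne {ρ σ k : ℕ} (hσ : 1 ≤ σ) {A : R2} (h : WH ρ σ k A) (hA : A ≠ 0) : c1 A ≠ 0 := by
  obtain ⟨s, hs⟩ := (MvPolynomial.ne_zero_iff).1 hA
  intro h0
  have := c1_coeff_of hσ h hs
  rw [h0, Polynomial.coeff_zero] at this
  exact hs this.symm

theorem c1_ode {ρ σ D n : ℕ} {A B : R2} (wA : WH ρ σ D A) (wB : WH ρ σ n B) :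
    Polynomial.C (n : ℂ) * Polynomial.derivative (c1 A) * c1 B -
      Polynomial.C (D : ℂ) * c1 A * Polynomial.derivative (c1 B) =
      Polynomial.C (σ : ℂ) * c1 (br A B) := by
  have eA := congrArg c1 (euler wA)
  have eB := congrArg c1 (euler wB)
  have hn : ∀ k : ℕ, c1 (k : R2) = Polynomial.C (k : ℂ) := by
    intro k
    simp
  rw [map_add, map_mul, map_mul, map_mul, map_mul, map_mul, c1_X0, c1_X1, hn, hn, hn] at eA eB
  unfold br
  rw [map_sub, map_mul, map_mul, c1_deriv, c1_deriv]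
  linear_combination (-(c1 (pderiv 0 A))) * eB + (c1 (pderiv 0 B)) * eA

/-- data of the algorithm in one chart -/
structure Ind (ρ σ D n e : ℕ) (A B U : R2) (c : ℂ) : Prop where
  wA : WH ρ σ D A
  wB : WH ρ σ n B
  wU : WH ρ σ e U
  hA : A ≠ 0
  hB : B ≠ 0
  hU : U ≠ 0
  hbr : br A B = U
  her : e + (ρ + σ) = D + n
  hc : c ≠ 0
  hpow : U ^ D = C c * A ^ e

theorem WH_sw {ρ σ k : ℕ} {A : R2} (h : WH ρ σ k A) : WH σ ρ k (sw A) := by
  intro s hs
  rw [coeff_sw] at hs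
  have := h _ hs
  rw [swf_zero, swf_one] at this
  omega

theorem sw_sw (p : R2) : sw (sw p) = p := by
  ext s
  rw [coeff_sw, coeff_sw, swf_swf]

theorem sw_ne {p : R2} (h : p ≠ 0) : sw p ≠ 0 := by
  intro h0
  apply h
  rw [← sw_sw p, h0, map_zero]

theorem Ind.swap {ρ σ D n e : ℕ} {A B U : R2} {c : ℂ} (h : Ind ρ σ D n e A B U c) :
    Ind σ ρ D n e (sw A) (sw B) (-sw U) ((-1) ^ D * c) where
  wA := WH_sw h.wA
  wB := WH_sw h.wB
  wU := by
    intro s hs
    rw [coeff_neg, neg_ne_zero] at hs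
    exact WH_sw h.wU s hs
  hA := sw_ne h.hA
  hB := sw_ne h.hB
  hU := neg_ne_zero.2 (sw_ne h.hU)
  hbr := by
    have h1 := br_sw A B
    rw [h.hbr] at h1
    rw [← h1]
    unfold br
    ring
  her := by have := h.her; omega
  hc := mul_ne_zero (pow_ne_zero _ (by norm_num)) h.hc
  hpow := by
    have h1 := congrArg sw h.hpow
    rw [map_pow, map_mul, map_pow] at h1
    have h2 : sw (C c) = C c := by
      unfold sw
      rw [rename_C]
    rw [h2] at h1
    rw [neg_pow, h1, C_mul, C_pow, C_neg, C_1]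
    ring

theorem Ind.roots {ρ σ D n e : ℕ} {A B U : R2} {c : ℂ} (h : Ind ρ σ D n e A B U c)
    (hσ : 1 ≤ σ) (hD : 1 ≤ D) (hdeg : (ρ + σ) * (c1 A).natDegree < 2 * D) :
    (c1 A).roots.toFinset.card ≤ 1 := by
  refine roots_le_one (a := c1 A) (b := c1 B) (u := c1 U) (D := D) (n := n) (e := e)
    (r := ρ + σ) (σ := σ) (c := c) (by omega) hσ hD h.her (c1_ne hσ h.wA h.hA)
    (c1_ne hσ h.wB h.hB) (c1_ne hσ h.wU h.hU) ?_ ?_ h.hc hdeg
  · rw [c1_ode h.wA h.wB, h.hbr]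
  · rw [← map_pow, h.hpow, map_mul, map_pow, c1_C]

theorem Ind.mult {ρ σ D n e : ℕ} {A B U : R2} {c : ℂ} (h : Ind ρ σ D n e A B U c)
    (hσ : 1 ≤ σ) (t : ℂ) (ht : 1 ≤ Polynomial.rootMultiplicity t (c1 A)) :
    D * Polynomial.rootMultiplicity t (c1 B) + (ρ + σ) * Polynomial.rootMultiplicity t (c1 A) =
      D + n * Polynomial.rootMultiplicity t (c1 A) := by
  refine root_mult (a := c1 A) (b := c1 B) (u := c1 U) (D := D) (n := n) (e := e)
    (r := ρ + σ) (σ := σ) (c := c) (by omega) hσ h.her (c1_ne hσ h.wA h.hA)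
    (c1_ne hσ h.wB h.hB) (c1_ne hσ h.wU h.hU) ?_ ?_ h.hc t ht
  · rw [c1_ode h.wA h.wB, h.hbr]
  · rw [← map_pow, h.hpow, map_mul, map_pow, c1_C]

/-- the data exist for every component of a Keller map -/
theorem exists_Ind {ρ σ : ℕ} {P Q : R2} (hJ : br P Q = 1) (hD : 1 ≤ wd ρ σ P) :
    ∃ (n e : ℕ) (B U : R2) (c : ℂ), Ind ρ σ (wd ρ σ P) n e (lf ρ σ P) B U c := by
  have hP : P ≠ 0 := by
    rintro rfl
    unfold br at hJ
    simp at hJ
  obtain ⟨T, hT, hU, h1, h2, c, hc, h3⟩ := exists_indep hJ hD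
  exact ⟨wd ρ σ T, wd ρ σ (br P T), lf ρ σ T, lf ρ σ (br P T), c,
    ⟨WH_lf _ _ _, WH_lf _ _ _, WH_lf _ _ _, lf_ne hP, lf_ne hT, lf_ne hU, h2, h1, hc, h3⟩⟩

end Pool.Agent.KXS
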