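import Pool.Agent.KXS.Chart

/-!
# The leading form is a monomial if it is divisible by `x` and by `y`
-/

set_option autoImplicit false

open MvPolynomial

namespace Pool.Agent.KXS

theorem deg_chart {ρ σ D : ℕ} {A : R2} (wA : WH ρ σ D A) (hA : c1 A ≠ 0)
    (hy : ∀ s, coeff s A ≠ 0 → 1 ≤ s 1) : ρ * (c1 A).natDegree + σ ≤ D := by
  have h1 : (c1 A).coeff (c1 A).natDegree ≠ 0 := by
    rw [Polynomial.coeff_natDegree]
    exact Polynomial.leadingCoeff_ne_zero.2 hA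
  obtain ⟨s, hs0, hs⟩ := c1_exists h1
  rw [← hs0]
  have h2 := wA s hs
  have h3 := hy s hs
  have h4 : σ * 1 ≤ σ * s 1 := Nat.mul_le_mul_left σ h3
  omega

theorem uniq_of_root {ρ σ D : ℕ} {A : R2} (wA : WH ρ σ D A) (hσ : 1 ≤ σ) (hA : A ≠ 0)
    (hx : ∀ s, coeff s A ≠ 0 → 1 ≤ s 0) (hc : (c1 A).roots.toFinset.card ≤ 1) :
    ∃ s, coeff s A ≠ 0 ∧ ∀ t, coeff t A ≠ 0 → t = s := by
  classical
  have hne := c1_ne hσ wA hA
  have h0 : (c1 A).coeff 0 = 0 := by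
    by_contra h
    obtain ⟨s, hs0, hs⟩ := c1_exists h
    have := hx s hs
    omega
  have h0r : (0 : ℂ) ∈ (c1 A).roots := by
    rw [Polynomial.mem_roots hne, Polynomial.IsRoot.def, ← Polynomial.coeff_zero_eq_eval_zero]
    exact h0
  have hall : ∀ t ∈ (c1 A).roots, t = 0 := by
    intro t ht
    exact Finset.card_le_one.1 hc t (Multiset.mem_toFinset.2 ht) 0 (Multiset.mem_toFinset.2 h0r)
  have hrep := Multiset.eq_replicate_of_mem hall
  have hcard : (c1 A).roots.card = (c1 A).natDegree :=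
    Polynomial.splits_iff_card_roots.1 (IsAlgClosed.splits _)
  have hprod := Polynomial.C_leadingCoeff_mul_prod_multiset_X_sub_C hcard
  rw [hrep, Multiset.map_replicate, Multiset.prod_replicate, Polynomial.C_0, sub_zero] at hprod
  obtain ⟨s, hs⟩ := (MvPolynomial.ne_zero_iff).1 hA
  refine ⟨s, hs, fun t ht => ?_⟩
  have key : ∀ t, coeff t A ≠ 0 → t 0 = (c1 A).roots.card := by
    intro t ht
    have h1 := c1_coeff_of hσ wA ht
    rw [← hprod, Polynomial.coeff_C_mul, Polynomial.coeff_X_pow] at h1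
    by_contra h2
    rw [if_neg h2, mul_zero] at h1
    exact ht h1.symm
  exact WH_eq hσ wA ht hs ((key t ht).trans (key s hs).symm)

theorem uniq_sw {A : R2} (h : ∃ s, coeff s (sw A) ≠ 0 ∧ ∀ t, coeff t (sw A) ≠ 0 → t = s) :
    ∃ s, coeff s A ≠ 0 ∧ ∀ t, coeff t A ≠ 0 → t = s := by
  obtain ⟨s, hs, h1⟩ := h
  refine ⟨swf s, by rw [← coeff_sw]; exact hs, fun t ht => ?_⟩
  have h2 := h1 (swf t) (by rw [coeff_sw, swf_swf]; exact ht)
  rw [← h2, swf_swf]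

theorem corner_uniq {ρ σ D n e : ℕ} {A B U : R2} {c : ℂ} (h : Ind ρ σ D n e A B U c)
    (hρ : 1 ≤ ρ) (hσ : 1 ≤ σ) (hD : 1 ≤ D) (hx : ∀ s, coeff s A ≠ 0 → 1 ≤ s 0)
    (hy : ∀ s, coeff s A ≠ 0 → 1 ≤ s 1) :
    ∃ s, coeff s A ≠ 0 ∧ ∀ t, coeff t A ≠ 0 → t = s := by
  have hx' : ∀ s, coeff s (sw A) ≠ 0 → 1 ≤ s 0 := by
    intro s hs
    rw [coeff_sw] at hs
    have := hy _ hs
    rwa [swf_one] at this
  have hy' : ∀ s, coeff s (sw A) ≠ 0 → 1 ≤ s 1 := by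
    intro s hs
    rw [coeff_sw] at hs
    have := hx _ hs
    rwa [swf_zero] at this
  have hs := h.swap
  have d1 := deg_chart h.wA (c1_ne hσ h.wA h.hA) hy
  have d2 := deg_chart hs.wA (c1_ne hρ hs.wA hs.hA) hy'
  by_cases h1 : (ρ + σ) * (c1 A).natDegree < 2 * D
  · exact uniq_of_root h.wA hσ h.hA hx (h.roots hσ hD h1)
  · by_cases h2 : (σ + ρ) * (c1 (sw A)).natDegree < 2 * D
    · exact uniq_sw (uniq_of_root hs.wA hρ hs.hA hx' (hs.roots hρ hD h2))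
    · exfalso
      push Not at h1 h2
      have e1 : ρ * (2 * D) ≤ ρ * ((ρ + σ) * (c1 A).natDegree) := Nat.mul_le_mul_left ρ h1
      have e2 : σ * (2 * D) ≤ σ * ((σ + ρ) * (c1 (sw A)).natDegree) := Nat.mul_le_mul_left σ h2
      have e3 : (ρ + σ) * (ρ * (c1 A).natDegree + σ) ≤ (ρ + σ) * D := Nat.mul_le_mul_left _ d1
      have e4 : (ρ + σ) * (σ * (c1 (sw A)).natDegree + ρ) ≤ (ρ + σ) * D :=
        Nat.mul_le_mul_left _ d2
      have e5 : 0 < (ρ + σ) * (ρ + σ) := Nat.mul_pos (by omega) (by omega)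
      nlinarith

theorem eq_mono {A : R2} {s : Fin 2 →₀ ℕ} (h : ∀ t, coeff t A ≠ 0 → t = s) :
    A = C (coeff s A) * ((X 0) ^ (s 0) * (X 1) ^ (s 1)) := by
  classical
  have h1 : A = monomial s (coeff s A) := by
    ext t
    rw [coeff_monomial]
    split_ifs with h2
    · rw [h2]
    · by_contra h3
      exact h2 (h t h3).symm
  conv_lhs => rw [h1]
  rw [monomial_eq, Finsupp.prod_fintype _ _ (fun i => pow_zero _), Fin.prod_univ_two]

theorem mult_uniq {ρ σ D : ℕ} {A : R2} (wA : WH ρ σ D A) (hσ : 1 ≤ σ) {s : Fin 2 →₀ ℕ}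
    (hs : coeff s A ≠ 0) (h : ∀ t, coeff t A ≠ 0 → t = s) :
    Polynomial.rootMultiplicity 0 (c1 A) = s 0 := by
  have h1 : c1 A = Polynomial.C (coeff s A) * Polynomial.X ^ (s 0) := by
    ext i
    rw [Polynomial.coeff_C_mul, Polynomial.coeff_X_pow]
    by_cases hi : i = s 0
    · rw [if_pos hi, hi, c1_coeff_of hσ wA hs, mul_one]
    · rw [if_neg hi, mul_zero]
      by_contra h2
      obtain ⟨t, ht0, ht⟩ := c1_exists h2
      apply hi
      rw [← ht0, h t ht]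
  rw [h1, Polynomial.rootMultiplicity_eq_natTrailingDegree', Polynomial.C_mul_X_pow_eq_monomial]
  exact Polynomial.natTrailingDegree_monomial hs

theorem le_mult {ρ σ n : ℕ} {B : R2} (wB : WH ρ σ n B) (hσ : 1 ≤ σ) {t : Fin 2 →₀ ℕ}
    (ht : coeff t B ≠ 0) : Polynomial.rootMultiplicity 0 (c1 B) ≤ t 0 := by
  rw [Polynomial.rootMultiplicity_eq_natTrailingDegree']
  apply Polynomial.natTrailingDegree_le_of_ne_zero
  rw [c1_coeff_of hσ wB ht]
  exact ht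

/-- a leading form divisible by `x` and `y` is a monomial `x ^ α y ^ β`, `α ≠ β` -/
theorem corner {ρ σ D n e : ℕ} {A B U : R2} {c : ℂ} (h : Ind ρ σ D n e A B U c)
    (hρ : 1 ≤ ρ) (hσ : 1 ≤ σ) (hD : 1 ≤ D) (hx : ∀ s, coeff s A ≠ 0 → 1 ≤ s 0)
    (hy : ∀ s, coeff s A ≠ 0 → 1 ≤ s 1) :
    ∃ s : Fin 2 →₀ ℕ, 1 ≤ s 0 ∧ 1 ≤ s 1 ∧ s 0 ≠ s 1 ∧ coeff s A ≠ 0 ∧
      ∀ t, coeff t A ≠ 0 → t = s := by
  obtain ⟨s, hs, hu⟩ := corner_uniq h hρ hσ hD hx hy
  refine ⟨s, hx s hs, hy s hs, fun heq => ?_, hs, hu⟩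
  have hsw := h.swap
  have h1 := mult_uniq h.wA hσ hs hu
  have hu' : ∀ t, coeff t (sw A) ≠ 0 → t = swf s := by
    intro t ht
    rw [coeff_sw] at ht
    rw [← hu _ ht, swf_swf]
  have h2 := mult_uniq hsw.wA hρ (s := swf s) (by rw [coeff_sw, swf_swf]; exact hs) hu'
  rw [swf_zero] at h2
  have m1 := h.mult hσ 0 (by rw [h1]; exact hx s hs)
  have m2 := hsw.mult hρ 0 (by rw [h2]; exact hy s hs)
  rw [h1] at m1
  rw [h2] at m2
  have hDs := h.wA s hs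
  set ν := Polynomial.rootMultiplicity 0 (c1 B) with hν
  set ν' := Polynomial.rootMultiplicity 0 (c1 (sw B)) with hν'
  have hs0 := hx s hs
  rw [← heq] at m2 hDs
  have k1 : (ρ + σ) * ν = n := by
    have e1 : s 0 * ((ρ + σ) * ν) = s 0 * n := by
      rw [← hDs] at m1
      nlinarith
    exact Nat.eq_of_mul_eq_mul_left (by omega) e1
  have k2 : (ρ + σ) * ν' = n := by
    have e1 : s 0 * ((ρ + σ) * ν') = s 0 * n := by
      rw [← hDs] at m2
      nlinarith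
    exact Nat.eq_of_mul_eq_mul_left (by omega) e1
  have k3 : ν' = ν := Nat.eq_of_mul_eq_mul_left (show 0 < ρ + σ by omega) (k2.trans k1.symm)
  have hB : ∀ t, coeff t B ≠ 0 → t = Finsupp.single 0 ν + Finsupp.single 1 ν := by
    intro t ht
    have l1 := le_mult h.wB hσ ht
    have l2 := le_mult hsw.wB hρ (t := swf t) (by rw [coeff_sw, swf_swf]; exact ht)
    rw [swf_zero, ← hν', k3] at l2
    rw [← hν] at l1
    have l3 := h.wB t ht
    have l4 : ρ * ν ≤ ρ * t 0 := Nat.mul_le_mul_left ρ l1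
    have l5 : σ * ν ≤ σ * t 1 := Nat.mul_le_mul_left σ l2
    have l6 : (ρ + σ) * ν = ρ * ν + σ * ν := add_mul _ _ _
    have l7 : ρ * t 0 = ρ * ν := by omega
    have l8 : σ * t 1 = σ * ν := by omega
    have l9 := Nat.eq_of_mul_eq_mul_left (show 0 < ρ by omega) l7
    have l10 := Nat.eq_of_mul_eq_mul_left (show 0 < σ by omega) l8
    ext j
    fin_cases j
    · simp [l9]
    · simp [l10]
  have eA := eq_mono hu
  have eB := eq_mono hB
  have f0 : (Finsupp.single 0 ν + Finsupp.single 1 ν : Fin 2 →₀ ℕ) 0 = ν := by simp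
  have f1 : (Finsupp.single 0 ν + Finsupp.single 1 ν : Fin 2 →₀ ℕ) 1 = ν := by simp
  rw [f0, f1, ← mul_pow] at eB
  rw [← heq, ← mul_pow] at eA
  apply h.hU
  rw [← h.hbr, eA, eB]
  unfold br
  rw [pderiv_C_mul, pderiv_C_mul, pderiv_C_mul, pderiv_C_mul, pderiv_pow, pderiv_pow, pderiv_pow,
    pderiv_pow]
  ring

end Pool.Agent.KXS
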