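import Pool.Agent.KXS.Cross

/-!
# Slopes `≤ 0` on the `x`-axis
-/

set_option autoImplicit false

open MvPolynomial

namespace Pool.Agent.KXS

/-- one of the components of a Keller map has a linear term `y` -/
theorem exists_y {P Q : R2} (hJ : br P Q = 1) :
    coeff (Finsupp.single 1 1) P ≠ 0 ∨ coeff (Finsupp.single 1 1) Q ≠ 0 := by
  by_contra h
  push Not at h
  have h1 := congrArg (constantCoeff (R := ℂ) (σ := Fin 2)) hJ
  unfold br at h1
  rw [map_sub, map_mul, map_mul, map_one] at h1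
  simp only [constantCoeff_eq, coeff_pderiv, zero_add] at h1
  rw [h.1, h.2] at h1
  simp at h1

/-- on the `y`-axis there is always a function with a finite slope -/
theorem exists_T {P Q P' Q' : R2} (hJ : br P Q = 1)
    (hP : (X 0 * X 1 : R2) ∣ P - P') (hQ : (X 0 * X 1 : R2) ∣ Q - Q') :
    ∃ (T : R2) (n : ℕ) (L : ℝ), 0 ≤ L ∧ 1 ≤ n ∧
      coeff (Finsupp.single 1 n) (aeval ![P, Q] T) ≠ 0 ∧
      (∀ s : Fin 2 →₀ ℕ, coeff s (aeval ![P, Q] T) ≠ 0 → (s 1 : ℝ) ≤ n + L * s 0) ∧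
      (∀ s : Fin 2 →₀ ℕ, coeff s (aeval ![P', Q'] T) ≠ 0 → (s 1 : ℝ) ≤ n + L * s 0) := by
  have key : ∀ f f' : R2, (X 0 * X 1 : R2) ∣ f - f' → coeff (Finsupp.single 1 1) f ≠ 0 →
      ∃ (n : ℕ) (L : ℝ), 0 ≤ L ∧ 1 ≤ n ∧ coeff (Finsupp.single 1 n) f ≠ 0 ∧
      (∀ s : Fin 2 →₀ ℕ, coeff s f ≠ 0 → (s 1 : ℝ) ≤ n + L * s 0) ∧
      (∀ s : Fin 2 →₀ ℕ, coeff s f' ≠ 0 → (s 1 : ℝ) ≤ n + L * s 0) := by
    intro f f' hd h1
    classical
    set A : Finset ℕ := (Finset.range (f.totalDegree + 1)).filter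
      (fun j => coeff (Finsupp.single 1 j) f ≠ 0) with hA
    have hdeg : ∀ (p : R2) (s : Fin 2 →₀ ℕ), coeff s p ≠ 0 → s 1 ≤ p.totalDegree := by
      intro p s hs
      have h2 := le_totalDegree (mem_support_iff.2 hs)
      have h3 : (s.sum fun _ e => e) = s.degree := rfl
      rw [h3] at h2
      exact (Finsupp.le_degree 1 s).trans h2
    have hmem : ∀ j, coeff (Finsupp.single 1 j) f ≠ 0 → j ∈ A := by
      intro j hj
      rw [hA, Finset.mem_filter, Finset.mem_range]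
      have := hdeg f _ hj
      rw [Finsupp.single_eq_same] at this
      exact ⟨by omega, hj⟩
    have hne : A.Nonempty := ⟨1, hmem 1 h1⟩
    set n := A.max' hne with hn
    have hnA : n ∈ A := A.max'_mem hne
    have hmax : ∀ j, coeff (Finsupp.single 1 j) f ≠ 0 → j ≤ n := fun j hj =>
      A.le_max' j (hmem j hj)
    refine ⟨n, (f.totalDegree : ℝ) + f'.totalDegree, by positivity, hmax 1 h1,
      (Finset.mem_filter.1 hnA).2, ?_, ?_⟩
    · intro s hs
      by_cases h0 : s 0 = 0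
      · have hse : s = Finsupp.single 1 (s 1) := by
          ext j
          fin_cases j
          · simpa using h0
          · simp
        rw [hse] at hs
        have h2 := hmax _ hs
        rw [h0]
        have h3 : (s 1 : ℝ) ≤ n := by exact_mod_cast h2
        simpa using h3
      · have h2 := hdeg f s hs
        have h3 : (s 1 : ℝ) ≤ f.totalDegree := by exact_mod_cast h2
        have h4 : (1 : ℝ) ≤ s 0 := by exact_mod_cast (Nat.one_le_iff_ne_zero.2 h0)
        have h5 : (0 : ℝ) ≤ n := by positivity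
        have h6 : (0 : ℝ) ≤ (f.totalDegree : ℝ) + f'.totalDegree := by positivity
        have h7 : (0 : ℝ) ≤ (f'.totalDegree : ℝ) := by positivity
        nlinarith
    · intro s hs
      by_cases h0 : s 0 = 0
      · have hse : s = Finsupp.single 1 (s 1) := by
          ext j
          fin_cases j
          · simpa using h0
          · simp
        have h8 : coeff s f ≠ 0 := by
          have := (cross_dvd_iff _).1 hd s (Or.inl h0)
          rw [coeff_sub, sub_eq_zero] at this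
          rw [this]; exact hs
        rw [hse] at h8
        have h2 := hmax _ h8
        rw [h0]
        have h3 : (s 1 : ℝ) ≤ n := by exact_mod_cast h2
        simpa using h3
      · have h2 := hdeg f' s hs
        have h3 : (s 1 : ℝ) ≤ f'.totalDegree := by exact_mod_cast h2
        have h4 : (1 : ℝ) ≤ s 0 := by exact_mod_cast (Nat.one_le_iff_ne_zero.2 h0)
        have h5 : (0 : ℝ) ≤ n := by positivity
        have h6 : (0 : ℝ) ≤ (f.totalDegree : ℝ) + f'.totalDegree := by positivity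
        have h7 : (0 : ℝ) ≤ (f.totalDegree : ℝ) := by positivity
        nlinarith
  rcases exists_y hJ with h | h
  · obtain ⟨n, L, h1, h2, h3, h4, h5⟩ := key P P' hP h
    exact ⟨X 0, n, L, h1, h2, by simpa using h3, by simpa using h4, by simpa using h5⟩
  · obtain ⟨n, L, h1, h2, h3, h4, h5⟩ := key Q Q' hQ h
    exact ⟨X 1, n, L, h1, h2, by simpa using h3, by simpa using h4, by simpa using h5⟩

theorem eq_of_nonpos {P Q P' Q' S : R2} {K : ℝ} {m : ℕ} (hJ : br P Q = 1)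
    (hJ' : br P' Q' = 1) (hP : (X 0 * X 1 : R2) ∣ P - P') (hQ : (X 0 * X 1 : R2) ∣ Q - Q')
    (hK : K ≤ 0) (hm : 1 ≤ m)
    (wf : ∀ s : Fin 2 →₀ ℕ, coeff s (aeval ![P, Q] S) ≠ 0 → (s 0 : ℝ) ≤ m + K * s 1)
    (wf' : ∀ s : Fin 2 →₀ ℕ, coeff s (aeval ![P', Q'] S) ≠ 0 → (s 0 : ℝ) ≤ m + K * s 1)
    (hc : coeff (Finsupp.single 0 m) (aeval ![P, Q] S) ≠ 0) : P = P' ∧ Q = Q' := by
  obtain ⟨T, n, L, hL, hn, hd, wg, wg'⟩ := exists_T hJ hP hQ
  have hw : ∀ f : R2, (∀ s : Fin 2 →₀ ℕ, coeff s f ≠ 0 → (s 0 : ℝ) ≤ m + K * s 1) →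
      ∀ s : Fin 2 →₀ ℕ, coeff s f ≠ 0 → (s 0 : ℝ) ≤ m + 0 * s 1 := by
    intro f h s hs
    have h1 := h s hs
    have h2 : K * (s 1 : ℝ) ≤ 0 := mul_nonpos_of_nonpos_of_nonneg hK (by positivity)
    linarith
  exact eq_of_slopes hJ hJ' hP hQ le_rfl hL (by linarith) hm hn (hw _ wf) (hw _ wf') hc wg wg' hd

end Pool.Agent.KXS
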