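import Pool.Agent.KXS.Corner
import Pool.Agent.KXS.Zero

/-!
# The corner theorem
-/

set_option autoImplicit false

open MvPolynomial

namespace Pool.Agent.KXS

theorem eq_of_neg_sw {P Q P' Q' : R2} {K : ℝ} {m : ℕ} (hJ : br P Q = 1)
    (hJ' : br P' Q' = 1) (hP : (X 0 * X 1 : R2) ∣ P - P') (hQ : (X 0 * X 1 : R2) ∣ Q - Q')
    (hK : K ≤ 0) (hm : 1 ≤ m)
    (wf : ∀ s : Fin 2 →₀ ℕ, coeff s P ≠ 0 → (s 1 : ℝ) ≤ m + K * s 0)
    (wf' : ∀ s : Fin 2 →₀ ℕ, coeff s P' ≠ 0 → (s 1 : ℝ) ≤ m + K * s 0)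
    (hc : coeff (Finsupp.single 1 m) P ≠ 0) : P = P' ∧ Q = Q' := by
  have hs1 : swf (Finsupp.single 0 m) = Finsupp.single 1 m := by
    unfold swf
    rw [Finsupp.mapDomain_single, Equiv.swap_apply_left]
  have hb : br (sw Q) (sw P) = 1 := by rw [br_sw, hJ, map_one]
  have hb' : br (sw Q') (sw P') = 1 := by rw [br_sw, hJ', map_one]
  have h1 : (X 0 * X 1 : R2) ∣ sw P - sw P' := by
    have := sw_dvd hP
    rwa [sw_cross, map_sub] at this
  have h2 : (X 0 * X 1 : R2) ∣ sw Q - sw Q' := by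
    have := sw_dvd hQ
    rwa [sw_cross, map_sub] at this
  have hx : ∀ A B : R2, aeval ![A, B] (X 1 : R2) = B := by
    intro A B
    rw [aeval_X]
    rfl
  have key := eq_of_nonpos (P := sw Q) (Q := sw P) (P' := sw Q') (Q' := sw P') (S := X 1)
    (K := K) (m := m) hb hb' h2 h1 hK hm
    (by
      intro s hs
      rw [hx, coeff_sw] at hs
      have := wf _ hs
      rwa [swf_zero, swf_one] at this)
    (by
      intro s hs
      rw [hx, coeff_sw] at hs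
      have := wf' _ hs
      rwa [swf_zero, swf_one] at this)
    (by rw [hx, coeff_sw, hs1]; exact hc)
  constructor
  · rw [← sw_sw P, key.2, sw_sw]
  · rw [← sw_sw Q, key.1, sw_sw]

theorem wd_eq {ρ σ D : ℕ} {P : R2} (w : ∀ s, coeff s P ≠ 0 → ρ * s 0 + σ * s 1 ≤ D)
    (hD : ∃ s, coeff s P ≠ 0 ∧ ρ * s 0 + σ * s 1 = D) : wd ρ σ P = D := by
  apply le_antisymm
  · unfold wd
    rw [Polynomial.natDegree_le_iff_coeff_eq_zero]
    intro i hi
    ext s
    rw [coeff_Psi, coeff_zero]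
    split_ifs with h
    · by_contra h1
      have := w s h1
      omega
    · rfl
  · obtain ⟨s, hs, h⟩ := hD
    apply Polynomial.le_natDegree_of_ne_zero
    intro h0
    have h1 := coeff_Psi ρ σ P D s
    rw [h0, coeff_zero, if_pos h] at h1
    exact hs h1.symm

theorem exists_pos_mono {P Q : R2} (hJ : br P Q = 1) : ∃ s, coeff s P ≠ 0 ∧ s ≠ 0 := by
  by_contra h
  push Not at h
  have h1 : P = C (coeff 0 P) := by
    ext s
    rw [coeff_C]
    split_ifs with h2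
    · rw [h2]
    · by_contra h3
      exact h2 (h s h3).symm
  rw [h1] at hJ
  unfold br at hJ
  simp at hJ

theorem corner_thm {P Q P' Q' : R2} {ρ σ D : ℕ} (hJ : br P Q = 1) (hJ' : br P' Q' = 1)
    (hP : (X 0 * X 1 : R2) ∣ P - P') (hQ : (X 0 * X 1 : R2) ∣ Q - Q')
    (hρ : 1 ≤ ρ) (hσ : 1 ≤ σ) (w : ∀ s, coeff s P ≠ 0 → ρ * s 0 + σ * s 1 ≤ D)
    (w' : ∀ s, coeff s P' ≠ 0 → ρ * s 0 + σ * s 1 ≤ D)
    (hD : ∃ s, coeff s P ≠ 0 ∧ ρ * s 0 + σ * s 1 = D) (hne : ¬ (P = P' ∧ Q = Q')) :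
    ∃ s : Fin 2 →₀ ℕ, 1 ≤ s 0 ∧ 1 ≤ s 1 ∧ s 0 ≠ s 1 ∧ coeff s P ≠ 0 ∧
      ρ * s 0 + σ * s 1 = D ∧ ∀ t, coeff t P ≠ 0 → ρ * t 0 + σ * t 1 = D → t = s := by
  have hwd := wd_eq w hD
  have hD1 : 1 ≤ D := by
    obtain ⟨s, hs, hs0⟩ := exists_pos_mono hJ
    have h1 := w s hs
    have h2 : s 0 ≠ 0 ∨ s 1 ≠ 0 := by
      by_contra h
      push Not at h
      apply hs0
      ext j
      fin_cases j
      · exact h.1
      · exact h.2
    rcases h2 with h2 | h2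
    · have : ρ * 1 ≤ ρ * s 0 := Nat.mul_le_mul_left ρ (by omega)
      omega
    · have : σ * 1 ≤ σ * s 1 := Nat.mul_le_mul_left σ (by omega)
      omega
  have hlf : ∀ s, coeff s (lf ρ σ P) = if ρ * s 0 + σ * s 1 = D then coeff s P else 0 := by
    intro s
    rw [lf_eq, hwd, coeff_Psi]
  have hx1 : ∀ A B : R2, aeval ![A, B] (X 0 : R2) = A := by
    intro A B
    rw [aeval_X]
    rfl
  -- no monomial of maximal weight on the axes
  have hy : ∀ s, coeff s (lf ρ σ P) ≠ 0 → 1 ≤ s 1 := by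
    intro s hs
    rw [hlf] at hs
    have hwt : ρ * s 0 + σ * s 1 = D := by
      by_contra h
      exact hs (if_neg h)
    rw [if_pos hwt] at hs
    by_contra h0
    have h1 : s 1 = 0 := by omega
    have hse : s = Finsupp.single 0 (s 0) := by
      ext j
      fin_cases j
      · simp
      · simpa using h1
    rw [h1, mul_zero, add_zero] at hwt
    have hm : 1 ≤ s 0 := by
      by_contra h
      have : s 0 = 0 := by omega
      rw [this, mul_zero] at hwt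
      omega
    apply hne
    have hρ' : (0 : ℝ) < ρ := by exact_mod_cast hρ
    have aux : ∀ f : R2, (∀ t, coeff t f ≠ 0 → ρ * t 0 + σ * t 1 ≤ D) →
        ∀ t : Fin 2 →₀ ℕ, coeff t f ≠ 0 → (t 0 : ℝ) ≤ (s 0 : ℕ) + (-(σ : ℝ) / ρ) * t 1 := by
      intro f hf t ht
      have h2 := hf t ht
      rw [← hwt] at h2
      have h3 : (ρ : ℝ) * t 0 + σ * t 1 ≤ ρ * s 0 := by exact_mod_cast h2
      have h4 : (t 0 : ℝ) ≤ s 0 - σ * t 1 / ρ := by
        rw [le_sub_iff_add_le, ← le_sub_iff_add_le', div_le_iff₀ hρ']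
        linarith
      calc (t 0 : ℝ) ≤ s 0 - σ * t 1 / ρ := h4
        _ = (s 0 : ℕ) + (-(σ : ℝ) / ρ) * t 1 := by ring
    refine eq_of_nonpos (S := X 0) (K := -(σ : ℝ) / ρ) (m := s 0) hJ hJ' hP hQ
      (by rw [neg_div]; simp only [Left.neg_nonpos_iff]; positivity) hm ?_ ?_ ?_
    · rw [hx1]; exact aux P w
    · rw [hx1]; exact aux P' w'
    · rw [hx1, ← hse]; exact hs
  have hx : ∀ s, coeff s (lf ρ σ P) ≠ 0 → 1 ≤ s 0 := by
    intro s hs
    rw [hlf] at hs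
    have hwt : ρ * s 0 + σ * s 1 = D := by
      by_contra h
      exact hs (if_neg h)
    rw [if_pos hwt] at hs
    by_contra h0
    have h1 : s 0 = 0 := by omega
    have hse : s = Finsupp.single 1 (s 1) := by
      ext j
      fin_cases j
      · simpa using h1
      · simp
    rw [h1, mul_zero, zero_add] at hwt
    have hm : 1 ≤ s 1 := by
      by_contra h
      have : s 1 = 0 := by omega
      rw [this, mul_zero] at hwt
      omega
    apply hne
    have hσ' : (0 : ℝ) < σ := by exact_mod_cast hσ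
    have aux : ∀ f : R2, (∀ t, coeff t f ≠ 0 → ρ * t 0 + σ * t 1 ≤ D) →
        ∀ t : Fin 2 →₀ ℕ, coeff t f ≠ 0 → (t 1 : ℝ) ≤ (s 1 : ℕ) + (-(ρ : ℝ) / σ) * t 0 := by
      intro f hf t ht
      have h2 := hf t ht
      rw [← hwt] at h2
      have h3 : (ρ : ℝ) * t 0 + σ * t 1 ≤ σ * s 1 := by exact_mod_cast h2
      have h4 : (t 1 : ℝ) ≤ s 1 - ρ * t 0 / σ := by
        rw [le_sub_iff_add_le, ← le_sub_iff_add_le', div_le_iff₀ hσ']
        linarith
      calc (t 1 : ℝ) ≤ s 1 - ρ * t 0 / σ := h4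
        _ = (s 1 : ℕ) + (-(ρ : ℝ) / σ) * t 0 := by ring
    refine eq_of_neg_sw (K := -(ρ : ℝ) / σ) (m := s 1) hJ hJ' hP hQ
      (by rw [neg_div]; simp only [Left.neg_nonpos_iff]; positivity) hm (aux P w) (aux P' w') ?_
    rw [← hse]; exact hs
  obtain ⟨n, e, B, U, c, hI⟩ := exists_Ind (ρ := ρ) (σ := σ) hJ (by rw [hwd]; exact hD1)
  obtain ⟨s, h0, h1, h01, hs, hu⟩ := corner hI hρ hσ (by rw [hwd]; exact hD1) hx hy
  rw [hlf] at hs
  have hwt : ρ * s 0 + σ * s 1 = D := by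
    by_contra h
    exact hs (if_neg h)
  rw [if_pos hwt] at hs
  refine ⟨s, h0, h1, h01, hs, hwt, fun t ht hwt' => hu t ?_⟩
  rw [hlf, if_pos hwt']
  exact ht

end Pool.Agent.KXS
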