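import Pool.Agent.KXS.Lead

/-!
# Dependent forms and the existence of an independent one
-/

set_option autoImplicit false

open MvPolynomial

namespace Pool.Agent.KXS

/-- an injective additive weight -/
noncomputable def lam (s : Fin 2 →₀ ℕ) : ℝ := (s 0 : ℝ) + Real.sqrt 2 * s 1

theorem lam_add (a b : Fin 2 →₀ ℕ) : lam (a + b) = lam a + lam b := by
  unfold lam
  simp only [Finsupp.add_apply, Nat.cast_add]
  ring

theorem lam_inj {a b : Fin 2 →₀ ℕ} (h : lam a = lam b) : a = b := by
  unfold lam at h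
  have h1 : ((a 0 : ℝ) - b 0) = Real.sqrt 2 * ((b 1 : ℝ) - a 1) := by linarith
  have h2 : a 1 = b 1 := by
    by_contra hne
    have hne' : ((b 1 : ℝ) - a 1) ≠ 0 := by
      intro h0
      have : (a 1 : ℝ) = b 1 := by linarith
      exact hne (by exact_mod_cast this)
    apply irrational_sqrt_two
    refine ⟨((a 0 : ℚ) - b 0) / ((b 1 : ℚ) - a 1), ?_⟩
    push_cast
    rw [div_eq_iff hne', h1]
  have h3 : a 0 = b 0 := by
    rw [h2] at h1
    have : (a 0 : ℝ) = b 0 := by linarith
    exact_mod_cast this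
  ext j
  fin_cases j
  · exact h3
  · exact h2

/-- `k` is the top monomial of `f` -/
def Top (f : R2) (k : Fin 2 →₀ ℕ) : Prop :=
  coeff k f ≠ 0 ∧ ∀ s, coeff s f ≠ 0 → lam s ≤ lam k

theorem exists_top {f : R2} (hf : f ≠ 0) : ∃ k, Top f k := by
  obtain ⟨s, hs⟩ := (MvPolynomial.ne_zero_iff).1 hf
  obtain ⟨k, hk, hmax⟩ := f.support.exists_max_image lam ⟨s, mem_support_iff.2 hs⟩
  exact ⟨k, mem_support_iff.1 hk, fun t ht => hmax t (mem_support_iff.2 ht)⟩

theorem coeff_top_mul {f g : R2} {a b : Fin 2 →₀ ℕ}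
    (ha : ∀ s, coeff s f ≠ 0 → lam s ≤ lam a) (hb : ∀ s, coeff s g ≠ 0 → lam s ≤ lam b) :
    coeff (a + b) (f * g) = coeff a f * coeff b g := by
  classical
  rw [coeff_mul, Finset.sum_eq_single (a, b)]
  · rintro ⟨s, t⟩ hst hne
    rw [Finset.HasAntidiagonal.mem_antidiagonal] at hst
    simp only at hst
    by_cases h1 : coeff s f = 0
    · rw [h1, zero_mul]
    by_cases h2 : coeff t g = 0
    · rw [h2, mul_zero]
    exfalso
    have h3 := ha s h1
    have h4 := hb t h2
    have h5 : lam s + lam t = lam a + lam b := by rw [← lam_add, ← lam_add, hst]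
    exact hne (by rw [lam_inj (show lam s = lam a by linarith),
      lam_inj (show lam t = lam b by linarith)])
  · intro h
    exact absurd (by rw [Finset.HasAntidiagonal.mem_antidiagonal]) h

theorem coeff_XE (i : Fin 2) (f : R2) (s : Fin 2 →₀ ℕ) :
    coeff s (X i * pderiv i f) = (s i : ℂ) * coeff s f :=
  Pool.Agent.KellerCross.coeff_E (L := ℂ) i f s

theorem top_eq {A B : R2} {a b : Fin 2 →₀ ℕ} (ha : Top A a) (hb : Top B b)
    (h : ∀ i : Fin 2, A * pderiv i B = B * pderiv i A) : a = b := by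
  have key : ∀ i : Fin 2, a i = b i := by
    intro i
    have h1 : A * (X i * pderiv i B) = B * (X i * pderiv i A) := by
      linear_combination X i * h i
    have h2 := congrArg (coeff (a + b)) h1
    rw [coeff_top_mul ha.2 (b := b) (fun s hs => hb.2 s (by
      rw [coeff_XE] at hs; exact right_ne_zero_of_mul hs)), add_comm a b,
      coeff_top_mul hb.2 (b := a) (fun s hs => ha.2 s (by
      rw [coeff_XE] at hs; exact right_ne_zero_of_mul hs)), coeff_XE, coeff_XE] at h2
    have h3 : ((a i : ℂ) - b i) * (coeff a A * coeff b B) = 0 := by linear_combination -h2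
    rcases mul_eq_zero.1 h3 with h4 | h4
    · have : (a i : ℂ) = b i := sub_eq_zero.1 h4
      exact_mod_cast this
    · exact absurd h4 (mul_ne_zero ha.1 hb.1)
  ext i
  exact key i

theorem prop_of_grad {A B : R2} (hA : A ≠ 0) (hB : B ≠ 0)
    (h : ∀ i : Fin 2, A * pderiv i B = B * pderiv i A) : ∃ c : ℂ, c ≠ 0 ∧ B = C c * A := by
  obtain ⟨a, ha⟩ := exists_top hA
  obtain ⟨b, hb⟩ := exists_top hB
  have hab := top_eq ha hb h
  subst hab
  set H : R2 := C (coeff a A) * B - C (coeff a B) * A with hH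
  have h0 : H = 0 := by
    by_contra hne
    obtain ⟨k, hk⟩ := exists_top hne
    have h1 := top_eq ha hk (fun i => by
      rw [hH, map_sub, pderiv_C_mul, pderiv_C_mul]
      linear_combination C (coeff a A) * h i)
    subst h1
    apply hk.1
    rw [hH, coeff_sub, coeff_C_mul, coeff_C_mul]
    ring
  refine ⟨coeff a B / coeff a A, div_ne_zero hb.1 ha.1, ?_⟩
  have h2 : C (coeff a A) * B = C (coeff a B) * A := sub_eq_zero.1 h0
  have h3 : (C (coeff a A) : R2) * C (1 / coeff a A) = 1 := by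
    rw [← C_mul, mul_one_div_cancel ha.1, C_1]
  have h4 : (C (coeff a B / coeff a A) : R2) = C (1 / coeff a A) * C (coeff a B) := by
    rw [← C_mul]; congr 1; ring
  rw [h4]
  linear_combination C (1 / coeff a A) * h2 - B * h3

theorem dep {ρ σ k l : ℕ} (hk : 1 ≤ k) {A B : R2} (wA : WH ρ σ k A) (wB : WH ρ σ l B)
    (hA : A ≠ 0) (hB : B ≠ 0) (h : br A B = 0) : ∃ c : ℂ, c ≠ 0 ∧ B ^ k = C c * A ^ l := by
  have eA := euler wA
  have eB := euler wB
  unfold br at h
  have h0 : ∀ i : Fin 2, (k : R2) * (A * pderiv i B) = (l : R2) * (B * pderiv i A) := by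
    intro i
    fin_cases i
    · show (k : R2) * (A * pderiv 0 B) = (l : R2) * (B * pderiv 0 A)
      linear_combination (-(pderiv 0 B)) * eA + (pderiv 0 A) * eB - (σ : R2) * X 1 * h
    · show (k : R2) * (A * pderiv 1 B) = (l : R2) * (B * pderiv 1 A)
      linear_combination (-(pderiv 1 B)) * eA + (pderiv 1 A) * eB + (ρ : R2) * X 0 * h
  refine prop_of_grad (pow_ne_zero l hA) (pow_ne_zero k hB) fun i => ?_
  obtain ⟨k', rfl⟩ : ∃ k', k = k' + 1 := ⟨k - 1, by omega⟩
  rw [pderiv_pow, pderiv_pow, Nat.add_sub_cancel]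
  rcases Nat.eq_zero_or_pos l with hl | hl
  · subst hl
    have h1 := h0 i
    simp only [Nat.cast_zero, zero_mul] at h1
    have h2 : pderiv i B = 0 := by
      rcases mul_eq_zero.1 h1 with h3 | h3
      · exact absurd h3 (by exact_mod_cast Nat.succ_ne_zero k')
      · exact (mul_eq_zero.1 h3).resolve_left hA
    rw [h2]
    simp
  · obtain ⟨l', rfl⟩ : ∃ l', l = l' + 1 := ⟨l - 1, by omega⟩
    rw [Nat.add_sub_cancel, pow_succ, pow_succ]
    linear_combination A ^ l' * B ^ k' * h0 i

/-- the algorithm: an independent leading form -/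
theorem exists_indep {ρ σ : ℕ} {P Q : R2} (hJ : br P Q = 1) (hD : 1 ≤ wd ρ σ P) :
    ∃ T : R2, T ≠ 0 ∧ br P T ≠ 0 ∧ wd ρ σ (br P T) + (ρ + σ) = wd ρ σ P + wd ρ σ T ∧
      br (lf ρ σ P) (lf ρ σ T) = lf ρ σ (br P T) ∧
      ∃ c : ℂ, c ≠ 0 ∧ lf ρ σ (br P T) ^ wd ρ σ P = C c * lf ρ σ P ^ wd ρ σ (br P T) := by
  have hP : P ≠ 0 := by
    rintro rfl
    unfold br at hJ
    simp at hJ
  have key : ∀ (δ : ℕ) (T : R2), br P T ≠ 0 →
      wd ρ σ P + wd ρ σ T ≤ wd ρ σ (br P T) + (ρ + σ) + δ →
      (∃ c : ℂ, c ≠ 0 ∧ lf ρ σ (br P T) ^ wd ρ σ P = C c * lf ρ σ P ^ wd ρ σ (br P T)) →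
      ∃ T : R2, T ≠ 0 ∧ br P T ≠ 0 ∧ wd ρ σ (br P T) + (ρ + σ) = wd ρ σ P + wd ρ σ T ∧
      br (lf ρ σ P) (lf ρ σ T) = lf ρ σ (br P T) ∧
      ∃ c : ℂ, c ≠ 0 ∧ lf ρ σ (br P T) ^ wd ρ σ P = C c * lf ρ σ P ^ wd ρ σ (br P T) := by
    intro δ
    induction δ with
    | zero =>
      intro T hT hle hc
      have hT0 : T ≠ 0 := by
        rintro rfl
        apply hT
        unfold br
        simp
      rcases lf_br (ρ := ρ) (σ := σ) hT with ⟨h1, h2⟩ | ⟨h1, h2⟩
      · exact ⟨T, hT0, hT, h1, h2, hc⟩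
      · omega
    | succ δ ih =>
      intro T hT hle hc
      have hT0 : T ≠ 0 := by
        rintro rfl
        apply hT
        unfold br
        simp
      rcases lf_br (ρ := ρ) (σ := σ) hT with ⟨h1, h2⟩ | ⟨h1, h2⟩
      · exact ⟨T, hT0, hT, h1, h2, hc⟩
      · obtain ⟨c, hc0, hc⟩ := hc
        obtain ⟨e, he0, he⟩ := dep hD (WH_lf ρ σ P) (WH_lf ρ σ T) (lf_ne hP) (lf_ne hT0) h2
        set D := wd ρ σ P with hDdef
        set n := wd ρ σ T with hn
        obtain ⟨D', hD'⟩ : ∃ D', D = D' + 1 := ⟨D - 1, by omega⟩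
        set T' : R2 := T ^ D - C e * P ^ n with hT'
        have hbr : br P T' = (D : R2) * T ^ D' * br P T := by
          unfold br
          rw [hT', map_sub, map_sub, pderiv_C_mul, pderiv_C_mul, pderiv_pow, pderiv_pow,
            pderiv_pow, pderiv_pow, hD', Nat.add_sub_cancel]
          ring
        have hDne : (D : R2) ≠ 0 := by
          rw [hD']
          exact_mod_cast Nat.succ_ne_zero D'
        have hbr0 : br P T' ≠ 0 := by
          rw [hbr]
          exact mul_ne_zero (mul_ne_zero hDne (pow_ne_zero _ hT0)) hT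
        have hDC : (D : R2) = C (D : ℂ) := by simp
        have hwU : wd ρ σ (br P T') = D' * n + wd ρ σ (br P T) := by
          rw [hbr, wd_mul (mul_ne_zero hDne (pow_ne_zero _ hT0)) hT,
            wd_mul hDne (pow_ne_zero _ hT0), wd_pow, hDC, wd_C, zero_add]
        have hlU : lf ρ σ (br P T') = C (D : ℂ) * lf ρ σ T ^ D' * lf ρ σ (br P T) := by
          rw [hbr, lf_mul, lf_mul, lf_pow, hDC, lf_C]
        have hT'0 : T' ≠ 0 := by
          intro h0
          apply hbr0
          rw [h0]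
          unfold br
          simp
        have hwT' : wd ρ σ T' < D * n := by
          have h3 : (Psi ρ σ T').coeff (D * n) = 0 := by
            rw [hT', map_sub, Polynomial.coeff_sub, map_mul, Psi_C, Polynomial.coeff_C_mul]
            have e1 : (Psi ρ σ (T ^ D)).coeff (D * n) = lf ρ σ T ^ D := by
              rw [← lf_pow, lf_eq, wd_pow]
            have e2 : (Psi ρ σ (P ^ n)).coeff (D * n) = lf ρ σ P ^ n := by
              rw [← lf_pow, lf_eq, wd_pow, mul_comm]
            rw [e1, e2, he, sub_self]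
          have h4 : wd ρ σ T' ≤ D * n := by
            unfold wd
            rw [hT', map_sub]
            refine (Polynomial.natDegree_sub_le _ _).trans (max_le ?_ ?_)
            · have := wd_pow (ρ := ρ) (σ := σ) (f := T) D
              unfold wd at this hn
              rw [this, ← hn]
            · rw [map_mul, Psi_C]
              refine (Polynomial.natDegree_C_mul_le _ _).trans ?_
              have := wd_pow (ρ := ρ) (σ := σ) (f := P) n
              unfold wd at this hDdef
              rw [this, ← hDdef, mul_comm]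
          refine lt_of_le_of_ne h4 fun h5 => ?_
          apply lf_ne (ρ := ρ) (σ := σ) hT'0
          rw [lf_eq, h5, h3]
        refine ih T' hbr0 ?_ ?_
        · rw [hwU]
          have : D * n = D' * n + n := by rw [hD']; ring
          omega
        · refine ⟨(D : ℂ) ^ D * e ^ D' * c, ?_, ?_⟩
          · refine mul_ne_zero (mul_ne_zero (pow_ne_zero _ ?_) (pow_ne_zero _ he0)) hc0
            rw [hD']
            exact_mod_cast Nat.succ_ne_zero D'
          · rw [hlU, mul_pow, mul_pow, hc, ← pow_mul, mul_comm D' D, pow_mul, he, mul_pow, hwU,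
              pow_add, C_mul, C_mul, C_pow, C_pow, ← pow_mul, mul_comm n D']
            ring
  refine key (wd ρ σ P + wd ρ σ Q) Q (by rw [hJ]; exact one_ne_zero) (by omega) ?_
  refine ⟨1, one_ne_zero, ?_⟩
  rw [hJ]
  have h1 : (1 : R2) = C 1 := by simp
  rw [h1, lf_C, wd_C, pow_zero]
  simp

end Pool.Agent.KXS
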