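import Pool.Agent.KXS.Zero

/-!
# Diagonal parts of polynomials in two variables

`dg w f` is the polynomial `∑ k, f_(w+k,k) u^k`, the part of weight `w` for the weights `(1, -1)`
divided by `x^w`, as a polynomial in `u = x y`.
-/

set_option autoImplicit false

open MvPolynomial

namespace Pool.Agent.KXS

/-- exponent pair -/
noncomputable def pt (i j : ℕ) : Fin 2 →₀ ℕ := Finsupp.single 0 i + Finsupp.single 1 j

theorem pt_zero (i j : ℕ) : pt i j 0 = i := by simp [pt]

theorem pt_one (i j : ℕ) : pt i j 1 = j := by simp [pt]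

theorem pt_eta (s : Fin 2 →₀ ℕ) : pt (s 0) (s 1) = s := by
  ext j
  fin_cases j
  · exact pt_zero _ _
  · exact pt_one _ _

theorem le_pt (s : Fin 2 →₀ ℕ) (i j : ℕ) : s ≤ pt i j ↔ s 0 ≤ i ∧ s 1 ≤ j := by
  constructor
  · intro h
    have h0 := h 0
    have h1 := h 1
    rw [pt_zero] at h0
    rw [pt_one] at h1
    exact ⟨h0, h1⟩
  · rintro ⟨h0, h1⟩ t
    fin_cases t
    · show s 0 ≤ pt i j 0
      rw [pt_zero]; exact h0
    · show s 1 ≤ pt i j 1
      rw [pt_one]; exact h1

theorem pt_sub (s : Fin 2 →₀ ℕ) (i j : ℕ) : pt i j - s = pt (i - s 0) (j - s 1) := by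
  ext t
  fin_cases t
  · show (pt i j - s) 0 = pt _ _ 0
    rw [Finsupp.tsub_apply, pt_zero, pt_zero]
  · show (pt i j - s) 1 = pt _ _ 1
    rw [Finsupp.tsub_apply, pt_one, pt_one]

/-- diagonal part -/
noncomputable def dg (w : ℕ) (f : R2) : Polynomial ℂ :=
  ∑ k ∈ Finset.range (f.totalDegree + 1), Polynomial.monomial k (coeff (pt (w + k) k) f)

theorem coeff_dg (w : ℕ) (f : R2) (k : ℕ) : (dg w f).coeff k = coeff (pt (w + k) k) f := by
  unfold dg
  rw [Polynomial.finsetSum_coeff]
  simp only [Polynomial.coeff_monomial]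
  rw [Finset.sum_ite_eq']
  split_ifs with h
  · rfl
  · rw [Finset.mem_range] at h
    by_contra h0
    have h2 := le_totalDegree (mem_support_iff.2 (Ne.symm h0))
    have h3 : ((pt (w + k) k).sum fun _ e => e) = (pt (w + k) k).degree := rfl
    rw [h3] at h2
    have h4 := (Finsupp.le_degree 1 (pt (w + k) k)).trans h2
    rw [pt_one] at h4
    omega

theorem dg_add (w : ℕ) (f g : R2) : dg w (f + g) = dg w f + dg w g := by
  ext k
  rw [Polynomial.coeff_add, coeff_dg, coeff_dg, coeff_dg, coeff_add]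

theorem dg_sub (w : ℕ) (f g : R2) : dg w (f - g) = dg w f - dg w g := by
  ext k
  rw [Polynomial.coeff_sub, coeff_dg, coeff_dg, coeff_dg, coeff_sub]

/-- substitution `u = x y` -/
noncomputable def Ev : Polynomial ℂ →ₐ[ℂ] R2 := Polynomial.aeval (X 0 * X 1)

theorem Ev_monomial (k : ℕ) (a : ℂ) : Ev (Polynomial.monomial k a) = monomial (pt k k) a := by
  unfold Ev pt
  rw [Polynomial.aeval_monomial, mul_pow, X_pow_eq_monomial, X_pow_eq_monomial, monomial_mul,
    algebraMap_eq, C_mul_monomial]
  simp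

theorem coeff_Ev (p : Polynomial ℂ) (s : Fin 2 →₀ ℕ) :
    coeff s (Ev p) = if s 0 = s 1 then p.coeff (s 0) else 0 := by
  induction p using Polynomial.induction_on' with
  | add p q hp hq =>
    rw [map_add, coeff_add, hp, hq, Polynomial.coeff_add]
    split_ifs <;> simp
  | monomial k a =>
    rw [Ev_monomial, coeff_monomial, Polynomial.coeff_monomial]
    by_cases h : pt k k = s
    · subst h
      rw [if_pos rfl, pt_zero, pt_one, if_pos rfl, if_pos rfl]
    · rw [if_neg h]
      split_ifs with h1 h2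
      · exfalso
        apply h
        rw [← pt_eta s, ← h1, ← h2]
      · rfl
      · rfl

theorem dg_monomial_mul (w : ℕ) (s : Fin 2 →₀ ℕ) (a : ℂ) (p : Polynomial ℂ) :
    dg w (monomial s a * Ev p) =
      if s 0 = w + s 1 then Polynomial.monomial (s 1) a * p else 0 := by
  ext k
  rw [coeff_dg, coeff_monomial_mul']
  by_cases h : s 0 = w + s 1
  · rw [if_pos h, ← Polynomial.C_mul_X_pow_eq_monomial, mul_assoc, Polynomial.coeff_C_mul,
      mul_comm (Polynomial.X ^ (s 1)), Polynomial.coeff_mul_X_pow']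
    by_cases h1 : s 1 ≤ k
    · rw [if_pos ((le_pt _ _ _).2 ⟨by omega, h1⟩), if_pos h1, pt_sub, coeff_Ev, pt_zero, pt_one, if_pos (by omega)]
      congr 2
      omega
    · rw [if_neg (fun h2 => h1 ((le_pt _ _ _).1 h2).2), if_neg h1, mul_zero]
  · rw [if_neg h, Polynomial.coeff_zero]
    split_ifs with h1
    · rw [le_pt] at h1
      rw [pt_sub, coeff_Ev, pt_zero, pt_one, if_neg (by omega), mul_zero]
    · rfl

theorem dg_zero_Ev (p : Polynomial ℂ) : dg 0 (Ev p) = p := by
  ext k
  rw [coeff_dg, coeff_Ev, pt_zero, pt_one, if_pos (by omega)]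
  congr 1
  omega

/-- Euler operator of `x` on the diagonal -/
theorem dg_E0 (f : R2) : dg 0 (X 0 * pderiv 0 f) = Polynomial.X * Polynomial.derivative (dg 0 f) := by
  ext k
  rw [coeff_dg]
  have h := Pool.Agent.KellerCross.coeff_E (L := ℂ) 0 f (pt (0 + k) k)
  unfold Pool.Agent.KellerCross.E at h
  rw [h, pt_zero]
  cases k with
  | zero => simp
  | succ k =>
    rw [Polynomial.coeff_X_mul, Polynomial.coeff_derivative, coeff_dg]
    push_cast
    ring

/-- box vanishing and the diagonal parts -/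
theorem dg_of_TT {M w N : ℕ} {f : R2} (h : TT M f) (hN : w + N ≤ M) :
    (Polynomial.X : Polynomial ℂ) ^ N ∣ dg w f := by
  rw [Polynomial.X_pow_dvd_iff]
  intro d hd
  rw [coeff_dg]
  exact h _ (by rw [pt_zero]; omega) (by rw [pt_one]; omega)

theorem TT_E {M : ℕ} {f : R2} (h : TT M f) (i : Fin 2) : TT M (X i * pderiv i f) := by
  intro s h0 h1
  have h2 := Pool.Agent.KellerCross.coeff_E (L := ℂ) i f s
  unfold Pool.Agent.KellerCross.E at h2
  rw [h2, h s h0 h1, mul_zero]

theorem TT.sub {M : ℕ} {f g : R2} (hf : TT M f) (hg : TT M g) : TT M (f - g) := by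
  intro s h0 h1
  rw [coeff_sub, hf s h0 h1, hg s h0 h1, sub_zero]

theorem TT.mono {M N : ℕ} {f : R2} (hf : TT M f) (h : N ≤ M) : TT N f :=
  fun s h0 h1 => hf s (by omega) (by omega)

theorem TT.mul_left {M : ℕ} {f : R2} (hf : TT M f) (g : R2) : TT M (g * f) := by
  rw [mul_comm]; exact hf.mul g

/-- substitution and box congruences -/
theorem TT.comp2 {M : ℕ} {U V U' V' : R2} (hU : TT M (U - U')) (hV : TT M (V - V')) (p : R2) :
    TT M (aeval ![U, V] p - aeval ![U', V'] p) := by
  induction p using MvPolynomial.induction_on with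
  | C c =>
    intro s _ _
    simp
  | add p q hp hq =>
    have h := hp.add hq
    have e : aeval ![U, V] (p + q) - aeval ![U', V'] (p + q)
        = (aeval ![U, V] p - aeval ![U', V'] p) + (aeval ![U, V] q - aeval ![U', V'] q) := by
      rw [map_add, map_add]; ring
    rw [e]
    exact h
  | mul_X p i hp =>
    have h0 : TT M ((![U, V] : Fin 2 → R2) i - (![U', V'] : Fin 2 → R2) i) := by
      fin_cases i
      · exact hU
      · exact hV
    have e : aeval ![U, V] (p * X i) - aeval ![U', V'] (p * X i)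
        = (aeval ![U, V] p - aeval ![U', V'] p) * (![U, V] : Fin 2 → R2) i
          + ((![U, V] : Fin 2 → R2) i - (![U', V'] : Fin 2 → R2) i) * aeval ![U', V'] p := by
      rw [map_mul, aeval_X, map_mul, aeval_X]; ring
    rw [e]
    exact (hp.mul _).add (h0.mul _)

/-- the diagonal part of a composition with `(x A(u), y B(u))`, `A B = 1` -/
theorem dg_comp {N : ℕ} {A B : Polynomial ℂ} (hAB : (Polynomial.X : Polynomial ℂ) ^ N ∣ A * B - 1)
    (w : ℕ) (f : R2) : (Polynomial.X : Polynomial ℂ) ^ N ∣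
      dg w (aeval ![X 0 * Ev A, X 1 * Ev B] f) - A ^ w * dg w f := by
  induction f using MvPolynomial.induction_on' with
  | add p q hp hq =>
    refine (dvd_add hp hq).trans (dvd_of_eq ?_)
    rw [map_add, dg_add, dg_add]
    ring
  | monomial s a =>
    have e1 : aeval ![X 0 * Ev A, X 1 * Ev B] (monomial s a : R2)
        = monomial s a * Ev (A ^ (s 0) * B ^ (s 1)) := by
      rw [aeval_monomial, Finsupp.prod_fintype _ _ (fun i => pow_zero _), Fin.prod_univ_two]
      simp only [Matrix.cons_val_zero, Matrix.cons_val_one]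
      rw [monomial_eq (s := s), Finsupp.prod_fintype _ _ (fun i => pow_zero _), Fin.prod_univ_two,
        map_mul, map_pow, map_pow, algebraMap_eq]
      ring
    have e2 : (monomial s a : R2) = monomial s a * Ev 1 := by rw [map_one, mul_one]
    rw [e1, dg_monomial_mul]
    rw [e2, dg_monomial_mul]
    split_ifs with h
    · rw [h, pow_add]
      have h1 : A * B - 1 ∣ (A * B) ^ (s 1) - 1 := by
        have := sub_dvd_pow_sub_pow (A * B) 1 (s 1)
        rwa [one_pow] at this
      have h2 := hAB.trans h1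
      refine (Dvd.dvd.mul_left h2 (Polynomial.monomial (s 1) a * A ^ w)).trans (dvd_of_eq ?_)
      rw [mul_pow]
      ring
    · simp

end Pool.Agent.KXS
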