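import Pool.Agent.KXS.Base
import Pool.Agent.KellerCross.Basic

/-!
# Leading forms for the weights `(ρ, σ)`

`Psi ρ σ f = f (x T ^ ρ, y T ^ σ)` is the polynomial in `T` whose coefficients are the weighted
homogeneous parts of `f`.
-/

set_option autoImplicit false

open MvPolynomial

namespace Pool.Agent.KXS

/-- the polynomial of the weighted homogeneous parts -/
noncomputable def Psi (ρ σ : ℕ) : R2 →ₐ[ℂ] Polynomial R2 :=
  aeval ![Polynomial.C (X 0) * Polynomial.X ^ ρ, Polynomial.C (X 1) * Polynomial.X ^ σ]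

theorem Psi_monomial (ρ σ : ℕ) (s : Fin 2 →₀ ℕ) (a : ℂ) :
    Psi ρ σ (monomial s a) = Polynomial.monomial (ρ * s 0 + σ * s 1) (monomial s a) := by
  unfold Psi
  rw [aeval_monomial, Finsupp.prod_fintype _ _ (fun i => pow_zero _), Fin.prod_univ_two]
  simp only [Matrix.cons_val_zero, Matrix.cons_val_one]
  rw [monomial_eq (s := s), Finsupp.prod_fintype _ _ (fun i => pow_zero _), Fin.prod_univ_two,
    ← Polynomial.C_mul_X_pow_eq_monomial, mul_pow, mul_pow, ← pow_mul, ← pow_mul, pow_add]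
  have h : algebraMap ℂ (Polynomial R2) a = Polynomial.C (C a) := rfl
  rw [h, Polynomial.C_mul, Polynomial.C_mul, Polynomial.C_pow, Polynomial.C_pow]
  ring

theorem coeff_Psi (ρ σ : ℕ) (f : R2) (k : ℕ) (s : Fin 2 →₀ ℕ) :
    coeff s ((Psi ρ σ f).coeff k) = if ρ * s 0 + σ * s 1 = k then coeff s f else 0 := by
  classical
  induction f using MvPolynomial.induction_on' with
  | add p q hp hq =>
    rw [map_add, Polynomial.coeff_add, coeff_add, hp, hq, coeff_add]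
    split_ifs <;> simp
  | monomial t a =>
    rw [Psi_monomial, Polynomial.coeff_monomial]
    by_cases h : ρ * t 0 + σ * t 1 = k
    · rw [if_pos h]
      by_cases h2 : t = s
      · subst h2
        rw [if_pos h]
      · rw [coeff_monomial, if_neg h2]
        split_ifs <;> rfl
    · rw [if_neg h, coeff_zero]
      split_ifs with h3
      · rw [coeff_monomial, if_neg]
        rintro rfl
        exact h h3
      · rfl

theorem Psi_inj (ρ σ : ℕ) : Function.Injective (Psi ρ σ) := by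
  intro f g h
  ext s
  have h1 := coeff_Psi ρ σ f (ρ * s 0 + σ * s 1) s
  have h2 := coeff_Psi ρ σ g (ρ * s 0 + σ * s 1) s
  rw [if_pos rfl] at h1 h2
  rw [← h1, ← h2, h]

theorem Psi_ne {ρ σ : ℕ} {f : R2} (h : f ≠ 0) : Psi ρ σ f ≠ 0 := by
  intro h0
  apply h
  apply Psi_inj ρ σ
  rw [h0, map_zero]

/-- weighted degree -/
noncomputable def wd (ρ σ : ℕ) (f : R2) : ℕ := (Psi ρ σ f).natDegree

/-- leading form -/
noncomputable def lf (ρ σ : ℕ) (f : R2) : R2 := (Psi ρ σ f).leadingCoeff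

theorem lf_eq (ρ σ : ℕ) (f : R2) : lf ρ σ f = (Psi ρ σ f).coeff (wd ρ σ f) := rfl

theorem lf_ne {ρ σ : ℕ} {f : R2} (h : f ≠ 0) : lf ρ σ f ≠ 0 :=
  Polynomial.leadingCoeff_ne_zero.2 (Psi_ne h)

theorem wd_mul {ρ σ : ℕ} {f g : R2} (hf : f ≠ 0) (hg : g ≠ 0) :
    wd ρ σ (f * g) = wd ρ σ f + wd ρ σ g := by
  unfold wd
  rw [map_mul, Polynomial.natDegree_mul (Psi_ne hf) (Psi_ne hg)]

theorem wd_pow {ρ σ : ℕ} {f : R2} (n : ℕ) :
    wd ρ σ (f ^ n) = n * wd ρ σ f := by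
  unfold wd
  rw [map_pow, Polynomial.natDegree_pow]

theorem lf_mul {ρ σ : ℕ} {f g : R2} : lf ρ σ (f * g) = lf ρ σ f * lf ρ σ g := by
  unfold lf
  rw [map_mul, Polynomial.leadingCoeff_mul]

theorem lf_pow {ρ σ : ℕ} {f : R2} (n : ℕ) : lf ρ σ (f ^ n) = lf ρ σ f ^ n := by
  unfold lf
  rw [map_pow, Polynomial.leadingCoeff_pow]

theorem Psi_C (ρ σ : ℕ) (a : ℂ) : Psi ρ σ (C a) = Polynomial.C (C a) := by
  unfold Psi
  rw [aeval_C]
  rfl

theorem wd_C (ρ σ : ℕ) (a : ℂ) : wd ρ σ (C a) = 0 := by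
  unfold wd
  rw [Psi_C, Polynomial.natDegree_C]

theorem lf_C (ρ σ : ℕ) (a : ℂ) : lf ρ σ (C a) = C a := by
  unfold lf
  rw [Psi_C, Polynomial.leadingCoeff_C]

/-- the derivative in `x` -/
theorem coeff_dx (ρ σ : ℕ) (f : R2) (i : ℕ) :
    (Polynomial.X ^ ρ * Psi ρ σ (pderiv 0 f)).coeff i = pderiv 0 ((Psi ρ σ f).coeff i) := by
  ext s
  rw [coeff_pderiv, coeff_Psi]
  have h0 : (s + Finsupp.single 0 1 : Fin 2 →₀ ℕ) 0 = s 0 + 1 := by simp
  have h1 : (s + Finsupp.single 0 1 : Fin 2 →₀ ℕ) 1 = s 1 := by simp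
  rw [h0, h1, mul_comm, Polynomial.coeff_mul_X_pow']
  split_ifs with h2 h3 h3
  · rw [coeff_Psi, if_pos, coeff_pderiv]
    rw [mul_add, mul_one] at h3; omega
  · rw [coeff_Psi, if_neg, zero_mul]
    rw [mul_add, mul_one] at h3; omega
  · exfalso
    rw [mul_add, mul_one] at h3; omega
  · rw [zero_mul, coeff_zero]

/-- the derivative in `y` -/
theorem coeff_dy (ρ σ : ℕ) (f : R2) (i : ℕ) :
    (Polynomial.X ^ σ * Psi ρ σ (pderiv 1 f)).coeff i = pderiv 1 ((Psi ρ σ f).coeff i) := by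
  ext s
  rw [coeff_pderiv, coeff_Psi]
  have h0 : (s + Finsupp.single 1 1 : Fin 2 →₀ ℕ) 1 = s 1 + 1 := by simp
  have h1 : (s + Finsupp.single 1 1 : Fin 2 →₀ ℕ) 0 = s 0 := by simp
  rw [h0, h1, mul_comm, Polynomial.coeff_mul_X_pow']
  split_ifs with h2 h3 h3
  · rw [coeff_Psi, if_pos, coeff_pderiv]
    rw [mul_add, mul_one] at h3; omega
  · rw [coeff_Psi, if_neg, zero_mul]
    rw [mul_add, mul_one] at h3; omega
  · exfalso
    rw [mul_add, mul_one] at h3; omega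
  · rw [zero_mul, coeff_zero]

theorem deg_dx (ρ σ : ℕ) (f : R2) :
    (Polynomial.X ^ ρ * Psi ρ σ (pderiv 0 f)).natDegree ≤ wd ρ σ f := by
  rw [Polynomial.natDegree_le_iff_coeff_eq_zero]
  intro i hi
  rw [coeff_dx, Polynomial.coeff_eq_zero_of_natDegree_lt hi, map_zero]

theorem deg_dy (ρ σ : ℕ) (f : R2) :
    (Polynomial.X ^ σ * Psi ρ σ (pderiv 1 f)).natDegree ≤ wd ρ σ f := by
  rw [Polynomial.natDegree_le_iff_coeff_eq_zero]
  intro i hi
  rw [coeff_dy, Polynomial.coeff_eq_zero_of_natDegree_lt hi, map_zero]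

theorem Psi_br (ρ σ : ℕ) (f g : R2) :
    Polynomial.X ^ (ρ + σ) * Psi ρ σ (br f g) =
      (Polynomial.X ^ ρ * Psi ρ σ (pderiv 0 f)) * (Polynomial.X ^ σ * Psi ρ σ (pderiv 1 g)) -
      (Polynomial.X ^ σ * Psi ρ σ (pderiv 1 f)) * (Polynomial.X ^ ρ * Psi ρ σ (pderiv 0 g)) := by
  unfold br
  rw [map_sub, map_mul, map_mul, pow_add]
  ring

/-- the top coefficient of a bracket -/
theorem coeff_br (ρ σ : ℕ) (f g : R2) :
    (Polynomial.X ^ (ρ + σ) * Psi ρ σ (br f g)).coeff (wd ρ σ f + wd ρ σ g) =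
      br (lf ρ σ f) (lf ρ σ g) := by
  rw [Psi_br, Polynomial.coeff_sub,
    Polynomial.coeff_mul_add_eq_of_natDegree_le (deg_dx ρ σ f) (deg_dy ρ σ g),
    Polynomial.coeff_mul_add_eq_of_natDegree_le (deg_dy ρ σ f) (deg_dx ρ σ g),
    coeff_dx, coeff_dy, coeff_dx, coeff_dy]
  rfl

theorem wd_br_le {ρ σ : ℕ} {f g : R2} (h : br f g ≠ 0) :
    wd ρ σ (br f g) + (ρ + σ) ≤ wd ρ σ f + wd ρ σ g := by
  have h1 : (Polynomial.X ^ (ρ + σ) * Psi ρ σ (br f g)).natDegree ≤ wd ρ σ f + wd ρ σ g := by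
    rw [Psi_br]
    refine (Polynomial.natDegree_sub_le _ _).trans (max_le ?_ ?_)
    · exact Polynomial.natDegree_mul_le.trans (add_le_add (deg_dx _ _ _) (deg_dy _ _ _))
    · exact Polynomial.natDegree_mul_le.trans (add_le_add (deg_dy _ _ _) (deg_dx _ _ _))
  rw [Polynomial.natDegree_mul (pow_ne_zero _ Polynomial.X_ne_zero) (Psi_ne h),
    Polynomial.natDegree_X_pow] at h1
  unfold wd at h1 ⊢
  omega

/-- dichotomy for the leading form of a bracket -/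
theorem lf_br {ρ σ : ℕ} {f g : R2} (h : br f g ≠ 0) :
    (wd ρ σ (br f g) + (ρ + σ) = wd ρ σ f + wd ρ σ g ∧
      br (lf ρ σ f) (lf ρ σ g) = lf ρ σ (br f g)) ∨
    (wd ρ σ (br f g) + (ρ + σ) < wd ρ σ f + wd ρ σ g ∧ br (lf ρ σ f) (lf ρ σ g) = 0) := by
  rcases (wd_br_le (ρ := ρ) (σ := σ) h).eq_or_lt with h1 | h1
  · left
    refine ⟨h1, ?_⟩
    rw [← coeff_br, ← h1, mul_comm, Polynomial.coeff_mul_X_pow]
    rfl
  · right
    refine ⟨h1, ?_⟩
    rw [← coeff_br, mul_comm, Polynomial.coeff_mul_X_pow']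
    split_ifs with h2
    · apply Polynomial.coeff_eq_zero_of_natDegree_lt
      unfold wd at h1 h2 ⊢
      omega
    · rfl

/-- weighted homogeneous of degree `k` -/
def WH (ρ σ k : ℕ) (A : R2) : Prop := ∀ s, coeff s A ≠ 0 → ρ * s 0 + σ * s 1 = k

theorem WH_coeff (ρ σ : ℕ) (f : R2) (k : ℕ) : WH ρ σ k ((Psi ρ σ f).coeff k) := by
  intro s hs
  rw [coeff_Psi] at hs
  by_contra h
  exact hs (if_neg h)

theorem WH_lf (ρ σ : ℕ) (f : R2) : WH ρ σ (wd ρ σ f) (lf ρ σ f) := WH_coeff ρ σ f _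

theorem euler {ρ σ k : ℕ} {A : R2} (h : WH ρ σ k A) :
    (ρ : R2) * (X 0 * pderiv 0 A) + (σ : R2) * (X 1 * pderiv 1 A) = (k : R2) * A := by
  ext s
  have e0 := Pool.Agent.KellerCross.coeff_E (L := ℂ) 0 A s
  have e1 := Pool.Agent.KellerCross.coeff_E (L := ℂ) 1 A s
  unfold Pool.Agent.KellerCross.E at e0 e1
  have hn : ∀ (n : ℕ) (p : R2), coeff s ((n : R2) * p) = (n : ℂ) * coeff s p := by
    intro n p
    have : (n : R2) = C (n : ℂ) := by simp
    rw [this, coeff_C_mul]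
  rw [coeff_add, hn, hn, hn, e0, e1]
  by_cases hs : coeff s A = 0
  · rw [hs]; ring
  · have := h s hs
    rw [← this]
    push_cast
    ring

end Pool.Agent.KXS
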