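import Pool.Agent.KXS.CornerF

/-!
# Distinct Keller maps of the plane that agree on the cross: leading forms

Let `F ≠ G` be Keller maps of `ℂ²` that agree on `{xy = 0}`, `ρ, σ ≥ 1` weights of `x`, `y`, and let
the weighted degree `D` of `F₁` be at least that of `G₁`.  Then the leading form of `F₁` is a single
monomial `c x ^ α y ^ β` with `α, β ≥ 1` and `α ≠ β`.
-/

set_option autoImplicit false

open MvPolynomial Pool.Agent.KXS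

theorem Pool.Agent.KXS.LeadingForms.result
    (F₁ F₂ G₁ G₂ : MvPolynomial (Fin 2) ℂ)
    (hF : pderiv 0 F₁ * pderiv 1 F₂ - pderiv 1 F₁ * pderiv 0 F₂ = 1)
    (hG : pderiv 0 G₁ * pderiv 1 G₂ - pderiv 1 G₁ * pderiv 0 G₂ = 1)
    (hFG : ∀ v : Fin 2 → ℂ, v 0 * v 1 = 0 → eval v F₁ = eval v G₁ ∧ eval v F₂ = eval v G₂)
    (hne : ¬ (F₁ = G₁ ∧ F₂ = G₂)) (ρ σ D : ℕ) (hρ : 1 ≤ ρ) (hσ : 1 ≤ σ)
    (hF₁ : ∀ s ∈ F₁.support, ρ * s 0 + σ * s 1 ≤ D)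
    (hG₁ : ∀ s ∈ G₁.support, ρ * s 0 + σ * s 1 ≤ D)
    (hD : ∃ s ∈ F₁.support, ρ * s 0 + σ * s 1 = D) :
    ∃ s ∈ F₁.support, 1 ≤ s 0 ∧ 1 ≤ s 1 ∧ s 0 ≠ s 1 ∧ ρ * s 0 + σ * s 1 = D ∧
      ∀ t ∈ F₁.support, ρ * t 0 + σ * t 1 = D → t = s := by
  have h1 : (X 0 * X 1 : MvPolynomial (Fin 2) ℂ) ∣ F₁ - G₁ := by
    rw [cross_dvd_iff]
    intro s hs
    rw [coeff_sub, sub_eq_zero]
    exact Pool.Agent.KellerCross.coeff_eq_of_cross G₁ F₁ (fun v hv => (hFG v hv).1) s hs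
  have h2 : (X 0 * X 1 : MvPolynomial (Fin 2) ℂ) ∣ F₂ - G₂ := by
    rw [cross_dvd_iff]
    intro s hs
    rw [coeff_sub, sub_eq_zero]
    exact Pool.Agent.KellerCross.coeff_eq_of_cross G₂ F₂ (fun v hv => (hFG v hv).2) s hs
  simp only [mem_support_iff] at hF₁ hG₁ hD ⊢
  obtain ⟨s, hs0, hs1, hs01, hs, hsD, hu⟩ := corner_thm hF hG h1 h2 hρ hσ hF₁ hG₁ hD hne
  exact ⟨s, hs, hs0, hs1, hs01, hsD, hu⟩
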