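import Pool.Agent.KXS.Affine

/-!
# Two pairs of parallel lines
-/

set_option autoImplicit false

open MvPolynomial

namespace Pool.Agent.KXS

/-- translation in `x` -/
noncomputable def tr (c : ℂ) : R2 →ₐ[ℂ] R2 := aff ![c, 0] ![1, 0] ![0, 1]

theorem tr_X0 (c : ℂ) : tr c (X 0) = C c + X 0 := by
  unfold tr aff
  rw [aeval_X]
  show C c + C 1 * X 0 + C 0 * X 1 = _
  rw [C_1, C_0]
  ring

theorem tr_X1 (c : ℂ) : tr c (X 1) = X 1 := by
  unfold tr aff
  rw [aeval_X]
  show C 0 + C 0 * X 0 + C 1 * X 1 = _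
  rw [C_1, C_0]
  ring

theorem Psi_tr (c : ℂ) (f : R2) :
    Psi 0 1 (tr c f) = (Psi 0 1 f).map (tr c : R2 →+* R2) := by
  have h : (Psi 0 1).comp (tr c) = (Polynomial.mapAlgHom (tr c)).comp (Psi 0 1) := by
    apply MvPolynomial.algHom_ext
    intro i
    have hC : ∀ a : ℂ, Psi 0 1 (C a) = Polynomial.C (C a) := fun a => Psi_C 0 1 a
    have h0 : Psi 0 1 (X 0) = Polynomial.C (X 0) := by
      unfold Psi
      rw [aeval_X]
      show Polynomial.C (X 0) * Polynomial.X ^ 0 = _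
      rw [pow_zero, mul_one]
    have h1 : Psi 0 1 (X 1) = Polynomial.C (X 1) * Polynomial.X := by
      unfold Psi
      rw [aeval_X]
      show Polynomial.C (X 1) * Polynomial.X ^ 1 = _
      rw [pow_one]
    fin_cases i
    · show Psi 0 1 (tr c (X 0)) = Polynomial.mapAlgHom (tr c) (Psi 0 1 (X 0))
      rw [tr_X0, map_add, hC, h0]
      show _ = Polynomial.map (tr c : R2 →+* R2) (Polynomial.C (X 0))
      rw [Polynomial.map_C]
      show _ = Polynomial.C (tr c (X 0))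
      rw [tr_X0, Polynomial.C_add]
    · show Psi 0 1 (tr c (X 1)) = Polynomial.mapAlgHom (tr c) (Psi 0 1 (X 1))
      rw [tr_X1, h1]
      show _ = Polynomial.map (tr c : R2 →+* R2) (Polynomial.C (X 1) * Polynomial.X)
      rw [Polynomial.map_mul, Polynomial.map_C, Polynomial.map_X]
      show _ = Polynomial.C (tr c (X 1)) * Polynomial.X
      rw [tr_X1]
  exact congrArg (fun φ : R2 →ₐ[ℂ] Polynomial R2 => φ f) h

theorem le_wd {ρ σ : ℕ} {f : R2} {s : Fin 2 →₀ ℕ} (hs : coeff s f ≠ 0) :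
    ρ * s 0 + σ * s 1 ≤ wd ρ σ f := by
  apply Polynomial.le_natDegree_of_ne_zero
  intro h0
  have h1 := coeff_Psi ρ σ f (ρ * s 0 + σ * s 1) s
  rw [h0, coeff_zero, if_pos rfl] at h1
  exact hs h1.symm

theorem wd_tr_le (c : ℂ) (f : R2) : wd 0 1 (tr c f) ≤ wd 0 1 f := by
  unfold wd
  rw [Psi_tr]
  exact Polynomial.natDegree_map_le

theorem eval_c1 (x : ℂ) (A : R2) : eval ![x, 1] A = (c1 A).eval x := by
  induction A using MvPolynomial.induction_on with
  | C a => rw [c1_C, eval_C, Polynomial.eval_C]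
  | add p q hp hq => rw [map_add, map_add, Polynomial.eval_add, hp, hq]
  | mul_X p i hp =>
    rw [map_mul, map_mul, Polynomial.eval_mul, hp]
    congr 1
    fin_cases i
    · show eval ![x, 1] (X 0) = (c1 (X 0)).eval x
      rw [c1_X0, eval_X, Polynomial.eval_X]
      rfl
    · show eval ![x, 1] (X 1) = (c1 (X 1)).eval x
      rw [c1_X1, eval_X, Polynomial.eval_one]
      rfl

/-- for `A = y ^ β b (x)` the coefficient of `y ^ β` is `b 0` -/
theorem coeff_y {β : ℕ} {A : R2} (h : WH 0 1 β A) :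
    coeff (Finsupp.single 1 β) A = eval ![0, 1] A := by
  rw [eval_c1, ← Polynomial.coeff_zero_eq_eval_zero]
  by_cases h0 : coeff (Finsupp.single 1 β) A = 0
  · rw [h0]
    by_contra h1
    obtain ⟨s, hs0, hs⟩ := c1_exists (Ne.symm h1)
    have h2 := h s hs
    have hse : s = Finsupp.single 1 β := by
      ext j
      fin_cases j
      · simpa using hs0
      · simp only [Fin.mk_one, Finsupp.single_eq_same]; omega
    rw [hse] at hs
    exact hs h0
  · have := c1_coeff_of (by norm_num) h h0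
    rw [← this]
    simp

/-- dominating in `y`: two vertical lines force a large degree in `x` -/
theorem two_vert {P Q P' Q' : R2} (hJ : br P Q = 1) (hJ' : br P' Q' = 1)
    (hP : (X 0 * X 1 : R2) ∣ P - P') (hQ : (X 0 * X 1 : R2) ∣ Q - Q') {c : ℂ} (hc : c ≠ 0)
    (h1 : ∀ t : ℂ, eval ![c, t] P = eval ![c, t] P')
    (h2 : ∀ t : ℂ, eval ![c, t] Q = eval ![c, t] Q')
    (hle : wd 0 1 P' ≤ wd 0 1 P) (hne : ¬ (P = P' ∧ Q = Q')) :
    1 ≤ wd 0 1 P ∧ 2 * wd 0 1 P ≤ wd 1 0 P := by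
  classical
  have hP0 := ne_zero_of_br hJ
  set β := wd 0 1 P with hβ
  have bP : ∀ s, coeff s P ≠ 0 → s 1 ≤ β := by
    intro s hs
    have := le_wd (ρ := 0) (σ := 1) hs
    omega
  have bP' : ∀ s, coeff s P' ≠ 0 → s 1 ≤ β := by
    intro s hs
    have := le_wd (ρ := 0) (σ := 1) hs
    omega
  have hx1 : ∀ A B : R2, aeval ![A, B] (X 0 : R2) = A := by
    intro A B
    rw [aeval_X]
    rfl
  have hβ1 : 1 ≤ β := by
    by_contra hb
    have hβ0 : β = 0 := by omega
    apply hne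
    -- everything is a polynomial in `x`
    have hAne := lf_ne (ρ := 1) (σ := 0) hP0
    obtain ⟨s, hs⟩ := (MvPolynomial.ne_zero_iff).1 hAne
    have hwt := WH_lf 1 0 P s hs
    have hsP : coeff s P ≠ 0 := by
      rw [lf_eq, coeff_Psi, if_pos hwt] at hs
      exact hs
    have hs1 : s 1 = 0 := by
      have := bP s hsP
      omega
    have hse : s = Finsupp.single 0 (s 0) := by
      ext j
      fin_cases j
      · simp
      · simpa using hs1
    obtain ⟨k, hk, hk0⟩ := exists_pos_mono hJ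
    have hk1 : k 1 = 0 := by
      have := bP k hk
      omega
    have hk00 : 1 ≤ k 0 := by
      by_contra h
      apply hk0
      ext j
      fin_cases j
      · show k 0 = 0
        omega
      · exact hk1
    have hkle := le_wd (ρ := 1) (σ := 0) hk
    have hbd : ∀ f : R2, (∀ t, coeff t f ≠ 0 → t 1 = 0 ∧ coeff t P ≠ 0) →
        ∀ t : Fin 2 →₀ ℕ, coeff t f ≠ 0 → (t 0 : ℝ) ≤ (s 0 : ℕ) + (0 : ℝ) * t 1 := by
      intro f hf t ht
      obtain ⟨h3, h4⟩ := hf t ht
      have h5 := le_wd (ρ := 1) (σ := 0) h4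
      rw [← hwt] at h5
      have h6 : t 0 ≤ s 0 := by omega
      have h7 : (t 0 : ℝ) ≤ s 0 := by exact_mod_cast h6
      linarith
    refine eq_of_nonpos (S := X 0) (K := 0) (m := s 0) hJ hJ' hP hQ le_rfl ?_ ?_ ?_ ?_
    · rw [← hwt] at hkle
      omega
    · rw [hx1]
      refine hbd P fun t ht => ⟨?_, ht⟩
      have := bP t ht
      omega
    · rw [hx1]
      refine hbd P' fun t ht => ?_
      have ht1 : t 1 = 0 := by
        have := bP' t ht
        omega
      refine ⟨ht1, ?_⟩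
      have h3 := (cross_dvd_iff _).1 hP t (Or.inr ht1)
      rw [coeff_sub, sub_eq_zero] at h3
      rw [h3]
      exact ht
    · rw [hx1, ← hse]
      exact hsP
  refine ⟨hβ1, ?_⟩
  have hzero : ∀ (P Q P' Q' : R2), br P Q = 1 → br P' Q' = 1 → (X 0 * X 1 : R2) ∣ P - P' →
      (X 0 * X 1 : R2) ∣ Q - Q' → (∀ s, coeff s P ≠ 0 → s 1 ≤ β) →
      (∀ s, coeff s P' ≠ 0 → s 1 ≤ β) → coeff (Finsupp.single 1 β) P ≠ 0 → P = P' ∧ Q = Q' := by
    intro P Q P' Q' hJ hJ' hP hQ b b' h0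
    refine eq_of_neg_sw (K := 0) (m := β) hJ hJ' hP hQ le_rfl hβ1 ?_ ?_ h0
    · intro s hs
      have h3 : (s 1 : ℝ) ≤ β := by exact_mod_cast b s hs
      linarith
    · intro s hs
      have h3 : (s 1 : ℝ) ≤ β := by exact_mod_cast b' s hs
      linarith
  have hcoA : coeff (Finsupp.single 1 β) (lf 0 1 P) = coeff (Finsupp.single 1 β) P := by
    rw [lf_eq, coeff_Psi, if_pos]
    simp [hβ]
  have root0 : (c1 (lf 0 1 P)).eval 0 = 0 := by
    by_contra h3
    apply hne
    apply hzero P Q P' Q' hJ hJ' hP hQ bP bP'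
    rw [← hcoA, coeff_y (WH_lf 0 1 P), eval_c1]
    exact h3
  have rootc : (c1 (lf 0 1 P)).eval c = 0 := by
    by_contra h3
    apply hne
    have hdet : det2 ![1, 0] ![0, 1] ≠ 0 := by
      unfold det2
      simp
    have hb : ∀ P Q : R2, br P Q = 1 → br (tr c P) (tr c Q) = 1 := by
      intro P Q h
      unfold tr
      rw [br_aff, h, map_one, one_mul]
      unfold det2
      simp
    have hcr : ∀ f g : R2, (X 0 * X 1 : R2) ∣ f - g →
        (∀ t : ℂ, eval ![c, t] f = eval ![c, t] g) → (X 0 * X 1 : R2) ∣ tr c f - tr c g := by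
      intro f g hd h4
      apply cross_of_lines
      · intro t
        obtain ⟨q, hq⟩ := hd
        have h5 := congrArg (eval (fun i => (![c, 0] : Fin 2 → ℂ) i + t * (![1, 0] : Fin 2 → ℂ) i)) hq
        rw [map_sub, map_mul, map_mul, eval_X, eval_X] at h5
        have h6 : (![c, 0] : Fin 2 → ℂ) 1 + t * (![1, 0] : Fin 2 → ℂ) 1 = 0 := by simp
        rw [h6, mul_zero, zero_mul, sub_eq_zero] at h5
        exact h5
      · intro t
        have h5 : (fun i => (![c, 0] : Fin 2 → ℂ) i + t * (![0, 1] : Fin 2 → ℂ) i) = ![c, t] := by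
          funext i
          fin_cases i <;> simp
        rw [h5]
        exact h4 t
    have hbd : ∀ f : R2, wd 0 1 f ≤ β → ∀ s, coeff s (tr c f) ≠ 0 → s 1 ≤ β := by
      intro f hf s hs
      have h4 := le_wd (ρ := 0) (σ := 1) hs
      have h5 := wd_tr_le c f
      omega
    have key := hzero (tr c P) (tr c Q) (tr c P') (tr c Q') (hb P Q hJ) (hb P' Q' hJ')
      (hcr P P' hP h1) (hcr Q Q' hQ h2) (hbd P le_rfl) (hbd P' hle) (by
        have h4 := coeff_Psi 0 1 (tr c P) β (Finsupp.single 1 β)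
        rw [if_pos (by simp), Psi_tr, Polynomial.coeff_map] at h4
        have h5 : (tr c : R2 →+* R2) ((Psi 0 1 P).coeff β) = tr c (lf 0 1 P) := rfl
        rw [h5] at h4
        have h6 : WH 0 1 β (tr c (lf 0 1 P)) := by
          have := WH_coeff 0 1 (tr c P) β
          rw [Psi_tr, Polynomial.coeff_map] at this
          exact this
        rw [← h4, coeff_y h6]
        unfold tr
        rw [eval_aff]
        have h7 : (fun i => (![c, 0] : Fin 2 → ℂ) i + (![0, 1] : Fin 2 → ℂ) 0 *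
            (![1, 0] : Fin 2 → ℂ) i + (![0, 1] : Fin 2 → ℂ) 1 * (![0, 1] : Fin 2 → ℂ) i) =
            ![c, 1] := by
          funext i
          fin_cases i <;> simp
        rw [h7, eval_c1]
        exact h3)
    exact ⟨aff_inj hdet key.1, aff_inj hdet key.2⟩
  obtain ⟨n, e, B, U, c', hI⟩ := exists_Ind (ρ := 0) (σ := 1) hJ hβ1
  have hAne : c1 (lf 0 1 P) ≠ 0 := c1_ne (by norm_num) hI.wA hI.hA
  have hdeg : 2 * β ≤ (c1 (lf 0 1 P)).natDegree := by
    by_contra h3
    push Not at h3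
    have h4 := hI.roots (by norm_num) hβ1 (by omega)
    have h5 := Finset.card_le_one.1 h4 0 (Multiset.mem_toFinset.2
      ((Polynomial.mem_roots hAne).2 root0)) c (Multiset.mem_toFinset.2
      ((Polynomial.mem_roots hAne).2 rootc))
    exact hc h5.symm
  refine hdeg.trans ?_
  have h6 : (c1 (lf 0 1 P)).coeff (c1 (lf 0 1 P)).natDegree ≠ 0 := by
    rw [Polynomial.coeff_natDegree]
    exact Polynomial.leadingCoeff_ne_zero.2 hAne
  obtain ⟨s, hs0, hs⟩ := c1_exists h6
  have hsP : coeff s P ≠ 0 := by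
    rw [lf_eq, coeff_Psi] at hs
    intro h7
    apply hs
    rw [h7]
    exact ite_self 0
  have := le_wd (ρ := 1) (σ := 0) hsP
  omega

theorem wd_sw (ρ σ : ℕ) (f : R2) : wd ρ σ (sw f) = wd σ ρ f := by
  have key : ∀ (ρ σ : ℕ) (f : R2), wd ρ σ (sw f) ≤ wd σ ρ f := by
    intro ρ σ f
    unfold wd
    rw [Polynomial.natDegree_le_iff_coeff_eq_zero]
    intro i hi
    ext s
    rw [coeff_Psi, coeff_zero]
    split_ifs with h
    · rw [coeff_sw]
      by_contra h1
      have h2 := le_wd (ρ := σ) (σ := ρ) h1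
      rw [swf_zero, swf_one] at h2
      unfold wd at h2
      omega
    · rfl
  apply le_antisymm (key ρ σ f)
  have := key σ ρ (sw f)
  rwa [sw_sw] at this

theorem eval_sw (a b : ℂ) (f : R2) : eval ![a, b] (sw f) = eval ![b, a] f := by
  induction f using MvPolynomial.induction_on with
  | C c =>
    unfold sw
    rw [rename_C, eval_C, eval_C]
  | add p q hp hq => rw [map_add, map_add, map_add, hp, hq]
  | mul_X p i hp =>
    rw [map_mul, map_mul, map_mul, hp]
    congr 1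
    fin_cases i
    · show eval ![a, b] (sw (X 0)) = eval ![b, a] (X 0)
      rw [sw_X0, eval_X, eval_X]
      rfl
    · show eval ![a, b] (sw (X 1)) = eval ![b, a] (X 1)
      rw [sw_X1, eval_X, eval_X]
      rfl

/-- dominating in `x`: two horizontal lines force a large degree in `y` -/
theorem two_horiz {P Q P' Q' : R2} (hJ : br P Q = 1) (hJ' : br P' Q' = 1)
    (hP : (X 0 * X 1 : R2) ∣ P - P') (hQ : (X 0 * X 1 : R2) ∣ Q - Q') {d : ℂ} (hd : d ≠ 0)
    (h1 : ∀ t : ℂ, eval ![t, d] P = eval ![t, d] P')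
    (h2 : ∀ t : ℂ, eval ![t, d] Q = eval ![t, d] Q')
    (hle : wd 1 0 P' ≤ wd 1 0 P) (hne : ¬ (P = P' ∧ Q = Q')) :
    1 ≤ wd 1 0 P ∧ 2 * wd 1 0 P ≤ wd 0 1 P := by
  have hb : ∀ P Q : R2, br P Q = 1 → br (sw P) (-sw Q) = 1 := by
    intro P Q h
    have h3 := br_sw P Q
    rw [h, map_one] at h3
    rw [← h3]
    unfold br
    rw [map_neg, map_neg]
    ring
  have h3 : (X 0 * X 1 : R2) ∣ sw P - sw P' := by
    have := sw_dvd hP
    rwa [sw_cross, map_sub] at this
  have h4 : (X 0 * X 1 : R2) ∣ -sw Q - -sw Q' := by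
    have := sw_dvd hQ
    rw [sw_cross, map_sub] at this
    rw [← dvd_neg]
    refine this.trans (dvd_of_eq ?_)
    ring
  have key := two_vert (hb P Q hJ) (hb P' Q' hJ') h3 h4 hd
    (fun t => by rw [eval_sw, eval_sw]; exact h1 t)
    (fun t => by rw [map_neg, map_neg, eval_sw, eval_sw, h2 t])
    (by rw [wd_sw, wd_sw]; exact hle)
    (by
      rintro ⟨h5, h6⟩
      apply hne
      rw [neg_inj] at h6
      exact ⟨by rw [← sw_sw P, h5, sw_sw], by rw [← sw_sw Q, h6, sw_sw]⟩)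
  rw [wd_sw, wd_sw] at key
  exact key

theorem two_two_le {P Q P' Q' : R2} (hJ : br P Q = 1) (hJ' : br P' Q' = 1)
    (hP : (X 0 * X 1 : R2) ∣ P - P') (hQ : (X 0 * X 1 : R2) ∣ Q - Q') {c d : ℂ} (hc : c ≠ 0)
    (hd : d ≠ 0)
    (h1 : ∀ t : ℂ, eval ![c, t] P = eval ![c, t] P')
    (h2 : ∀ t : ℂ, eval ![c, t] Q = eval ![c, t] Q')
    (h3 : ∀ t : ℂ, eval ![t, d] P = eval ![t, d] P')
    (h4 : ∀ t : ℂ, eval ![t, d] Q = eval ![t, d] Q')
    (hle : wd 0 1 P' ≤ wd 0 1 P) : P = P' ∧ Q = Q' := by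
  by_contra hne
  obtain ⟨e1, e2⟩ := two_vert hJ hJ' hP hQ hc h1 h2 hle hne
  rcases le_total (wd 1 0 P') (wd 1 0 P) with h | h
  · obtain ⟨e3, e4⟩ := two_horiz hJ hJ' hP hQ hd h3 h4 h hne
    omega
  · have hP' : (X 0 * X 1 : R2) ∣ P' - P := by rw [← dvd_neg, neg_sub]; exact hP
    have hQ' : (X 0 * X 1 : R2) ∣ Q' - Q := by rw [← dvd_neg, neg_sub]; exact hQ
    obtain ⟨e3, e4⟩ := two_horiz hJ' hJ hP' hQ' hd (fun t => (h3 t).symm)
      (fun t => (h4 t).symm) h (fun h5 => hne ⟨h5.1.symm, h5.2.symm⟩)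
    omega

/-- cross, one more vertical and one more horizontal line -/
theorem two_two {P Q P' Q' : R2} (hJ : br P Q = 1) (hJ' : br P' Q' = 1)
    (hP : (X 0 * X 1 : R2) ∣ P - P') (hQ : (X 0 * X 1 : R2) ∣ Q - Q') {c d : ℂ} (hc : c ≠ 0)
    (hd : d ≠ 0)
    (h1 : ∀ t : ℂ, eval ![c, t] P = eval ![c, t] P')
    (h2 : ∀ t : ℂ, eval ![c, t] Q = eval ![c, t] Q')
    (h3 : ∀ t : ℂ, eval ![t, d] P = eval ![t, d] P')
    (h4 : ∀ t : ℂ, eval ![t, d] Q = eval ![t, d] Q') : P = P' ∧ Q = Q' := by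
  rcases le_total (wd 0 1 P') (wd 0 1 P) with h | h
  · exact two_two_le hJ hJ' hP hQ hc hd h1 h2 h3 h4 h
  · have hP' : (X 0 * X 1 : R2) ∣ P' - P := by rw [← dvd_neg, neg_sub]; exact hP
    have hQ' : (X 0 * X 1 : R2) ∣ Q' - Q := by rw [← dvd_neg, neg_sub]; exact hQ
    have := two_two_le hJ' hJ hP' hQ' hc hd (fun t => (h1 t).symm) (fun t => (h2 t).symm)
      (fun t => (h3 t).symm) (fun t => (h4 t).symm) h
    exact ⟨this.1.symm, this.2.symm⟩

end Pool.Agent.KXS
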