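import Pool.Agent.KXS.Lines

/-!
# General position of the lines
-/

set_option autoImplicit false

open MvPolynomial

namespace Pool.Agent.KXS

theorem solve2 {u w : Fin 2 → ℂ} (h : det2 u w ≠ 0) (z : Fin 2 → ℂ) :
    ∃ a b : ℂ, (a = det2 z w / det2 u w) ∧ (b = det2 u z / det2 u w) ∧
      ∀ i, z i = a * u i + b * w i := by
  refine ⟨det2 z w / det2 u w, det2 u z / det2 u w, rfl, rfl, fun i => ?_⟩
  rw [div_mul_eq_mul_div, div_mul_eq_mul_div, ← add_div, eq_div_iff h]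
  unfold det2
  fin_cases i
  · show z 0 * (u 0 * w 1 - u 1 * w 0) =
      (z 0 * w 1 - z 1 * w 0) * u 0 + (u 0 * z 1 - u 1 * z 0) * w 0
    ring
  · show z 1 * (u 0 * w 1 - u 1 * w 0) =
      (z 0 * w 1 - z 1 * w 0) * u 1 + (u 0 * z 1 - u 1 * z 0) * w 1
    ring

/-- agreement of two maps on the line through `p` with direction `u` -/
def Agree (P Q P' Q' : R2) (p u : Fin 2 → ℂ) : Prop :=
  ∀ v : Fin 2 → ℂ, det2 u (fun i => v i - p i) = 0 →
    eval v P = eval v P' ∧ eval v Q = eval v Q'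

/-- intersection point of two lines -/
theorem exists_inter {u w : Fin 2 → ℂ} (h : det2 u w ≠ 0) (p q : Fin 2 → ℂ) :
    ∃ o : Fin 2 → ℂ, det2 u (fun i => o i - p i) = 0 ∧ det2 w (fun i => o i - q i) = 0 := by
  obtain ⟨a, b, ha, hb, hz⟩ := solve2 h (fun i => q i - p i)
  refine ⟨fun i => p i + a * u i, ?_, ?_⟩
  · unfold det2
    ring
  · have h0 := hz 0
    have h1 := hz 1
    show w 0 * (p 1 + a * u 1 - q 1) - w 1 * (p 0 + a * u 0 - q 0) = 0
    have e0 : p 0 + a * u 0 - q 0 = -b * w 0 := by linear_combination -h0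
    have e1 : p 1 + a * u 1 - q 1 = -b * w 1 := by linear_combination -h1
    rw [e0, e1]
    ring

theorem three_lines {P Q P' Q' : R2} (hJ : br P Q = 1) (hJ' : br P' Q' = 1)
    {p₁ u₁ p₂ u₂ p₃ u₃ : Fin 2 → ℂ} (h12 : det2 u₁ u₂ ≠ 0) (h13 : det2 u₁ u₃ ≠ 0)
    (h23 : det2 u₂ u₃ ≠ 0) (a1 : Agree P Q P' Q' p₁ u₁) (a2 : Agree P Q P' Q' p₂ u₂)
    (a3 : Agree P Q P' Q' p₃ u₃) : P = P' ∧ Q = Q' := by
  obtain ⟨o, ho1, ho2⟩ := exists_inter h12 p₁ p₂
  have l1 : ∀ t : ℂ, det2 u₁ (fun i => (o i + t * u₁ i) - p₁ i) = 0 := by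
    intro t
    rw [← ho1]
    unfold det2
    ring
  have l2 : ∀ t : ℂ, det2 u₂ (fun i => (o i + t * u₂ i) - p₂ i) = 0 := by
    intro t
    rw [← ho2]
    unfold det2
    ring
  have cP : (X 0 * X 1 : R2) ∣ aff o u₁ u₂ P - aff o u₁ u₂ P' :=
    cross_of_lines (fun t => (a1 _ (l1 t)).1) (fun t => (a2 _ (l2 t)).1)
  have cQ : (X 0 * X 1 : R2) ∣ aff o u₁ u₂ Q - aff o u₁ u₂ Q' :=
    cross_of_lines (fun t => (a1 _ (l1 t)).2) (fun t => (a2 _ (l2 t)).2)
  obtain ⟨a, b, -, -, hz⟩ := solve2 h12 (fun i => p₃ i - o i)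
  obtain ⟨a', b', ha', hb', hz'⟩ := solve2 h12 u₃
  have ha0 : a' ≠ 0 := by
    rw [ha']
    refine div_ne_zero ?_ h12
    intro h
    apply h23
    rw [← neg_eq_zero, ← h]
    unfold det2
    ring
  have hb0 : b' ≠ 0 := by
    rw [hb']
    exact div_ne_zero h13 h12
  have hpt : ∀ t : ℂ, (fun i => o i + (![a, b] : Fin 2 → ℂ) 0 * u₁ i) = fun i => o i + a * u₁ i :=
    fun _ => rfl
  have l3 : ∀ t : ℂ, (fun i => o i + ((![a, b] : Fin 2 → ℂ) 0 + t * (![a', b'] : Fin 2 → ℂ) 0) * u₁ i +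
      ((![a, b] : Fin 2 → ℂ) 1 + t * (![a', b'] : Fin 2 → ℂ) 1) * u₂ i) =
      fun i => p₃ i + t * u₃ i := by
    intro t
    funext i
    have h1 := hz i
    have h2 := hz' i
    show o i + (a + t * a') * u₁ i + (b + t * b') * u₂ i = p₃ i + t * u₃ i
    linear_combination -h1 - t * h2
  have l3' : ∀ t : ℂ, det2 u₃ (fun i => (p₃ i + t * u₃ i) - p₃ i) = 0 := by
    intro t
    unfold det2
    ring
  have key := third_line (kel_br (o := o) h12 hJ) (kel_br (o := o) h12 hJ') (kel_dvd cP) cQ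
    (p := ![a, b]) (u := ![a', b']) ha0 hb0
    (fun t => by
      unfold kel
      rw [map_mul, map_mul, eval_aff, eval_aff, l3]
      rw [(a3 _ (l3' t)).1])
    (fun t => by
      rw [eval_aff, eval_aff, l3]
      exact (a3 _ (l3' t)).2)
  exact ⟨kel_inj h12 key.1, aff_inj h12 key.2⟩

theorem four_lines {P Q P' Q' : R2} (hJ : br P Q = 1) (hJ' : br P' Q' = 1)
    {p₁ p₂ u p₃ p₄ w : Fin 2 → ℂ} (huw : det2 u w ≠ 0)
    (h12 : det2 u (fun i => p₂ i - p₁ i) ≠ 0) (h34 : det2 w (fun i => p₄ i - p₃ i) ≠ 0)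
    (a1 : Agree P Q P' Q' p₁ u) (a2 : Agree P Q P' Q' p₂ u)
    (a3 : Agree P Q P' Q' p₃ w) (a4 : Agree P Q P' Q' p₄ w) : P = P' ∧ Q = Q' := by
  obtain ⟨o, ho1, ho2⟩ := exists_inter huw p₁ p₃
  have l1 : ∀ t : ℂ, det2 u (fun i => (o i + t * u i) - p₁ i) = 0 := by
    intro t
    rw [← ho1]
    unfold det2
    ring
  have l3 : ∀ t : ℂ, det2 w (fun i => (o i + t * w i) - p₃ i) = 0 := by
    intro t
    rw [← ho2]
    unfold det2
    ring
  have cP : (X 0 * X 1 : R2) ∣ aff o u w P - aff o u w P' :=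
    cross_of_lines (fun t => (a1 _ (l1 t)).1) (fun t => (a3 _ (l3 t)).1)
  have cQ : (X 0 * X 1 : R2) ∣ aff o u w Q - aff o u w Q' :=
    cross_of_lines (fun t => (a1 _ (l1 t)).2) (fun t => (a3 _ (l3 t)).2)
  obtain ⟨a, d, -, hd, hz⟩ := solve2 huw (fun i => p₂ i - o i)
  obtain ⟨c, b, hc, -, hz'⟩ := solve2 huw (fun i => p₄ i - o i)
  have hd0 : d ≠ 0 := by
    rw [hd]
    refine div_ne_zero ?_ huw
    intro h
    apply h12
    unfold det2 at h ho1 ⊢
    linear_combination h + ho1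
  have hc0 : c ≠ 0 := by
    rw [hc]
    refine div_ne_zero ?_ huw
    intro h
    apply h34
    unfold det2 at h ho2 ⊢
    linear_combination -h + ho2
  have l2 : ∀ t : ℂ, det2 u (fun i => (o i + (![t, d] : Fin 2 → ℂ) 0 * u i +
      (![t, d] : Fin 2 → ℂ) 1 * w i) - p₂ i) = 0 := by
    intro t
    have h0 := hz 0
    have h1 := hz 1
    show u 0 * ((o 1 + t * u 1 + d * w 1) - p₂ 1) - u 1 * ((o 0 + t * u 0 + d * w 0) - p₂ 0) = 0
    linear_combination u 1 * h0 - u 0 * h1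
  have l4 : ∀ t : ℂ, det2 w (fun i => (o i + (![c, t] : Fin 2 → ℂ) 0 * u i +
      (![c, t] : Fin 2 → ℂ) 1 * w i) - p₄ i) = 0 := by
    intro t
    have h0 := hz' 0
    have h1 := hz' 1
    show w 0 * ((o 1 + c * u 1 + t * w 1) - p₄ 1) - w 1 * ((o 0 + c * u 0 + t * w 0) - p₄ 0) = 0
    linear_combination w 1 * h0 - w 0 * h1
  have key := two_two (kel_br (o := o) huw hJ) (kel_br (o := o) huw hJ') (kel_dvd cP) cQ hc0 hd0
    (fun t => by
      unfold kel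
      rw [map_mul, map_mul, eval_aff, eval_aff, (a4 _ (l4 t)).1])
    (fun t => by
      rw [eval_aff, eval_aff]
      exact (a4 _ (l4 t)).2)
    (fun t => by
      unfold kel
      rw [map_mul, map_mul, eval_aff, eval_aff, (a2 _ (l2 t)).1])
    (fun t => by
      rw [eval_aff, eval_aff]
      exact (a2 _ (l2 t)).2)
  exact ⟨kel_inj huw key.1, aff_inj huw key.2⟩

end Pool.Agent.KXS
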