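import Pool.Agent.KXS.LinesF

/-!
# Lines as affine subspaces
-/

set_option autoImplicit false

open MvPolynomial

namespace Pool.Agent.KXS

theorem exists_smul_of_det {u z : Fin 2 → ℂ} (hu : u ≠ 0) (h : det2 u z = 0) :
    ∃ c : ℂ, z = c • u := by
  unfold det2 at h
  by_cases h0 : u 0 = 0
  · have h1 : u 1 ≠ 0 := by
      intro h1
      apply hu
      funext i
      fin_cases i
      · exact h0
      · exact h1
    refine ⟨z 1 / u 1, ?_⟩
    funext i
    fin_cases i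
    · show z 0 = z 1 / u 1 * u 0
      rw [h0, zero_mul, zero_sub, neg_eq_zero] at h
      rw [h0, mul_zero]
      exact (mul_eq_zero.1 h).resolve_left h1
    · show z 1 = z 1 / u 1 * u 1
      rw [div_mul_cancel₀ _ h1]
  · refine ⟨z 0 / u 0, ?_⟩
    funext i
    fin_cases i
    · show z 0 = z 0 / u 0 * u 0
      rw [div_mul_cancel₀ _ h0]
    · show z 1 = z 0 / u 0 * u 1
      rw [div_mul_eq_mul_div, eq_div_iff h0]
      linear_combination h

theorem line_param {l : AffineSubspace ℂ (Fin 2 → ℂ)} (h : Module.finrank ℂ l.direction = 1) :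
    ∃ p u : Fin 2 → ℂ, p ∈ l ∧ u ≠ 0 ∧ u ∈ l.direction ∧
      ∀ z ∈ l.direction, ∃ c : ℂ, z = c • u := by
  obtain ⟨⟨u, hu⟩, hu0, hall⟩ := finrank_eq_one_iff'.1 h
  have hne : l ≠ ⊥ := by
    rintro rfl
    rw [AffineSubspace.direction_bot, finrank_bot] at h
    exact zero_ne_one h
  obtain ⟨p, hp⟩ := (AffineSubspace.nonempty_iff_ne_bot l).2 hne
  refine ⟨p, u, hp, fun h0 => hu0 (Subtype.ext h0), hu, fun z hz => ?_⟩
  obtain ⟨c, hc⟩ := hall ⟨z, hz⟩
  exact ⟨c, (congrArg Subtype.val hc).symm⟩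

theorem mem_line {l : AffineSubspace ℂ (Fin 2 → ℂ)} {p u v : Fin 2 → ℂ} (hp : p ∈ l)
    (hu0 : u ≠ 0) (hu : u ∈ l.direction) (h : det2 u (fun i => v i - p i) = 0) : v ∈ l := by
  obtain ⟨c, hc⟩ := exists_smul_of_det hu0 h
  have h1 : v -ᵥ p ∈ l.direction := by
    have h2 : v -ᵥ p = c • u := by
      rw [← hc]
      rfl
    rw [h2]
    exact l.direction.smul_mem c hu
  have h2 := AffineSubspace.vadd_mem_of_mem_direction h1 hp
  rwa [vsub_vadd] at h2

theorem parallel_of_det {l l' : AffineSubspace ℂ (Fin 2 → ℂ)} {p u p' u' : Fin 2 → ℂ}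
    (hp : p ∈ l) (hu0 : u ≠ 0) (hu : u ∈ l.direction) (ha : ∀ z ∈ l.direction, ∃ c : ℂ, z = c • u)
    (hp' : p' ∈ l') (hu0' : u' ≠ 0) (hu' : u' ∈ l'.direction)
    (ha' : ∀ z ∈ l'.direction, ∃ c : ℂ, z = c • u') (h : det2 u u' = 0) :
    AffineSubspace.Parallel l l' := by
  rw [AffineSubspace.parallel_iff_direction_eq_and_eq_bot_iff_eq_bot]
  have h' : det2 u' u = 0 := by
    unfold det2 at h ⊢
    linear_combination -h
  obtain ⟨c, hc⟩ := exists_smul_of_det hu0 h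
  obtain ⟨c', hc'⟩ := exists_smul_of_det hu0' h'
  refine ⟨le_antisymm ?_ ?_, ?_⟩
  · intro z hz
    obtain ⟨e, rfl⟩ := ha z hz
    rw [hc']
    exact l'.direction.smul_mem _ (l'.direction.smul_mem _ hu')
  · intro z hz
    obtain ⟨e, rfl⟩ := ha' z hz
    rw [hc]
    exact l.direction.smul_mem _ (l.direction.smul_mem _ hu)
  · constructor
    · rintro rfl
      exact absurd hp (AffineSubspace.notMem_bot ℂ _ p)
    · rintro rfl
      exact absurd hp' (AffineSubspace.notMem_bot ℂ _ p')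

theorem det_of_parallel_ne {l l' : AffineSubspace ℂ (Fin 2 → ℂ)} {p u p' : Fin 2 → ℂ}
    (hp : p ∈ l) (hu0 : u ≠ 0) (hu : u ∈ l.direction) (hp' : p' ∈ l')
    (h : AffineSubspace.Parallel l l') (hne : l ≠ l') :
    det2 u (fun i => p' i - p i) ≠ 0 := by
  intro h0
  apply hne
  exact AffineSubspace.ext_of_direction_eq h.direction_eq ⟨p', mem_line hp hu0 hu h0, hp'⟩

end Pool.Agent.KXS
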