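import Pool.Agent.KXS.Diag
import Pool.Agent.KC2.Poincare

/-!
# Slopes `1` on both axes

If both slopes are `1` then the change of coordinates is `(x A(u), y B(u))` with `u = x y` and
`A B = 1`; exactness of `P dQ - x dy` shows `u A' = - c' A` with a polynomial `c` in `u`, and the
part of weight `m` of `f (x A, y B) = f'` gives `A ^ m φ = ψ`; comparison of degrees gives `c' = 0`.
-/

set_option autoImplicit false

open MvPolynomial

namespace Pool.Agent.KXS

/-- exactness: `P dQ = x dy + dR` -/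
theorem exists_exact {P Q : R2} (hJ : br P Q = 1) :
    ∃ R : R2, pderiv 0 R = P * pderiv 0 Q ∧ pderiv 1 R = P * pderiv 1 Q - X 0 := by
  refine Pool.Agent.KC2.poincare (P * pderiv 0 Q) (P * pderiv 1 Q - X 0) ?_
  have h1 : pderiv 0 P * pderiv 1 Q - pderiv 1 P * pderiv 0 Q = 1 := hJ
  have h2 : pderiv 0 (pderiv 1 Q) = pderiv 1 (pderiv 0 Q) := Pool.Agent.KC2.pderiv_comm' Q
  rw [map_sub, pderiv_mul, pderiv_mul, pderiv_X_self, h2]
  linear_combination -h1

/-- the one-variable argument -/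
theorem one_var {m : ℕ} (hm : 1 ≤ m) {c φ ψ : Polynomial ℂ} (hφ : φ.coeff 0 ≠ 0)
    (hψ : ψ.coeff 0 ≠ 0)
    (h : (m : Polynomial ℂ) * (Polynomial.derivative c * ψ * φ)
      = Polynomial.X * (ψ * Polynomial.derivative φ - Polynomial.derivative ψ * φ)) :
    Polynomial.derivative c = 0 := by
  by_contra hc
  have hφ0 : φ ≠ 0 := fun h0 => hφ (by rw [h0, Polynomial.coeff_zero])
  have hψ0 : ψ ≠ 0 := fun h0 => hψ (by rw [h0, Polynomial.coeff_zero])
  have hm0 : (m : Polynomial ℂ) ≠ 0 := by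
    have : (m : Polynomial ℂ) = Polynomial.C (m : ℂ) := by simp
    rw [this, Ne, Polynomial.C_eq_zero]
    exact_mod_cast (by omega : m ≠ 0)
  have hmn : (m : Polynomial ℂ).natDegree = 0 := Polynomial.natDegree_natCast m
  have h1 : ((m : Polynomial ℂ) * (Polynomial.derivative c * ψ * φ)).natDegree
      = (Polynomial.derivative c).natDegree + ψ.natDegree + φ.natDegree := by
    rw [Polynomial.natDegree_mul hm0 (mul_ne_zero (mul_ne_zero hc hψ0) hφ0), hmn, zero_add,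
      Polynomial.natDegree_mul (mul_ne_zero hc hψ0) hφ0, Polynomial.natDegree_mul hc hψ0]
  have hd : ∀ a b : Polynomial ℂ, (Polynomial.X * (a * Polynomial.derivative b)).natDegree
      ≤ a.natDegree + b.natDegree := by
    intro a b
    by_cases hb : b.natDegree = 0
    · rw [Polynomial.eq_C_of_natDegree_eq_zero hb, Polynomial.derivative_C]
      simp
    · refine Polynomial.natDegree_mul_le.trans ?_
      rw [Polynomial.natDegree_X]
      refine (Nat.add_le_add_left Polynomial.natDegree_mul_le 1).trans ?_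
      have := Polynomial.natDegree_derivative_lt hb
      omega
  have h2 : (Polynomial.X * (ψ * Polynomial.derivative φ
      - Polynomial.derivative ψ * φ)).natDegree ≤ ψ.natDegree + φ.natDegree := by
    rw [mul_sub]
    refine (Polynomial.natDegree_sub_le _ _).trans (max_le (hd ψ φ) ?_)
    have := hd φ ψ
    rw [mul_comm φ] at this
    omega
  rw [← h, h1] at h2
  have h3 : (Polynomial.derivative c).natDegree = 0 := by omega
  have h4 := congrArg (Polynomial.eval 0) h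
  simp only [Polynomial.eval_mul, Polynomial.eval_X, zero_mul, Polynomial.eval_natCast] at h4
  rw [← Polynomial.coeff_zero_eq_eval_zero, ← Polynomial.coeff_zero_eq_eval_zero,
    ← Polynomial.coeff_zero_eq_eval_zero] at h4
  have h5 : (Polynomial.derivative c).coeff 0 = 0 := by
    rcases mul_eq_zero.1 h4 with h6 | h6
    · exfalso
      have : (m : ℂ) ≠ 0 := by exact_mod_cast (by omega : m ≠ 0)
      exact this h6
    · rcases mul_eq_zero.1 h6 with h7 | h7
      · rcases mul_eq_zero.1 h7 with h8 | h8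
        · exact h8
        · exact absurd h8 hψ
      · exact absurd h7 hφ
  apply hc
  rw [Polynomial.eq_C_of_natDegree_eq_zero h3, h5, Polynomial.C_0]

/-- `u^N ∣ p` for all `N` -/
theorem eq_zero_of_dvd {p : Polynomial ℂ} (h : ∀ N, (Polynomial.X : Polynomial ℂ) ^ N ∣ p) :
    p = 0 := by
  ext d
  rw [Polynomial.coeff_zero]
  exact (Polynomial.X_pow_dvd_iff.1 (h (d + 1))) d (by omega)

theorem dvd_derivative {p : Polynomial ℂ} {N : ℕ} (h : (Polynomial.X : Polynomial ℂ) ^ (N + 1) ∣ p) :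
    (Polynomial.X : Polynomial ℂ) ^ N ∣ Polynomial.derivative p := by
  rw [Polynomial.X_pow_dvd_iff] at h ⊢
  intro d hd
  rw [Polynomial.coeff_derivative, h (d + 1) (by omega), zero_mul]

theorem dvd_of_X_mul {p : Polynomial ℂ} {N : ℕ}
    (h : (Polynomial.X : Polynomial ℂ) ^ (N + 1) ∣ Polynomial.X * p) :
    (Polynomial.X : Polynomial ℂ) ^ N ∣ p := by
  rw [Polynomial.X_pow_dvd_iff] at h ⊢
  intro d hd
  have := h (d + 1) (by omega)
  rwa [Polynomial.coeff_X_mul] at this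

/-- if the derivative is `0` modulo `u^N` then the polynomial is constant modulo `u^(N+1)` -/
theorem dvd_sub_coeff {p : Polynomial ℂ} {N : ℕ}
    (h : (Polynomial.X : Polynomial ℂ) ^ N ∣ Polynomial.derivative p) :
    (Polynomial.X : Polynomial ℂ) ^ (N + 1) ∣ p - Polynomial.C (p.coeff 0) := by
  rw [Polynomial.X_pow_dvd_iff] at h ⊢
  intro d hd
  rw [Polynomial.coeff_sub, Polynomial.coeff_C]
  cases d with
  | zero => simp
  | succ d =>
    have h1 := h d (by omega)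
    rw [Polynomial.coeff_derivative] at h1
    rcases mul_eq_zero.1 h1 with h2 | h2
    · rw [h2]; simp
    · exact absurd h2 (Nat.cast_add_one_ne_zero d)

/-- `x y` times the bracket of `(x A, y B)` -/
theorem XX_br_Ev (A B : Polynomial ℂ) :
    X 0 * X 1 * br (X 0 * Ev A) (X 1 * Ev B)
      = Ev (Polynomial.X * Polynomial.derivative (Polynomial.X * (A * B))) := by
  have h0 : ∀ p : Polynomial ℂ, pderiv 0 (Ev p) = X 1 * Ev (Polynomial.derivative p) := by
    intro p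
    unfold Ev
    rw [Derivation.map_aeval, smul_eq_mul, pderiv_mul, pderiv_X_self, pderiv_X_of_ne (by decide)]
    ring
  have h1 : ∀ p : Polynomial ℂ, pderiv 1 (Ev p) = X 0 * Ev (Polynomial.derivative p) := by
    intro p
    unfold Ev
    rw [Derivation.map_aeval, smul_eq_mul, pderiv_mul, pderiv_X_self, pderiv_X_of_ne (by decide)]
    ring
  have hX : Ev Polynomial.X = X 0 * X 1 := by
    unfold Ev
    rw [Polynomial.aeval_X]
  unfold br
  rw [pderiv_mul, pderiv_mul, pderiv_mul, pderiv_mul, pderiv_X_self, pderiv_X_self,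
    pderiv_X_of_ne (by decide), pderiv_X_of_ne (by decide), h0, h0, h1, h1,
    Polynomial.derivative_mul, Polynomial.derivative_X, Polynomial.derivative_mul]
  simp only [map_mul, map_add, map_one, hX]
  ring

theorem E0_Ev (B : Polynomial ℂ) :
    X 0 * pderiv 0 (X 1 * Ev B) = X 1 * Ev (Polynomial.X * Polynomial.derivative B) := by
  have hX : Ev Polynomial.X = X 0 * X 1 := by
    unfold Ev
    rw [Polynomial.aeval_X]
  have h0 : pderiv 0 (Ev B) = X 1 * Ev (Polynomial.derivative B) := by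
    unfold Ev
    rw [Derivation.map_aeval, smul_eq_mul, pderiv_mul, pderiv_X_self, pderiv_X_of_ne (by decide)]
    ring
  rw [pderiv_mul, pderiv_X_of_ne (by decide), h0, map_mul, hX]
  ring

theorem coeff_X0_Ev (A : Polynomial ℂ) (s : Fin 2 →₀ ℕ) :
    coeff s (X 0 * Ev A) = if s 0 = s 1 + 1 then A.coeff (s 1) else 0 := by
  rw [coeff_X_mul']
  by_cases h0 : (0 : Fin 2) ∈ s.support
  · rw [if_pos h0, coeff_Ev, Finsupp.tsub_apply, Finsupp.tsub_apply, Finsupp.single_eq_same,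
      Finsupp.single_eq_of_ne (by decide)]
    have h1 : s 0 ≠ 0 := Finsupp.mem_support_iff.1 h0
    by_cases h2 : s 0 = s 1 + 1
    · rw [if_pos (by omega), if_pos h2]
      congr 1
      omega
    · rw [if_neg (by omega), if_neg h2]
  · rw [if_neg h0, if_neg]
    rw [Finsupp.notMem_support_iff] at h0
    omega

theorem sw_Ev (A : Polynomial ℂ) : sw (Ev A) = Ev A := by
  ext s
  rw [coeff_sw, coeff_Ev, coeff_Ev, swf_zero, swf_one]
  by_cases h : s 0 = s 1
  · rw [if_pos h.symm, if_pos h, h]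
  · rw [if_neg (fun h1 => h h1.symm), if_neg h]

theorem coeff_X1_Ev (A : Polynomial ℂ) (s : Fin 2 →₀ ℕ) :
    coeff s (X 1 * Ev A) = if s 1 = s 0 + 1 then A.coeff (s 0) else 0 := by
  have h : (X 1 * Ev A : R2) = sw (X 0 * Ev A) := by
    rw [map_mul, sw_Ev, sw_X0]
  rw [h, coeff_sw, coeff_X0_Ev, swf_zero, swf_one]

theorem diag_U {n : ℕ} {U : R2}
    (h : ∀ s : Fin 2 →₀ ℕ, s 0 < n → s 1 < n → coeff s U ≠ 0 → s 0 = s 1 + 1) :
    TT n (U - X 0 * Ev (dg 1 U)) := by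
  intro s h0 h1
  rw [coeff_sub, coeff_X0_Ev]
  by_cases h2 : s 0 = s 1 + 1
  · rw [if_pos h2, coeff_dg, add_comm 1, ← h2, pt_eta, sub_self]
  · rw [if_neg h2, sub_zero]
    by_contra h3
    exact h2 (h s h0 h1 h3)

theorem diag_V {n : ℕ} {V : R2}
    (h : ∀ s : Fin 2 →₀ ℕ, s 0 < n → s 1 < n → coeff s V ≠ 0 → s 1 = s 0 + 1) :
    TT n (V - X 1 * Ev (dg 1 (sw V))) := by
  intro s h0 h1
  rw [coeff_sub, coeff_X1_Ev]
  by_cases h2 : s 1 = s 0 + 1
  · have h4 : swf (pt (1 + s 0) (s 0)) = s := by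
      ext j
      fin_cases j
      · show swf (pt (1 + s 0) (s 0)) 0 = s 0
        rw [swf_zero, pt_one]
      · show swf (pt (1 + s 0) (s 0)) 1 = s 1
        rw [swf_one, pt_zero]; omega
    rw [if_pos h2, coeff_dg, coeff_sw, h4, sub_self]
  · rw [if_neg h2, sub_zero]
    by_contra h3
    exact h2 (h s h0 h1 h3)

theorem TT_XX {n : ℕ} {U U' V V' : R2} (hU : TT n (U - U')) (hV : TT n (V - V')) :
    TT n (X 0 * X 1 * br U V - X 0 * X 1 * br U' V') := by
  have e : X 0 * X 1 * br U V - X 0 * X 1 * br U' V'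
      = (X 0 * pderiv 0 (U - U')) * (X 1 * pderiv 1 V)
        + (X 0 * pderiv 0 U') * (X 1 * pderiv 1 (V - V'))
        - ((X 1 * pderiv 1 (U - U')) * (X 0 * pderiv 0 V)
        + (X 1 * pderiv 1 U') * (X 0 * pderiv 0 (V - V'))) := by
    unfold br
    simp only [map_sub]
    ring
  rw [e]
  exact (((TT_E hU 0).mul _).add ((TT_E hV 1).mul_left _)).sub
    (((TT_E hU 1).mul _).add ((TT_E hV 0).mul_left _))

/-- `A B = 1` -/
theorem AB_one {M : ℕ} {U V : R2} {A B : Polynomial ℂ} (hU : TT (M + 1) (U - X 0 * Ev A))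
    (hV : TT (M + 1) (V - X 1 * Ev B)) (hb : TT (M + 1) (X 0 * X 1 * (br U V - 1))) :
    (Polynomial.X : Polynomial ℂ) ^ M ∣ A * B - 1 := by
  have h1 := (TT_XX hU hV)
  have h2 : TT (M + 1) (Ev (Polynomial.X * Polynomial.derivative (Polynomial.X * (A * B))
      - Polynomial.X)) := by
    have h3 := hb.sub h1
    have hX : Ev Polynomial.X = X 0 * X 1 := by
      unfold Ev
      rw [Polynomial.aeval_X]
    rw [XX_br_Ev] at h3
    rw [map_sub, hX]
    refine (fun s h0 h1 => ?_)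
    have h4 := h3 s h0 h1
    rw [← h4]
    congr 1
    ring
  have h3 := dg_of_TT (w := 0) (N := M + 1) h2 (by omega)
  rw [dg_zero_Ev] at h3
  have h4 : (Polynomial.X : Polynomial ℂ) * Polynomial.derivative (Polynomial.X * (A * B))
      - Polynomial.X = Polynomial.X * Polynomial.derivative (Polynomial.X * (A * B - 1)) := by
    rw [mul_sub (Polynomial.X : Polynomial ℂ) (A * B) 1, map_sub, mul_one, Polynomial.derivative_X]
    ring
  rw [h4] at h3
  have h5 := dvd_sub_coeff (dvd_of_X_mul h3)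
  rw [Polynomial.mul_coeff_zero, Polynomial.coeff_X_zero, zero_mul, Polynomial.C_0, sub_zero] at h5
  exact dvd_of_X_mul h5

/-- exactness on the diagonal -/
theorem exact_diag {M : ℕ} {P Q P' Q' R R' U V : R2} {A B : Polynomial ℂ}
    (hR0 : pderiv 0 R = P * pderiv 0 Q) (hR1 : pderiv 1 R = P * pderiv 1 Q - X 0)
    (hR0' : pderiv 0 R' = P' * pderiv 0 Q')
    (h1 : TT (M + 1) (aeval ![U, V] P - P')) (h2 : TT (M + 1) (aeval ![U, V] Q - Q'))
    (hU : TT (M + 1) (U - X 0 * Ev A)) (hV : TT (M + 1) (V - X 1 * Ev B))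
    (hAB : (Polynomial.X : Polynomial ℂ) ^ M ∣ A * B - 1) :
    (Polynomial.X : Polynomial ℂ) ^ M ∣
      Polynomial.X * Polynomial.derivative (dg 0 R' - dg 0 R)
        - Polynomial.X ^ 2 * (A * Polynomial.derivative B) := by
  have e1 : X 0 * pderiv 0 R' - X 0 * pderiv 0 (aeval ![U, V] R) - U * (X 0 * pderiv 0 V)
      = P' * (X 0 * pderiv 0 (Q' - aeval ![U, V] Q))
        + (P' - aeval ![U, V] P) * (X 0 * pderiv 0 (aeval ![U, V] Q)) := by
    rw [map_sub, chain U V R 0, chain U V Q 0, hR0, hR1, hR0', map_mul, map_sub, map_mul, aeval_X]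
    simp only [Matrix.cons_val_zero]
    ring
  have n1 : TT (M + 1) (P' - aeval ![U, V] P) := by
    intro s h0 h3
    have := h1 s h0 h3
    rw [coeff_sub] at this ⊢
    linear_combination -this
  have n2 : TT (M + 1) (Q' - aeval ![U, V] Q) := by
    intro s h0 h3
    have := h2 s h0 h3
    rw [coeff_sub] at this ⊢
    linear_combination -this
  have t1 : TT (M + 1) (X 0 * pderiv 0 R' - X 0 * pderiv 0 (aeval ![U, V] R)
      - U * (X 0 * pderiv 0 V)) := by
    rw [e1]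
    exact ((TT_E n2 0).mul_left _).add (n1.mul _)
  have d1 := dg_of_TT (w := 0) (N := M) t1 (by omega)
  rw [dg_sub, dg_sub, dg_E0, dg_E0] at d1
  -- the composition
  have d2 := dg_of_TT (w := 0) (N := M) (TT.comp2 hU hV R) (by omega)
  have d3 := dg_comp hAB 0 R
  rw [dg_sub] at d2
  rw [pow_zero, one_mul] at d3
  have d4 : (Polynomial.X : Polynomial ℂ) ^ M ∣ dg 0 (aeval ![U, V] R) - dg 0 R := by
    refine (dvd_add d2 d3).trans (dvd_of_eq ?_)
    ring
  have d5 : (Polynomial.X : Polynomial ℂ) ^ M ∣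
      Polynomial.X * Polynomial.derivative (dg 0 (aeval ![U, V] R) - dg 0 R) := by
    rcases M with _ | M
    · simp
    · rw [pow_succ' (Polynomial.X : Polynomial ℂ) M]
      exact mul_dvd_mul_left _ (dvd_derivative d4)
  -- the product
  have t2 : TT (M + 1) (U * (X 0 * pderiv 0 V)
      - (X 0 * Ev A) * (X 0 * pderiv 0 (X 1 * Ev B))) := by
    have e2 : U * (X 0 * pderiv 0 V) - (X 0 * Ev A) * (X 0 * pderiv 0 (X 1 * Ev B))
        = (U - X 0 * Ev A) * (X 0 * pderiv 0 V)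
          + (X 0 * Ev A) * (X 0 * pderiv 0 (V - X 1 * Ev B)) := by
      rw [map_sub]; ring
    rw [e2]
    exact (hU.mul _).add ((TT_E hV 0).mul_left _)
  have e3 : (X 0 * Ev A) * (X 0 * pderiv 0 (X 1 * Ev B))
      = Ev (Polynomial.X ^ 2 * (A * Polynomial.derivative B)) := by
    have hX : Ev Polynomial.X = X 0 * X 1 := by
      unfold Ev
      rw [Polynomial.aeval_X]
    rw [E0_Ev]
    simp only [map_mul, map_pow, hX]
    ring
  rw [e3] at t2
  have d6 := dg_of_TT (w := 0) (N := M) t2 (by omega)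
  rw [dg_sub, dg_zero_Ev] at d6
  refine (dvd_add (dvd_add d1 d5) d6).trans (dvd_of_eq ?_)
  rw [map_sub, map_sub]
  ring

/-- the differential equation for `A` -/
theorem A_eq {M : ℕ} {c A B : Polynomial ℂ}
    (hAB : (Polynomial.X : Polynomial ℂ) ^ (M + 1) ∣ A * B - 1)
    (h : (Polynomial.X : Polynomial ℂ) ^ (M + 1) ∣
      Polynomial.X * Polynomial.derivative c
        - Polynomial.X ^ 2 * (A * Polynomial.derivative B)) :
    (Polynomial.X : Polynomial ℂ) ^ M ∣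
      Polynomial.derivative c * A + Polynomial.X * Polynomial.derivative A := by
  apply dvd_of_X_mul
  have h1 := dvd_derivative hAB
  rw [map_sub, Polynomial.derivative_one, sub_zero, Polynomial.derivative_mul] at h1
  have h2 : (Polynomial.X : Polynomial ℂ) ^ (M + 1) ∣ Polynomial.X
      * (Polynomial.derivative A * B + A * Polynomial.derivative B) := by
    rw [pow_succ']
    exact mul_dvd_mul_left _ h1
  have h4 := dvd_sub (Dvd.dvd.mul_right h A) (Dvd.dvd.mul_left hAB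
    (Polynomial.X ^ 2 * Polynomial.derivative A))
  refine (dvd_add h4 (Dvd.dvd.mul_left h2 (Polynomial.X * A))).trans (dvd_of_eq ?_)
  ring

/-- combination of the equations -/
theorem Z_dvd {M m : ℕ} (hm : 1 ≤ m) {c A φ ψ : Polynomial ℂ}
    (hY : (Polynomial.X : Polynomial ℂ) ^ (M + m) ∣
      Polynomial.derivative c * A + Polynomial.X * Polynomial.derivative A)
    (hW : (Polynomial.X : Polynomial ℂ) ^ (M + 1) ∣ A ^ m * φ - ψ) :
    (Polynomial.X : Polynomial ℂ) ^ M ∣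
      (m : Polynomial ℂ) * (Polynomial.derivative c * ψ * φ)
        - Polynomial.X * (ψ * Polynomial.derivative φ - Polynomial.derivative ψ * φ) := by
  have h1 := dvd_derivative hW
  rw [map_sub, Polynomial.derivative_mul, Polynomial.derivative_pow] at h1
  have hW' := (pow_dvd_pow (Polynomial.X : Polynomial ℂ) (Nat.le_succ M)).trans hW
  have hY' := (pow_dvd_pow (Polynomial.X : Polynomial ℂ) (Nat.le_add_right M m)).trans hY
  have hpow : A ^ m = A ^ (m - 1) * A := by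
    rw [← pow_succ, Nat.sub_add_cancel hm]
  have hC : (Polynomial.C (m : ℂ)) = (m : Polynomial ℂ) := by simp
  rw [hC] at h1
  have h2 := dvd_sub (dvd_sub (Dvd.dvd.mul_left h1 (φ * Polynomial.X))
    (Dvd.dvd.mul_left hY' ((m : Polynomial ℂ) * A ^ (m - 1) * φ ^ 2)))
    (Dvd.dvd.mul_left hW' (Polynomial.X * Polynomial.derivative φ
      - (m : Polynomial ℂ) * Polynomial.derivative c * φ))
  rw [← dvd_neg]
  refine h2.trans (dvd_of_eq ?_)
  rw [hpow]
  ring

/-- reduction to boxes, with some room -/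
theorem eq_of_box2 {P Q P' Q' : R2} (hJ : br P Q = 1)
    (hP : (X 0 * X 1 : R2) ∣ P - P') (hQ : (X 0 * X 1 : R2) ∣ Q - Q')
    (h : ∀ (M : ℕ) (U V : R2), (X 0 * X 1 : R2) ∣ U - X 0 → (X 0 * X 1 : R2) ∣ V - X 1 →
      (X 0 * X 1 : R2) ^ (M + 2) ∣ aeval ![U, V] P - P' →
      (X 0 * X 1 : R2) ^ (M + 2) ∣ aeval ![U, V] Q - Q' →
      TT (M - 1) (U - X 0) ∧ TT (M - 1) (V - X 1)) : P = P' ∧ Q = Q' := by
  have key : ∀ M : ℕ, TT (M + 1) (P - P') ∧ TT (M + 1) (Q - Q') := by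
    intro M
    obtain ⟨U, V, hU, hV, h1, h2⟩ := newton (X 0 * X 1) P Q P' Q' hJ hP hQ (M + 3)
    obtain ⟨tU, tV⟩ := h (M + 2) U V hU hV h1 h2
    have aux : ∀ p p' : R2, (X 0 * X 1 : R2) ^ (M + 4) ∣ aeval ![U, V] p - p' →
        TT (M + 1) (p - p') := by
      intro p p' hp
      have e1 := TT.comp tU tV p
      have e2 : TT (M + 1) (aeval ![U, V] p - p') :=
        TT.of_dvd ((pow_dvd_pow _ (by omega)).trans hp)
      intro s h0 h1
      have e3 := e1 s (by omega) (by omega)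
      have e4 := e2 s h0 h1
      rw [coeff_sub] at e3 e4 ⊢
      linear_combination e4 - e3
    exact ⟨aux P P' h1, aux Q Q' h2⟩
  constructor
  · exact sub_eq_zero.1 (eq_of_TT fun M => (key M).1)
  · exact sub_eq_zero.1 (eq_of_TT fun M => (key M).2)

/-- the shape of the change of coordinates modulo a box -/
theorem shape {P Q P' Q' S T : R2} {m n : ℕ} (hJ : br P Q = 1)
    (hJ' : br P' Q' = 1) (hm : 1 ≤ m) (hn : 1 ≤ n)
    (wf : ∀ s : Fin 2 →₀ ℕ, coeff s (aeval ![P, Q] S) ≠ 0 → (s 0 : ℝ) ≤ m + 1 * s 1)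
    (wf' : ∀ s : Fin 2 →₀ ℕ, coeff s (aeval ![P', Q'] S) ≠ 0 → (s 0 : ℝ) ≤ m + 1 * s 1)
    (hc : coeff (Finsupp.single 0 m) (aeval ![P, Q] S) ≠ 0)
    (wg : ∀ s : Fin 2 →₀ ℕ, coeff s (aeval ![P, Q] T) ≠ 0 → (s 1 : ℝ) ≤ n + 1 * s 0)
    (wg' : ∀ s : Fin 2 →₀ ℕ, coeff s (aeval ![P', Q'] T) ≠ 0 → (s 1 : ℝ) ≤ n + 1 * s 0)
    (hd : coeff (Finsupp.single 1 n) (aeval ![P, Q] T) ≠ 0) {M : ℕ} {U V : R2}
    (hU : (X 0 * X 1 : R2) ∣ U - X 0) (hV : (X 0 * X 1 : R2) ∣ V - X 1)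
    (h1 : (X 0 * X 1 : R2) ^ (M + 2) ∣ aeval ![U, V] P - P')
    (h2 : (X 0 * X 1 : R2) ^ (M + 2) ∣ aeval ![U, V] Q - Q') :
    ∃ A B : Polynomial ℂ, A.coeff 0 = 1 ∧ TT (M + 1) (U - X 0 * Ev A) ∧
      TT (M + 1) (V - X 1 * Ev B) ∧ (Polynomial.X : Polynomial ℂ) ^ M ∣ A * B - 1 := by
  obtain ⟨a1, a2⟩ := slopes_x hJ hJ' hU hV h1 h2 hm wf wf' hc
  obtain ⟨b1, b2⟩ := slopes_y hJ hJ' hU hV h1 h2 hn wg wg' hd
  have tU := diag_U (n := M + 1) (U := U) (by
    intro s hs0 hs1 h0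
    have e1 := a1 s hs1 h0
    have e2 := b1 s hs0 h0
    have e3 : (s 0 : ℝ) = s 1 + 1 := by linarith
    exact_mod_cast e3)
  have tV := diag_V (n := M + 1) (V := V) (by
    intro s hs0 hs1 h0
    have e1 := a2 s hs1 h0
    have e2 := b2 s hs0 h0
    have e3 : (s 1 : ℝ) = s 0 + 1 := by linarith
    exact_mod_cast e3)
  refine ⟨dg 1 U, dg 1 (sw V), ?_, tU, tV, ?_⟩
  · rw [coeff_dg]
    have h3 := (cross_dvd_iff _).1 hU (pt (1 + 0) 0) (Or.inr (pt_one _ _))
    rw [coeff_sub, sub_eq_zero] at h3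
    rw [h3, coeff_X, if_pos]
    unfold pt
    simp
  · refine AB_one tU tV ?_
    have h3 := newton_br _ P Q P' Q' U V hJ hJ' (M + 1) h1 h2
    have h4 : (X 0 * X 1 : R2) ^ (M + 1) ∣ X 0 * X 1 * (br U V - 1) :=
      Dvd.dvd.mul_left h3 _
    exact TT.of_dvd h4

theorem coeff_cross_eq {f f' : R2} (h : (X 0 * X 1 : R2) ∣ f - f') (i : ℕ) :
    coeff (Finsupp.single 0 i) f = coeff (Finsupp.single 0 i) f' := by
  have h3 := (cross_dvd_iff _).1 h (Finsupp.single 0 i) (Or.inr (by simp))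
  rwa [coeff_sub, sub_eq_zero] at h3

theorem Ev_dvd {p : Polynomial ℂ} {N : ℕ} (h : (Polynomial.X : Polynomial ℂ) ^ N ∣ p) :
    (X 0 * X 1 : R2) ^ N ∣ Ev p := by
  have h1 := map_dvd Ev h
  have hX : Ev Polynomial.X = X 0 * X 1 := by
    unfold Ev
    rw [Polynomial.aeval_X]
  rwa [map_pow, hX] at h1

theorem TT.of_dvd' {N : ℕ} {f : R2} (h : (X 0 * X 1 : R2) ^ N ∣ f) : TT N f := by
  intro s _ h1
  apply coeff_of_dvd (M := N) _ s h1
  refine dvd_trans ?_ h
  rw [mul_pow]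
  exact dvd_mul_left _ _

/-- uniqueness when both slopes are `1` -/
theorem eq_of_one {P Q P' Q' S T : R2} {m n : ℕ} (hJ : br P Q = 1)
    (hJ' : br P' Q' = 1) (hP : (X 0 * X 1 : R2) ∣ P - P') (hQ : (X 0 * X 1 : R2) ∣ Q - Q')
    (hm : 1 ≤ m) (hn : 1 ≤ n)
    (wf : ∀ s : Fin 2 →₀ ℕ, coeff s (aeval ![P, Q] S) ≠ 0 → (s 0 : ℝ) ≤ m + 1 * s 1)
    (wf' : ∀ s : Fin 2 →₀ ℕ, coeff s (aeval ![P', Q'] S) ≠ 0 → (s 0 : ℝ) ≤ m + 1 * s 1)
    (hc : coeff (Finsupp.single 0 m) (aeval ![P, Q] S) ≠ 0)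
    (wg : ∀ s : Fin 2 →₀ ℕ, coeff s (aeval ![P, Q] T) ≠ 0 → (s 1 : ℝ) ≤ n + 1 * s 0)
    (wg' : ∀ s : Fin 2 →₀ ℕ, coeff s (aeval ![P', Q'] T) ≠ 0 → (s 1 : ℝ) ≤ n + 1 * s 0)
    (hd : coeff (Finsupp.single 1 n) (aeval ![P, Q] T) ≠ 0) : P = P' ∧ Q = Q' := by
  obtain ⟨R, hR0, hR1⟩ := exists_exact hJ
  obtain ⟨R', hR0', -⟩ := exists_exact hJ'
  set c : Polynomial ℂ := dg 0 R' - dg 0 R with hcdef
  set φ : Polynomial ℂ := dg m (aeval ![P, Q] S) with hφ
  set ψ : Polynomial ℂ := dg m (aeval ![P', Q'] S) with hψ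
  -- all the equations for one `M`
  have eqs : ∀ (M : ℕ) (U V : R2), (X 0 * X 1 : R2) ∣ U - X 0 → (X 0 * X 1 : R2) ∣ V - X 1 →
      (X 0 * X 1 : R2) ^ (M + 2) ∣ aeval ![U, V] P - P' →
      (X 0 * X 1 : R2) ^ (M + 2) ∣ aeval ![U, V] Q - Q' →
      ∃ A B : Polynomial ℂ, A.coeff 0 = 1 ∧ TT (M + 1) (U - X 0 * Ev A) ∧
        TT (M + 1) (V - X 1 * Ev B) ∧ (Polynomial.X : Polynomial ℂ) ^ M ∣ A * B - 1 ∧
        (Polynomial.X : Polynomial ℂ) ^ (M - 1) ∣
          Polynomial.derivative c * A + Polynomial.X * Polynomial.derivative A ∧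
        (Polynomial.X : Polynomial ℂ) ^ (M + 1 - m) ∣ A ^ m * φ - ψ := by
    intro M U V hU hV h1 h2
    obtain ⟨A, B, hA0, tU, tV, hAB⟩ := shape hJ hJ' hm hn wf wf' hc wg wg' hd hU hV h1 h2
    have hTT : ∀ f : R2, (X 0 * X 1 : R2) ^ (M + 2) ∣ f → TT (M + 1) f := fun f hf =>
      TT.of_dvd ((pow_dvd_pow _ (by omega)).trans hf)
    refine ⟨A, B, hA0, tU, tV, hAB, ?_, ?_⟩
    · have h3 := exact_diag hR0 hR1 hR0' (hTT _ h1) (hTT _ h2) tU tV hAB
      rcases M with _ | M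
      · simp
      · exact A_eq hAB h3
    · have h3 := hTT _ (newton_fun _ P Q P' Q' U V (M + 1) h1 h2 S)
      have h4 := dg_of_TT (w := m) (N := M + 1 - m) ((TT.comp2 tU tV (aeval ![P, Q] S)).sub h3)
      by_cases hmM : m ≤ M + 1
      · have h5 := h4 (by omega)
        have h6 := (pow_dvd_pow (Polynomial.X : Polynomial ℂ)
          (by omega : M + 1 - m ≤ M)).trans (dg_comp hAB m (aeval ![P, Q] S))
        rw [dg_sub, dg_sub, dg_sub] at h5
        rw [← dvd_neg]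
        refine (dvd_add h5 h6).trans (dvd_of_eq ?_)
        rw [hφ, hψ]
        ring
      · rw [show M + 1 - m = 0 by omega, pow_zero]
        exact one_dvd _
  -- the polynomial identity
  have hZ : (m : Polynomial ℂ) * (Polynomial.derivative c * ψ * φ)
        - Polynomial.X * (ψ * Polynomial.derivative φ - Polynomial.derivative ψ * φ) = 0 := by
    apply eq_zero_of_dvd
    intro N
    obtain ⟨U, V, hU, hV, h1, h2⟩ := newton (X 0 * X 1) P Q P' Q' hJ hP hQ (N + m + 1 + 1)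
    obtain ⟨A, B, -, -, -, -, hY, hW⟩ := eqs (N + m + 1) U V hU hV h1 h2
    exact Z_dvd hm (by rw [Nat.add_sub_cancel] at hY; exact hY)
      ((pow_dvd_pow _ (by omega)).trans hW)
  have hpt : pt (m + 0) 0 = Finsupp.single 0 m := by
    unfold pt
    simp
  have hφ0 : φ.coeff 0 ≠ 0 := by
    rw [hφ, coeff_dg, hpt]
    exact hc
  have hψ0 : ψ.coeff 0 ≠ 0 := by
    rw [hψ, coeff_dg, hpt, ← coeff_cross_eq (aeval_congr hP hQ S) m]
    exact hc
  have hc0 := one_var hm hφ0 hψ0 (sub_eq_zero.1 hZ)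
  refine eq_of_box2 hJ hP hQ fun M U V hU hV h1 h2 => ?_
  obtain ⟨A, B, hA0, tU, tV, hAB, hY, -⟩ := eqs M U V hU hV h1 h2
  rw [hc0, zero_mul, zero_add] at hY
  have hA : (Polynomial.X : Polynomial ℂ) ^ (M - 1) ∣ A - 1 := by
    rcases Nat.eq_zero_or_pos (M - 1) with h3 | h3
    · rw [h3, pow_zero]; exact one_dvd _
    · obtain ⟨k, hk⟩ : ∃ k, M - 1 = k + 1 := ⟨M - 1 - 1, by omega⟩
      rw [hk] at hY ⊢
      have h4 := dvd_sub_coeff (dvd_of_X_mul hY)
      rwa [hA0, Polynomial.C_1] at h4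
  have hB : (Polynomial.X : Polynomial ℂ) ^ (M - 1) ∣ B - 1 := by
    have h3 := (pow_dvd_pow (Polynomial.X : Polynomial ℂ) (by omega : M - 1 ≤ M)).trans hAB
    refine (dvd_sub h3 (Dvd.dvd.mul_right hA B)).trans (dvd_of_eq ?_)
    ring
  constructor
  · have h3 : TT (M - 1) (X 0 * Ev (A - 1)) := (TT.of_dvd' (Ev_dvd hA)).mul_left _
    have h4 := (tU.mono (by omega : M - 1 ≤ M + 1)).add h3
    intro s hs0 hs1
    rw [← h4 s hs0 hs1]
    congr 1
    rw [map_sub, map_one]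
    ring
  · have h3 : TT (M - 1) (X 1 * Ev (B - 1)) := (TT.of_dvd' (Ev_dvd hB)).mul_left _
    have h4 := (tV.mono (by omega : M - 1 ≤ M + 1)).add h3
    intro s hs0 hs1
    rw [← h4 s hs0 hs1]
    congr 1
    rw [map_sub, map_one]
    ring

end Pool.Agent.KXS
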