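import Pool.Agent.KXS.One
import Pool.Agent.KXS.Dep

/-!
# The slope of the other component

If one component of a Keller map has slope at most `K` at its vertex on the `x`-axis then so has
the other component, provided that it is not constant on the `x`-axis.
-/

set_option autoImplicit false

open MvPolynomial

namespace Pool.Agent.KXS

/-- slope at most `K` at the vertex `(m, 0)` -/
def SlopeX (m : ℕ) (K : ℝ) (f : R2) : Prop :=
  1 ≤ m ∧ coeff (Finsupp.single 0 m) f ≠ 0 ∧ ∀ s : Fin 2 →₀ ℕ, coeff s f ≠ 0 →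
    (s 0 : ℝ) ≤ m + K * s 1

theorem partner {P Q : R2} {κ : ℂ} {K : ℝ} {a b : ℕ} (hJ : br P Q = C κ)
    (hK : 0 ≤ K) (hP : SlopeX a K P) (hb : 1 ≤ b)
    (hQ : ∀ i, b < i → coeff (Finsupp.single 0 i) Q = 0) :
    ∀ s : Fin 2 →₀ ℕ, coeff s Q ≠ 0 → (s 0 : ℝ) ≤ b + K * s 1 := by
  obtain ⟨ha, hca, wP⟩ := hP
  by_contra hcon
  push Not at hcon
  obtain ⟨s, hs, hs'⟩ := hcon
  -- maximal weight
  obtain ⟨r, hr, hrmax⟩ := Finset.exists_max_image Q.support (fun s => (s 0 : ℝ) - K * s 1)
    ⟨s, mem_support_iff.2 hs⟩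
  -- minimal second exponent
  classical
  obtain ⟨t, ht, htmin⟩ := Finset.exists_min_image
    (Q.support.filter fun v => (v 0 : ℝ) - K * v 1 = (r 0 : ℝ) - K * r 1) (fun v => v 1)
    ⟨r, Finset.mem_filter.2 ⟨hr, rfl⟩⟩
  rw [Finset.mem_filter] at ht
  have hsr := hrmax s (mem_support_iff.2 hs)
  have hw : (b : ℝ) < (t 0 : ℝ) - K * t 1 := by
    rw [ht.2]
    linarith
  have ht1 : t 1 ≠ 0 := by
    intro h0
    have hte : t = Finsupp.single 0 (t 0) := by
      ext j
      fin_cases j
      · simp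
      · simpa using h0
    rw [h0] at hw
    have h1 : (b : ℝ) < t 0 := by simpa using hw
    have h2 : b < t 0 := by exact_mod_cast h1
    have h3 := hQ _ h2
    rw [← hte] at h3
    exact (mem_support_iff.1 ht.1) h3
  -- the coefficient
  have hadd : ∀ u v : Fin 2 →₀ ℕ, u + v = Finsupp.single 0 a + t → coeff u P ≠ 0 →
      coeff v Q ≠ 0 → u = Finsupp.single 0 a ∧ v = t := by
    intro u v huv hu hv
    have h1 := wP u hu
    have h2 := hrmax v (mem_support_iff.2 hv)
    have h3 := DFunLike.congr_fun huv 0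
    have h4 := DFunLike.congr_fun huv 1
    rw [Finsupp.add_apply, Finsupp.add_apply, Finsupp.single_eq_same] at h3
    rw [Finsupp.add_apply, Finsupp.add_apply, Finsupp.single_eq_of_ne (by decide), zero_add] at h4
    have h3' : (u 0 : ℝ) + v 0 = a + t 0 := by exact_mod_cast h3
    have h4' : (u 1 : ℝ) + v 1 = t 1 := by exact_mod_cast h4
    have h5 : (v 0 : ℝ) - K * v 1 = (r 0 : ℝ) - K * r 1 := by
      refine le_antisymm h2 ?_
      rw [← ht.2]
      have : K * (t 1 : ℝ) = K * u 1 + K * v 1 := by rw [← mul_add, h4']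
      linarith
    have h6 := htmin v (Finset.mem_filter.2 ⟨mem_support_iff.2 hv, h5⟩)
    have h7 : u 1 = 0 := by omega
    have h8 : v 1 = t 1 := by omega
    have h9 : (v 0 : ℝ) = t 0 := by
      rw [← ht.2, h8] at h5
      linarith
    have h10 : v 0 = t 0 := by exact_mod_cast h9
    constructor
    · ext j
      fin_cases j
      · show u 0 = (Finsupp.single 0 a : Fin 2 →₀ ℕ) 0
        rw [Finsupp.single_eq_same]; omega
      · show u 1 = (Finsupp.single 0 a : Fin 2 →₀ ℕ) 1
        rw [Finsupp.single_eq_of_ne (by decide), h7]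
    · ext j
      fin_cases j
      · exact h10
      · exact h8
  have hE : ∀ i j : Fin 2, coeff (Finsupp.single 0 a + t)
      ((X i * pderiv i P) * (X j * pderiv j Q))
        = (((Finsupp.single 0 a : Fin 2 →₀ ℕ) i : ℂ) * coeff (Finsupp.single 0 a) P)
          * ((t j : ℂ) * coeff t Q) := by
    intro i j
    rw [coeff_mul, Finset.sum_eq_single (Finsupp.single 0 a, t)]
    · rw [coeff_XE, coeff_XE]
    · rintro ⟨u, v⟩ huv hne
      rw [Finset.HasAntidiagonal.mem_antidiagonal] at huv
      simp only at huv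
      simp only
      rw [coeff_XE, coeff_XE]
      by_cases hu : coeff u P = 0
      · rw [hu]; ring
      by_cases hv : coeff v Q = 0
      · rw [hv]; ring
      obtain ⟨h1, h2⟩ := hadd u v huv hu hv
      exact absurd (by rw [h1, h2]) hne
    · intro h
      exact absurd (by rw [Finset.HasAntidiagonal.mem_antidiagonal]) h
  have hbr : X 0 * X 1 * br P Q = (X 0 * pderiv 0 P) * (X 1 * pderiv 1 Q)
      - (X 1 * pderiv 1 P) * (X 0 * pderiv 0 Q) := by
    unfold br
    ring
  have hco : coeff (Finsupp.single 0 a + t) (X 0 * X 1 * br P Q)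
      = (a : ℂ) * t 1 * (coeff (Finsupp.single 0 a) P * coeff t Q) := by
    rw [hbr, coeff_sub, hE, hE, Finsupp.single_eq_same, Finsupp.single_eq_of_ne (by decide)]
    push_cast
    ring
  have hne : coeff (Finsupp.single 0 a + t) (X 0 * X 1 * br P Q) ≠ 0 := by
    rw [hco]
    have h1 : (a : ℂ) ≠ 0 := by exact_mod_cast (by omega : a ≠ 0)
    have h2 : (t 1 : ℂ) ≠ 0 := by exact_mod_cast ht1
    exact mul_ne_zero (mul_ne_zero h1 h2) (mul_ne_zero hca (mem_support_iff.1 ht.1))
  rw [hJ] at hne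
  have h11 : (X 0 * X 1 * C κ : R2) = monomial (pt 1 1) κ := by
    unfold pt
    rw [X, X, monomial_mul, C_apply, monomial_mul]
    simp
  rw [h11, coeff_monomial] at hne
  have h12 : pt 1 1 = Finsupp.single 0 a + t := by
    by_contra h
    exact hne (if_neg h)
  have h13 := DFunLike.congr_fun h12 0
  rw [pt_zero, Finsupp.add_apply, Finsupp.single_eq_same] at h13
  have h14 : t 0 = 0 := by omega
  rw [h14] at hw
  have h15 : (0 : ℝ) ≤ K * t 1 := by positivity
  have h16 : (1 : ℝ) ≤ b := by exact_mod_cast hb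
  push_cast at hw
  linarith

end Pool.Agent.KXS
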