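import Pool.Agent.KXS.Base

/-!
# Truncated weights

`TW K N c f`: every monomial `x^i y^j` of `f` with `j < N` satisfies `i ≤ c + K * j`.
-/

set_option autoImplicit false

open MvPolynomial

namespace Pool.Agent.KXS

/-- truncated weight condition -/
def TW (K : ℝ) (N : ℕ) (c : ℝ) (f : R2) : Prop :=
  ∀ s : Fin 2 →₀ ℕ, s 1 < N → coeff s f ≠ 0 → (s 0 : ℝ) ≤ c + K * s 1

theorem TW.mono {K c : ℝ} {N N' : ℕ} {f : R2} (h : TW K N c f) (hN : N' ≤ N) : TW K N' c f :=
  fun s hs h0 => h s (lt_of_lt_of_le hs hN) h0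

theorem TW.add {K c : ℝ} {N : ℕ} {f g : R2} (hf : TW K N c f) (hg : TW K N c g) :
    TW K N c (f + g) := by
  intro s hs h0
  rw [coeff_add] at h0
  by_cases h1 : coeff s f = 0
  · rw [h1, zero_add] at h0
    exact hg s hs h0
  · exact hf s hs h1

theorem TW.neg {K c : ℝ} {N : ℕ} {f : R2} (hf : TW K N c f) : TW K N c (-f) := by
  intro s hs h0
  rw [coeff_neg, neg_ne_zero] at h0
  exact hf s hs h0

theorem TW.sub {K c : ℝ} {N : ℕ} {f g : R2} (hf : TW K N c f) (hg : TW K N c g) :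
    TW K N c (f - g) := by
  rw [sub_eq_add_neg]
  exact hf.add hg.neg

theorem exists_coeff_mul {f g : R2} {s : Fin 2 →₀ ℕ} (h : coeff s (f * g) ≠ 0) :
    ∃ a b : Fin 2 →₀ ℕ, a + b = s ∧ coeff a f ≠ 0 ∧ coeff b g ≠ 0 := by
  classical
  rw [coeff_mul] at h
  obtain ⟨⟨a, b⟩, hab, h1⟩ := Finset.exists_ne_zero_of_sum_ne_zero h
  refine ⟨a, b, by simpa using hab, ?_, ?_⟩
  · exact left_ne_zero_of_mul h1
  · exact right_ne_zero_of_mul h1

theorem TW.mul {K c c' : ℝ} {N : ℕ} {f g : R2} (hf : TW K N c f) (hg : TW K N c' g) :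
    TW K N (c + c') (f * g) := by
  intro s hs h0
  obtain ⟨a, b, rfl, ha, hb⟩ := exists_coeff_mul h0
  have h1 : (a + b) 1 = a 1 + b 1 := rfl
  have h2 : (a + b) 0 = a 0 + b 0 := rfl
  have h3 := hf a (by omega) ha
  have h4 := hg b (by omega) hb
  rw [h1, h2]
  push_cast
  linarith

/-- product with a factor without row `0` -/
theorem TW.mul_row {K c c' : ℝ} {N : ℕ} {f g : R2} (hf : TW K (N + 1) c f) (hg : TW K N c' g)
    (h0 : ∀ s : Fin 2 →₀ ℕ, s 1 = 0 → coeff s f = 0) :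
    TW K (N + 1) (c + c') (f * g) := by
  intro s hs hne
  obtain ⟨a, b, rfl, ha, hb⟩ := exists_coeff_mul hne
  have h1 : (a + b) 1 = a 1 + b 1 := rfl
  have h2 : (a + b) 0 = a 0 + b 0 := rfl
  have ha0 : a 1 ≠ 0 := fun h => ha (h0 a h)
  have h3 := hf a (by omega) ha
  have h4 := hg b (by omega) hb
  rw [h1, h2]
  push_cast
  linarith

theorem TW.C (K : ℝ) (N : ℕ) (a : ℂ) : TW K N 0 (C a) := by
  intro s hs h0
  rw [coeff_C] at h0
  have : s = 0 := by
    by_contra h
    exact h0 (if_neg (fun h' => h h'.symm))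
  subst this
  simp

theorem TW.pow {K c : ℝ} {N : ℕ} {f : R2} (hf : TW K N c f) (n : ℕ) :
    TW K N (n * c) (f ^ n) := by
  induction n with
  | zero =>
    simp only [pow_zero, Nat.cast_zero, zero_mul]
    exact TW.C K N 1
  | succ n ih =>
    rw [pow_succ]
    have := ih.mul hf
    refine (by push_cast; rw [add_mul, one_mul]; exact this)

theorem TW.zero (K c : ℝ) (N : ℕ) : TW K N c 0 := by
  intro s _ h0
  simp at h0

theorem TW.sum {K c : ℝ} {N : ℕ} {ι : Type*} (t : Finset ι) (F : ι → R2)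
    (h : ∀ i ∈ t, TW K N c (F i)) : TW K N c (∑ i ∈ t, F i) := by
  classical
  induction t using Finset.induction_on with
  | empty => simpa using TW.zero K c N
  | insert a t ha ih =>
    rw [Finset.sum_insert ha]
    exact (h a (Finset.mem_insert_self a t)).add
      (ih fun i hi => h i (Finset.mem_insert_of_mem hi))

theorem TW.le {K c c' : ℝ} {N : ℕ} {f : R2} (h : TW K N c f) (hc : c ≤ c') : TW K N c' f :=
  fun s hs h0 => (h s hs h0).trans (by linarith)

/-- substitution -/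
theorem TW.comp {K m : ℝ} {N : ℕ} {X Y f : R2} (hX : TW K N 1 X) (hY : TW K N (-K) Y)
    (hf : ∀ s : Fin 2 →₀ ℕ, coeff s f ≠ 0 → (s 0 : ℝ) ≤ m + K * s 1) :
    TW K N m (aeval ![X, Y] f) := by
  rw [aeval_def, eval₂_eq']
  refine TW.sum _ _ fun s hs => ?_
  rw [Fin.prod_univ_two]
  have h1 := (TW.C K N (coeff s f)).mul ((hX.pow (s 0)).mul (hY.pow (s 1)))
  refine TW.le h1 ?_
  have h2 := hf s (mem_support_iff.1 hs)
  linarith

theorem TW.pderiv0 {K c : ℝ} {N : ℕ} {f : R2} (h : TW K N c f) :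
    TW K N (c - 1) (pderiv 0 f) := by
  intro s hs h0
  rw [coeff_pderiv] at h0
  have h1 := h (s + Finsupp.single 0 1) (by simpa using hs) (left_ne_zero_of_mul h0)
  simp only [Finsupp.add_apply, Finsupp.single_eq_same] at h1
  rw [Finsupp.single_eq_of_ne (by decide)] at h1
  push_cast at h1
  simp only [add_zero] at h1
  linarith

theorem TW.pderiv1 {K c : ℝ} {N : ℕ} {f : R2} (h : TW K (N + 1) c f) :
    TW K N (c + K) (pderiv 1 f) := by
  intro s hs h0
  rw [coeff_pderiv] at h0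
  have h1 := h (s + Finsupp.single 1 1) (by simpa using hs) (left_ne_zero_of_mul h0)
  simp only [Finsupp.add_apply, Finsupp.single_eq_same] at h1
  rw [Finsupp.single_eq_of_ne (by decide)] at h1
  push_cast at h1
  simp only [add_zero] at h1
  linarith

/-- from the derivative in `y` back -/
theorem TW.of_pderiv1 {K c : ℝ} {N : ℕ} {f : R2} (h : TW K N (c + K) (pderiv 1 f))
    (h0 : ∀ s : Fin 2 →₀ ℕ, s 1 = 0 → coeff s f = 0) : TW K (N + 1) c f := by
  intro s hs hne
  have hs0 : s 1 ≠ 0 := fun h' => hne (h0 s h')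
  have hle : Finsupp.single 1 1 ≤ s := by
    rw [Finsupp.single_le_iff]; omega
  have h1 := h (s - Finsupp.single 1 1) (by
    rw [Finsupp.tsub_apply, Finsupp.single_eq_same]; omega) (by
    rw [coeff_pderiv, tsub_add_cancel_of_le hle]
    exact mul_ne_zero hne (Nat.cast_add_one_ne_zero _))
  rw [Finsupp.tsub_apply, Finsupp.tsub_apply, Finsupp.single_eq_same,
    Finsupp.single_eq_of_ne (by decide)] at h1
  rw [Nat.sub_zero, Nat.cast_sub (by omega)] at h1
  push_cast at h1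
  linarith

/-- `y ^ M ∣ f` means that the rows `< M` of `f` vanish -/
theorem coeff_of_dvd {M : ℕ} {f : R2} (h : (X 1 : R2) ^ M ∣ f) (s : Fin 2 →₀ ℕ) (hs : s 1 < M) :
    coeff s f = 0 := by
  obtain ⟨g, rfl⟩ := h
  rw [X_pow_eq_monomial, coeff_monomial_mul', if_neg]
  intro h'
  have := h' 1
  rw [Finsupp.single_eq_same] at this
  omega

theorem TW.congr {K c : ℝ} {N M : ℕ} {f g : R2} (hf : TW K N c f)
    (h : (X 1 : R2) ^ M ∣ f - g) (hN : N ≤ M) : TW K N c g := by
  intro s hs h0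
  have h1 := coeff_of_dvd h s (lt_of_lt_of_le hs hN)
  rw [coeff_sub, sub_eq_zero] at h1
  exact hf s hs (by rw [h1]; exact h0)

end Pool.Agent.KXS
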